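import Mathlib

/-!
# Odd cycles as vertex sequences

`H.Free G` means `¬ H ⊑ G` (no copy of `H` in `G`).
-/

set_option autoImplicit false

namespace Pool.MP_1bacea_co

private theorem cyc_fin_sub {n : ℕ} (u v : Fin n) (h : (u - v).val = 1) :
    u.val = v.val + 1 ∨ (v.val + 1 = n ∧ u.val = 0) := by
  have hu := u.isLt
  have hv := v.isLt
  rw [Fin.val_sub] at h
  rcases lt_or_ge (n - v.val + u.val) n with h1 | h1
  · rw [Nat.mod_eq_of_lt h1] at h
    right
    omega
  · rw [Nat.mod_eq_sub_mod h1, Nat.mod_eq_of_lt (by omega)] at h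
    left
    omega

private theorem cyc_fin_succ {n : ℕ} (hn : 2 ≤ n) (u v : Fin n)
    (h : u.val = v.val + 1 ∨ (v.val + 1 = n ∧ u.val = 0)) : (u - v).val = 1 := by
  have hu := u.isLt
  have hv := v.isLt
  rw [Fin.val_sub]
  rcases h with h | ⟨h, h'⟩
  · have e : n - v.val + u.val = n + 1 := by omega
    rw [e, Nat.add_mod_left, Nat.mod_eq_of_lt (by omega)]
  · have e : n - v.val + u.val = 1 := by omega
    rw [e, Nat.mod_eq_of_lt (by omega)]

theorem not_free_iff {V : Type*} (G : SimpleGraph V) (k : ℕ) (hk : 1 ≤ k) :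
    ¬ (SimpleGraph.cycleGraph (2 * k + 1)).Free G ↔ ∃ z : ℕ → V, (∀ i < 2 * k, G.Adj (z i) (z (i + 1))) ∧
      G.Adj (z (2 * k)) (z 0) ∧ ∀ i ≤ 2 * k, ∀ j ≤ 2 * k, z i = z j → i = j := by
  unfold SimpleGraph.Free
  rw [not_not]
  constructor
  · rintro ⟨f⟩
    have hlt : ∀ i, i % (2 * k + 1) < 2 * k + 1 := fun i => Nat.mod_lt _ (by omega)
    have hadj : ∀ a b : Fin (2 * k + 1), (SimpleGraph.cycleGraph (2 * k + 1)).Adj a b → G.Adj (f a) (f b) :=
      fun a b h => f.toHom.map_rel h
    have hinj : Function.Injective (f : Fin (2 * k + 1) → V) := f.injective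
    refine ⟨fun i => f ⟨i % (2 * k + 1), hlt i⟩, ?_, ?_, ?_⟩
    · intro i hi
      apply hadj
      rw [SimpleGraph.cycleGraph_adj']
      right
      apply cyc_fin_succ (by omega)
      left
      show (i + 1) % (2 * k + 1) = i % (2 * k + 1) + 1
      rw [Nat.mod_eq_of_lt (by omega : i + 1 < 2 * k + 1),
        Nat.mod_eq_of_lt (by omega : i < 2 * k + 1)]
    · apply hadj
      rw [SimpleGraph.cycleGraph_adj']
      right
      apply cyc_fin_succ (by omega)
      right
      constructor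
      · show (2 * k) % (2 * k + 1) + 1 = 2 * k + 1
        rw [Nat.mod_eq_of_lt (by omega : 2 * k < 2 * k + 1)]
      · show 0 % (2 * k + 1) = 0
        rw [Nat.zero_mod]
    · intro i hi j hj h
      have h' := hinj h
      rw [Fin.mk.injEq, Nat.mod_eq_of_lt (by omega : i < 2 * k + 1),
        Nat.mod_eq_of_lt (by omega : j < 2 * k + 1)] at h'
      exact h'
  · rintro ⟨z, h1, h2, h3⟩
    have key : ∀ u v : Fin (2 * k + 1), (u - v).val = 1 → G.Adj (z u.val) (z v.val) := by
      intro u v h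
      have hu := u.isLt
      rcases cyc_fin_sub u v h with h | ⟨h, h'⟩
      · rw [h]
        exact (h1 v.val (by omega)).symm
      · have hv : v.val = 2 * k := by omega
        rw [h', hv]
        exact h2.symm
    refine ⟨⟨⟨fun i : Fin (2 * k + 1) => z i.val, ?_⟩, ?_⟩⟩
    · intro u v h
      rw [SimpleGraph.cycleGraph_adj'] at h
      rcases h with h | h
      · exact key u v h
      · exact (key v u h).symm
    · intro u v h
      have hu := u.isLt
      have hv := v.isLt
      exact Fin.ext (h3 u.val (by omega) v.val (by omega) h)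

/-- Rotation / reflection of cyclic sequences (needed to normalise the position of a pattern). -/
theorem seq_rotate {V : Type*} (G : SimpleGraph V) (k : ℕ) (hk : 1 ≤ k) (z : ℕ → V)
    (h1 : ∀ i < 2 * k, G.Adj (z i) (z (i + 1))) (h2 : G.Adj (z (2 * k)) (z 0))
    (h3 : ∀ i ≤ 2 * k, ∀ j ≤ 2 * k, z i = z j → i = j) (s : ℕ) :
    ∃ z' : ℕ → V, (∀ i, z' i = z ((i + s) % (2 * k + 1))) ∧
      (∀ i < 2 * k, G.Adj (z' i) (z' (i + 1))) ∧ G.Adj (z' (2 * k)) (z' 0) ∧
      ∀ i ≤ 2 * k, ∀ j ≤ 2 * k, z' i = z' j → i = j := by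
  have hlt : ∀ i, i % (2 * k + 1) < 2 * k + 1 := fun i => Nat.mod_lt _ (by omega)
  have hstep : ∀ m, G.Adj (z (m % (2 * k + 1))) (z ((m + 1) % (2 * k + 1))) := by
    intro m
    have hm := hlt m
    rw [Nat.add_mod, Nat.mod_eq_of_lt (by omega : 1 < 2 * k + 1)]
    rcases Nat.lt_or_ge (m % (2 * k + 1)) (2 * k) with h | h
    · rw [Nat.mod_eq_of_lt (by omega : m % (2 * k + 1) + 1 < 2 * k + 1)]
      exact h1 _ h
    · have e : m % (2 * k + 1) = 2 * k := by omega
      rw [e, Nat.mod_self]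
      exact h2
  refine ⟨fun i => z ((i + s) % (2 * k + 1)), fun i => rfl, ?_, ?_, ?_⟩
  · intro i _
    have := hstep (i + s)
    rw [show i + s + 1 = i + 1 + s by ring] at this
    exact this
  · have := hstep (2 * k + s)
    rw [show 2 * k + s + 1 = s + (2 * k + 1) by ring, Nat.add_mod_right] at this
    show G.Adj (z ((2 * k + s) % (2 * k + 1))) (z ((0 + s) % (2 * k + 1)))
    rw [zero_add]
    exact this
  · intro i hi j hj h
    have h4 : (i + s) % (2 * k + 1) = (j + s) % (2 * k + 1) :=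
      h3 _ (by have := hlt (i + s); omega) _ (by have := hlt (j + s); omega) h
    have h5 : i ≡ j [MOD (2 * k + 1)] := Nat.ModEq.add_right_cancel' s h4
    unfold Nat.ModEq at h5
    rw [Nat.mod_eq_of_lt (by omega : i < 2 * k + 1),
      Nat.mod_eq_of_lt (by omega : j < 2 * k + 1)] at h5
    exact h5

end Pool.MP_1bacea_co
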