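import Pool.Agent.Lib.MP_1bacea_co.Low.LDefs
import Pool.Agent.Lib.MP_1bacea_co.Low.Cycle

/-!
# Low/CleanAsm : deterministic cleaning

`B = bip G X`.  `G'` has the edges `w x` (`w ∈ W`, `x ∈ X`, `G.Adj`, `w` the only neighbour of `x` in `W`)
and the edges `x y` (`x ∈ X`, `y ∉ X ∪ W`, `G.Adj`) which are not *deleted*; `{x, y}` is deleted if there
is a `(2k+1)`-cycle `z 0, ..., z (2k)` of `W₀ ⊔ B` with `z 0 ∈ W`, `z 1 ∈ X`, `z 2 = y`, `z 3 = x`.
* Every `(2k+1)`-cycle of `W₀ ⊔ B` uses a step inside `W` (otherwise all steps are `B`-steps, which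
  alternate between `X` and its complement, impossible for an odd cycle).
* If `{x,y}` is deleted then `x ∈ RS W₀ B W k (fun _ => True) y` (path `z 2, z 1, z 0, z (2k), ..., z 3`, `z 1 ∉ W`) and
  `y ∈ RS W₀ B W k (fun _ => True) x` (path `z 3, z 4, ..., z (2k), z 0, z 1, z 2`: it has `u (2k-2) = z 0 ∈ W`,
  `u (2k-1) = z 1 ∉ W`, `u (2k) = z 2 ∉ W`); the step inside `W` is not one of `z 0 z 1`, `z 1 z 2`, `z 2 z 3`,
  so it lies on both paths.  So each vertex outside `W` loses at most `η D` edges (`loss`).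
* `W₀ ⊔ G'` is `C_{2k+1}`-free: a copy `z` is not inside `W` (`W₀` is free, `G'` has no edge inside `W`)
  and not outside `W` (parity), so after rotation `z 0 ∈ W`, `z 1 ∉ W`; then `z 1 ∈ X` with `z 0` its only
  neighbour in `W`, so `z 2 ∉ X ∪ W`, `z 3 ∈ X`, and the edge `z 2 z 3` was deleted.
* Degrees: `degX`, `degY` minus `loss`, and `degW`.  Vertices of `W` lose nothing.
-/

set_option autoImplicit false

open Finset

namespace Pool.MP_1bacea_co

namespace CA

variable {V : Type*}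

/-- an odd cyclic sequence -/
def CycSeq (H : SimpleGraph V) (k : ℕ) (z : ℕ → V) : Prop :=
  (∀ i < 2 * k, H.Adj (z i) (z (i + 1))) ∧ H.Adj (z (2 * k)) (z 0) ∧
    ∀ i ≤ 2 * k, ∀ j ≤ 2 * k, z i = z j → i = j

/-- an odd cyclic sequence uses a step inside `W` -/
theorem step_inside {H : SimpleGraph V} {X W : Finset V} {k : ℕ} {z : ℕ → V}
    (hH : ∀ u v, H.Adj u v → (u ∈ X ↔ v ∉ X) ∨ (u ∈ W ∧ v ∈ W)) (hz : CycSeq H k z) :
    (∃ i < 2 * k, z i ∈ W ∧ z (i + 1) ∈ W) ∨ (z (2 * k) ∈ W ∧ z 0 ∈ W) := by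
  by_contra hcon
  push Not at hcon
  obtain ⟨h1, h2⟩ := hcon
  have hstep : ∀ i < 2 * k, (z i ∈ X ↔ z (i + 1) ∉ X) := by
    intro i hi
    rcases hH _ _ (hz.1 i hi) with h | h
    · exact h
    · exact absurd h.2 (h1 i hi h.1)
  have hclo : z (2 * k) ∈ X ↔ z 0 ∉ X := by
    rcases hH _ _ hz.2.1 with h | h
    · exact h
    · exact absurd h.2 (h2 h.1)
  have hind : ∀ i, i ≤ 2 * k → ((i % 2 = 0 → (z i ∈ X ↔ z 0 ∈ X)) ∧
      (i % 2 = 1 → (z i ∈ X ↔ z 0 ∉ X))) := by
    intro i
    induction i with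
    | zero => intro _; simp
    | succ i ih =>
      intro hi
      have h3 := ih (by omega)
      have h4 := hstep i (by omega)
      constructor
      · intro hpar
        have h5 := h3.2 (by omega)
        tauto
      · intro hpar
        have h5 := h3.1 (by omega)
        tauto
  have h5 := (hind (2 * k) le_rfl).1 (by omega)
  tauto

variable [Fintype V] [DecidableEq V]

/-- the edge `{x, y}` closes a dangerous cycle -/
def Del (H : SimpleGraph V) (X W : Finset V) (k : ℕ) (x y : V) : Prop :=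
  ∃ z : ℕ → V, CycSeq H k z ∧ z 0 = x ∧ z (2 * k) = y ∧ z (2 * k - 1) ∈ X ∧ z (2 * k - 2) ∈ W

/-- the kept oriented pairs -/
def Rel (H G : SimpleGraph V) (X W : Finset V) (k : ℕ) (x v : V) : Prop :=
  x ∈ X ∧ G.Adj x v ∧ ((v ∈ W ∧ ∀ w' ∈ W, G.Adj x w' → w' = v) ∨
    (v ∉ X ∧ v ∉ W ∧ ¬ Del H X W k x v))

/-- the cleaned graph -/
def Gc (H G : SimpleGraph V) (X W : Finset V) (k : ℕ) : SimpleGraph V where
  Adj u v := Rel H G X W k u v ∨ Rel H G X W k v u
  symm := ⟨fun u v h => h.symm⟩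
  loopless := ⟨fun u h => by
    rcases h with h | h
    · exact G.loopless.irrefl u h.2.1
    · exact G.loopless.irrefl u h.2.1⟩

theorem del_RS {W₀ G : SimpleGraph V} {X W : Finset V} {k : ℕ}
    (hXW : Disjoint X W) (hW₀ : SuppOn W₀ W) {x y : V}
    (hy : y ∉ W) (h : Del (W₀ ⊔ bip G X) X W k x y) :
    x ∈ RS W₀ (bip G X) W k (fun _ => True) y ∧ y ∈ RS W₀ (bip G X) W k (fun _ => True) x := by
  classical
  obtain ⟨z, hz, hz0, hzk, hz1, hz2⟩ := h
  have hz1W : z (2 * k - 1) ∉ W := fun h' => Finset.disjoint_left.1 hXW hz1 h'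
  have hstep : ∃ i < 2 * k, z i ∈ W ∧ z (i + 1) ∈ W := by
    have hH : ∀ u v, (W₀ ⊔ bip G X).Adj u v → (u ∈ X ↔ v ∉ X) ∨ (u ∈ W ∧ v ∈ W) := by
      intro u v huv
      rcases huv with h' | h'
      · exact Or.inr (hW₀ u v h')
      · exact Or.inl h'.2
    rcases step_inside hH hz with h' | h'
    · exact h'
    · exact absurd (hzk ▸ h'.1) hy
  obtain ⟨i, hi, hiW, hiW'⟩ := hstep
  unfold RS
  rw [Finset.mem_filter, Finset.mem_filter]
  constructor
  · refine ⟨Finset.mem_univ _, fun j => z (2 * k - j), ?_, ?_, trivial, ?_, ?_, ?_, Or.inl ?_⟩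
    · show z (2 * k - 0) = y
      rw [Nat.sub_zero]; exact hzk
    · show z (2 * k - 2 * k) = x
      rw [Nat.sub_self]; exact hz0
    · intro j hj
      show (W₀ ⊔ bip G X).Adj (z (2 * k - j)) (z (2 * k - (j + 1)))
      have h1 := hz.1 (2 * k - (j + 1)) (by omega)
      rw [show 2 * k - (j + 1) + 1 = 2 * k - j by omega] at h1
      exact h1.symm
    · intro j hj j' hj' hjj
      have := hz.2.2 (2 * k - j) (by omega) (2 * k - j') (by omega) hjj
      omega
    · refine ⟨2 * k - (i + 1), by omega, ?_, ?_⟩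
      · show z (2 * k - (2 * k - (i + 1))) ∈ W
        rw [show 2 * k - (2 * k - (i + 1)) = i + 1 by omega]; exact hiW'
      · show z (2 * k - (2 * k - (i + 1) + 1)) ∈ W
        rw [show 2 * k - (2 * k - (i + 1) + 1) = i by omega]; exact hiW
    · exact hz1W
  · refine ⟨Finset.mem_univ _, z, hz0, hzk, trivial, hz.1, hz.2.2, ⟨i, hi, hiW, hiW'⟩,
      Or.inr ⟨hz2, hz1W, ?_⟩⟩
    rw [hzk]; exact hy

theorem dg_split {G G₁ G₂ : SimpleGraph V} {v : V} {S T : Finset V}
    (h : ∀ y ∈ S, G.Adj v y → G₁.Adj v y ∨ (G₂.Adj v y ∧ y ∈ T)) :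
    dg G v S ≤ dg G₁ v univ + dg G₂ v T := by
  classical
  unfold dg
  refine le_trans (Finset.card_le_card fun y hy => ?_) (Finset.card_union_le _ _)
  rw [Finset.mem_filter] at hy
  rw [Finset.mem_union, Finset.mem_filter, Finset.mem_filter]
  rcases h y hy.1 hy.2 with h' | h'
  · exact Or.inl ⟨Finset.mem_univ _, h'⟩
  · exact Or.inr ⟨h'.2, h'.1⟩

open scoped Classical in
theorem mem_Un {G : SimpleGraph V} {X W : Finset V} {w x : V} (h : x ∈ Un G X W w) :
    x ∈ X ∧ ∀ w' ∈ W, G.Adj x w' → w' = w := by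
  unfold Un at h
  exact Finset.mem_filter.1 h

end CA

open CA in
theorem clean_asm {V : Type*} [Fintype V] [DecidableEq V] (k : ℕ) (hk : 3 ≤ k)
    (W₀ G : SimpleGraph V) (X W : Finset V) (η D : ℝ) (hη : 0 ≤ η) (hD : 0 ≤ D)
    (hXW : Disjoint X W)
    (hW₀ : SuppOn W₀ W) (hfree : (SimpleGraph.cycleGraph (2 * k + 1)).Free W₀)
    (h : CleanOK W₀ G X W k η D) :
    ∃ G' : SimpleGraph V, G' ≤ bip G X ∧
      (SimpleGraph.cycleGraph (2 * k + 1)).Free (W₀ ⊔ G') ∧
      ∀ v, (1 / 2 - 2 * η) * D ≤ (dg (W₀ ⊔ G') v univ : ℝ) := by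
  set H : SimpleGraph V := W₀ ⊔ bip G X with hH
  set G' : SimpleGraph V := Gc H G X W k with hG'
  have hXW' : ∀ v, v ∈ X → v ∉ W := fun v h1 h2 => Finset.disjoint_left.1 hXW h1 h2
  have hle : G' ≤ bip G X := by
    intro u v huv
    rcases huv with h1 | h1
    · refine ⟨h1.2.1, ?_⟩
      have h2 : v ∉ X := by
        rcases h1.2.2 with h3 | h3
        · exact fun h4 => hXW' v h4 h3.1
        · exact h3.1
      exact ⟨fun _ => h2, fun _ => h1.1⟩
    · refine ⟨h1.2.1.symm, ?_⟩
      have h2 : u ∉ X := by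
        rcases h1.2.2 with h3 | h3
        · exact fun h4 => hXW' u h4 h3.1
        · exact h3.1
      exact ⟨fun h3 => absurd h3 h2, fun h3 => absurd h1.1 h3⟩
  refine ⟨G', hle, ?_, ?_⟩
  · -- freeness
    by_contra hnf
    obtain ⟨z, hz1, hz2, hz3⟩ := (not_free_iff (W₀ ⊔ G') k (by omega)).1 (fun hf => hf hnf)
    have hzc : CycSeq (W₀ ⊔ G') k z := ⟨hz1, hz2, hz3⟩
    have hedge : ∀ u v, (W₀ ⊔ G').Adj u v → (u ∈ X ↔ v ∉ X) ∨ (u ∈ W ∧ v ∈ W) := by
      intro u v huv
      rcases huv with h' | h'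
      · exact Or.inr (hW₀ u v h')
      · exact Or.inl (hle h').2
    -- some vertex is in W
    have hsome : ∃ i ≤ 2 * k, z i ∈ W := by
      rcases step_inside hedge hzc with ⟨i, hi, h1, _⟩ | ⟨_, h1⟩
      · exact ⟨i, by omega, h1⟩
      · exact ⟨0, by omega, h1⟩
    -- there is a step leaving W
    have hleave : ∃ i ≤ 2 * k, z i ∈ W ∧ z ((i + 1) % (2 * k + 1)) ∉ W := by
      by_contra hno
      push Not at hno
      obtain ⟨i₀, hi₀, hi₀W⟩ := hsome
      have hall : ∀ t, z ((i₀ + t) % (2 * k + 1)) ∈ W := by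
        intro t
        induction t with
        | zero =>
          rw [Nat.add_zero, Nat.mod_eq_of_lt (by omega)]
          exact hi₀W
        | succ t ih =>
          have h1 := hno ((i₀ + t) % (2 * k + 1))
            (Nat.lt_succ_iff.1 (Nat.mod_lt _ (by omega))) ih
          rw [Nat.mod_add_mod] at h1
          exact h1
      have hallW : ∀ j ≤ 2 * k, z j ∈ W := by
        intro j hj
        have h1 := hall (j + (2 * k + 1) - i₀)
        rw [show i₀ + (j + (2 * k + 1) - i₀) = j + (2 * k + 1) by omega, Nat.add_mod_right,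
          Nat.mod_eq_of_lt (by omega)] at h1
        exact h1
      have hW₀adj : ∀ u v, u ∈ W → v ∈ W → (W₀ ⊔ G').Adj u v → W₀.Adj u v := by
        intro u v hu hv huv
        rcases huv with h' | h'
        · exact h'
        · rcases h' with h' | h'
          · exact absurd hu (hXW' u h'.1)
          · exact absurd hv (hXW' v h'.1)
      have : ¬ (SimpleGraph.cycleGraph (2 * k + 1)).Free W₀ := by
        rw [not_free_iff _ _ (by omega)]
        exact ⟨z, fun i hi => hW₀adj _ _ (hallW i (by omega)) (hallW (i + 1) (by omega)) (hz1 i hi),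
          hW₀adj _ _ (hallW _ le_rfl) (hallW 0 (by omega)) hz2, hz3⟩
      exact this hfree
    obtain ⟨i, hi, hiW, hiW'⟩ := hleave
    obtain ⟨z', hz'def, hz'1, hz'2, hz'3⟩ :=
      seq_rotate (W₀ ⊔ G') k (by omega) z hz1 hz2 hz3 (i + 3)
    have e1 : z' (2 * k - 2) ∈ W := by
      rw [hz'def, show 2 * k - 2 + (i + 3) = i + (2 * k + 1) by omega, Nat.add_mod_right,
        Nat.mod_eq_of_lt (by omega)]
      exact hiW
    have e2 : z' (2 * k - 1) ∉ W := by
      rw [hz'def, show 2 * k - 1 + (i + 3) = (i + 1) + (2 * k + 1) by omega, Nat.add_mod_right]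
      exact hiW'
    have a1 := hz'1 (2 * k - 2) (by omega)
    rw [show 2 * k - 2 + 1 = 2 * k - 1 by omega] at a1
    have a2 := hz'1 (2 * k - 1) (by omega)
    rw [show 2 * k - 1 + 1 = 2 * k by omega] at a2
    -- the first edge
    have b1 : Rel H G X W k (z' (2 * k - 1)) (z' (2 * k - 2)) := by
      rcases a1 with h' | h'
      · exact absurd (hW₀ _ _ h').2 e2
      · rcases h' with h' | h'
        · exact absurd e1 (hXW' _ h'.1)
        · exact h'
    have c1 : z' (2 * k - 1) ∈ X := b1.1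
    have c2 : ∀ w' ∈ W, G.Adj (z' (2 * k - 1)) w' → w' = z' (2 * k - 2) := by
      rcases b1.2.2 with h' | h'
      · exact h'.2
      · exact absurd e1 h'.2.1
    -- the second edge
    have b2 : Rel H G X W k (z' (2 * k - 1)) (z' (2 * k)) := by
      rcases a2 with h' | h'
      · exact absurd (hW₀ _ _ h').1 e2
      · rcases h' with h' | h'
        · exact h'
        · rcases h'.2.2 with h'' | h''
          · exact absurd h''.1 e2
          · exact absurd c1 h''.1
    have c3 : z' (2 * k) ∉ X ∧ z' (2 * k) ∉ W := by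
      rcases b2.2.2 with h' | h'
      · have h3 := c2 _ h'.1 b2.2.1
        have := hz'3 (2 * k) le_rfl (2 * k - 2) (by omega) h3
        omega
      · exact ⟨h'.1, h'.2.1⟩
    -- the third edge was deleted
    have b3 : Rel H G X W k (z' 0) (z' (2 * k)) := by
      rcases hz'2 with h' | h'
      · exact absurd (hW₀ _ _ h').1 c3.2
      · rcases h' with h' | h'
        · exact absurd h'.1 c3.1
        · exact h'
    have hdel : Del H X W k (z' 0) (z' (2 * k)) := by
      have hmono : ∀ u v, (W₀ ⊔ G').Adj u v → H.Adj u v := by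
        intro u v huv
        rcases huv with h' | h'
        · exact Or.inl h'
        · exact Or.inr (hle h')
      exact ⟨z', ⟨fun j hj => hmono _ _ (hz'1 j hj), hmono _ _ hz'2, hz'3⟩, rfl, rfl, c1, e1⟩
    rcases b3.2.2 with h' | h'
    · exact c3.2 h'.1
    · exact h'.2.2 hdel
  · -- degrees
    intro v
    have hηD : 0 ≤ η * D := mul_nonneg hη hD
    have hηD2 : (1 / 2 - 2 * η) * D = (1 / 2 - η) * D - η * D := by ring
    by_cases hvW : v ∈ W
    · have h1 := h.degW v hvW
      have h2 : dg G v (Un G X W v) ≤ dg (W₀ ⊔ G') v univ + dg G v ∅ := by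
        refine dg_split fun y hy hadj => Or.inl ?_
        have hy' := mem_Un hy
        exact Or.inr (Or.inr ⟨hy'.1, hadj.symm, Or.inl ⟨hvW, hy'.2⟩⟩)
      have h3 : dg G v ∅ = 0 := by unfold dg; simp
      rw [h3, Nat.add_zero] at h2
      have h4 : (dg G v (Un G X W v) : ℝ) ≤ dg (W₀ ⊔ G') v univ := by exact_mod_cast h2
      rw [hηD2]
      linarith
    · have hloss := h.loss v hvW
      by_cases hvX : v ∈ X
      · have h1 := h.degX v hvX
        have h2 : dg G v (Xᶜ \ W) ≤ dg (W₀ ⊔ G') v univ +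
            dg (bip G X) v (RS W₀ (bip G X) W k (fun _ => True) v) := by
          refine dg_split fun y hy hadj => ?_
          rw [Finset.mem_sdiff, Finset.mem_compl] at hy
          by_cases hdel : Del H X W k v y
          · exact Or.inr ⟨⟨hadj, ⟨fun _ => hy.1, fun _ => hvX⟩⟩,
              (del_RS hXW hW₀ hy.2 hdel).2⟩
          · exact Or.inl (Or.inr (Or.inl ⟨hvX, hadj, Or.inr ⟨hy.1, hy.2, hdel⟩⟩))
        have h4 : (dg G v (Xᶜ \ W) : ℝ) ≤ dg (W₀ ⊔ G') v univ +
            dg (bip G X) v (RS W₀ (bip G X) W k (fun _ => True) v) := by exact_mod_cast h2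
        rw [hηD2]
        linarith
      · have h1 := h.degY v hvX hvW
        have h2 : dg G v X ≤ dg (W₀ ⊔ G') v univ +
            dg (bip G X) v (RS W₀ (bip G X) W k (fun _ => True) v) := by
          refine dg_split fun y hy hadj => ?_
          by_cases hdel : Del H X W k y v
          · exact Or.inr ⟨⟨hadj, ⟨fun h' => absurd h' hvX, fun h' => absurd hy h'⟩⟩,
              (del_RS hXW hW₀ hvW hdel).1⟩
          · exact Or.inl (Or.inr (Or.inr ⟨hy, hadj.symm, Or.inr ⟨hvX, hvW, hdel⟩⟩))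
        have h4 : (dg G v X : ℝ) ≤ dg (W₀ ⊔ G') v univ +
            dg (bip G X) v (RS W₀ (bip G X) W k (fun _ => True) v) := by exact_mod_cast h2
        rw [hηD2]
        linarith

end Pool.MP_1bacea_co
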