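import Pool.Agent.Lib.MP_1bacea_co.Low.LDefs

/-!
# Low/CleanCount : counting end points of dangerous paths (deterministic)

`B` has no edge inside `W`, `W₀` lives on `W`; a step `u i → u (i+1)` with both ends in `W` is a
`W₀`-step, all other steps are `B`-steps.
For `w ∈ W`, `i ≥ 0`: `Q i w` = set of `w' ∈ W` reachable by a path (injective sequence) with exactly
`i ≤ 2k` steps in `W₀ ⊔ B`, `Q1 i w` = the same with at least one `W₀`-step.  First return to `W`:
`Q i w ⊆ ⋃_{w' ∈ N_{W₀}(w)} Q (i-1) w' ∪ ⋃_{l=2}^{i} ⋃_{w' ∈ Ent B W (l-1) w} Q (i-l) w'`,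
`Q1 i w ⊆ ⋃_{w' ∈ N_{W₀}(w)} Q (i-1) w' ∪ ⋃_{l=2}^{i} ⋃_{w' ∈ Ent B W (l-1) w} Q1 (i-l) w'`.
By strong induction, with `Δ ≤ x`, `ν ≤ 1`:
`|Q i w| ≤ Δ^i + c_i x^{i-1} ν` (`i ≥ 1`; `|Q 0 w| ≤ 1`),
`|Q1 i w| ≤ Δ^i + c_i x^{i-2} ν Δ` (`i ≥ 2`), `|Q1 1 w| ≤ Δ`, `|Q1 0 w| = 0`.
(To avoid negative exponents multiply by `x`, `x^2`.)
Let `u` be a path as in `RS`, from `v ∉ W`.  Let `j+1` be the first index with `u (j+1) ∈ W`, and let
`j+1+i` be the last index in `W`, `l = 2k - (j+1) - i`.  Then `u (j+1) ∈ Ent B W j v` (`j ≥ 1`), or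
(`j = 0`) one of at most `K` neighbours of `v` in `W`; `u (j+1+i) ∈ Q1 i (u (j+1))`; `u (2k)` is one of
at most `x^l` end points of `B`-walks of length `l` from `u (j+1+i)`.
`j ≥ 1`: `∑ ν x^j (Δ^i + c x^{i-2} ν Δ) x^l ≤ Const ν Δ x^{2k-2}` (`i ≥ 1`, `j + i + l = 2k-1`).
`j = 0`: then `u 1 ∈ W`, so the end pattern holds and `l = 2`, `i = 2k-3`:
`K (Δ^{2k-3} + c x^{2k-5} ν Δ) x^2 ≤ Const K ν Δ x^{2k-3}` because `Δ^{2k-4} ≤ (x ν)^{k-2} ≤ x^{2k-5} ν`
(`Δ² ≤ x ν`, `k ≥ 3`, `ν ≤ 1 ≤ x`).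
-/

set_option autoImplicit false
set_option linter.unusedSectionVars false

open Finset

namespace Pool.MP_1bacea_co

section cc

variable {V : Type} [Fintype V] [DecidableEq V]

open scoped Classical in
/-- end points in `W` of paths with `i` steps from `w`; if `b` then some step is inside `W` -/
noncomputable def cc_Q (H : SimpleGraph V) (W : Finset V) (b : Bool) (i : ℕ) (w : V) : Finset V :=
  W.filter (fun y => ∃ u : ℕ → V, u 0 = w ∧ u i = y ∧ (∀ t < i, H.Adj (u t) (u (t + 1))) ∧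
    (∀ s ≤ i, ∀ t ≤ i, u s = u t → s = t) ∧ (b = true → ∃ t < i, u t ∈ W ∧ u (t + 1) ∈ W))

open scoped Classical in
/-- end points of walks with `l` steps -/
noncomputable def cc_E (B : SimpleGraph V) (l : ℕ) (z : V) : Finset V :=
  univ.filter (fun y => ∃ u : ℕ → V, u 0 = z ∧ u l = y ∧ ∀ t < l, B.Adj (u t) (u (t + 1)))

open scoped Classical in
/-- neighbours in a set -/
noncomputable def cc_N (G : SimpleGraph V) (v : V) (A : Finset V) : Finset V :=
  A.filter fun u => G.Adj v u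

theorem cc_N_card (G : SimpleGraph V) (v : V) (A : Finset V) : (cc_N G v A).card = dg G v A := rfl

theorem cc_biUnion {α : Type*} [DecidableEq α] (s : Finset V) (f : V → Finset α) (a b : ℝ)
    (ha : (s.card : ℝ) ≤ a) (hb0 : 0 ≤ b) (hb : ∀ v ∈ s, ((f v).card : ℝ) ≤ b) :
    ((s.biUnion f).card : ℝ) ≤ a * b := by
  calc ((s.biUnion f).card : ℝ) ≤ ((∑ v ∈ s, (f v).card : ℕ) : ℝ) := by
        exact_mod_cast card_biUnion_le
    _ = ∑ v ∈ s, ((f v).card : ℝ) := by push_cast; rfl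
    _ ≤ ∑ _v ∈ s, b := sum_le_sum hb
    _ = s.card * b := by rw [sum_const, nsmul_eq_mul]
    _ ≤ a * b := mul_le_mul_of_nonneg_right ha hb0

/-- the hypotheses -/
structure CC (W₀ B : SimpleGraph V) (W : Finset V) (x Δ ν : ℝ) (N : ℕ) : Prop where
  hx : 1 ≤ x
  hΔ : 1 ≤ Δ
  hν : 0 < ν
  hν1 : ν ≤ 1
  hΔν : Δ ^ 2 ≤ x * ν
  supp : SuppOn W₀ W
  hB : ∀ u ∈ W, ∀ v ∈ W, ¬ B.Adj u v
  degB : ∀ v, (dg B v univ : ℝ) ≤ x
  degW : ∀ v, (dg W₀ v univ : ℝ) ≤ Δ
  ent : ∀ v, ∀ j, 1 ≤ j → j ≤ N → ((Ent B W j v).card : ℝ) ≤ ν * x ^ j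

theorem CC.le {W₀ B : SimpleGraph V} {W : Finset V} {x Δ ν : ℝ} {N : ℕ}
    (h : CC W₀ B W x Δ ν N) : Δ ≤ x := by
  have h1 := h.hΔ
  have h2 := h.hΔν
  have h3 := h.hν1
  have h4 := h.hx
  nlinarith

theorem cc_step {W₀ B : SimpleGraph V} {W : Finset V} {x Δ ν : ℝ} {N : ℕ}
    (h : CC W₀ B W x Δ ν N) {a b : V} (hab : (W₀ ⊔ B).Adj a b) (hn : ¬ (a ∈ W ∧ b ∈ W)) :
    B.Adj a b := by
  rcases hab with hab | hab
  · exact absurd (h.supp a b hab) hn
  · exact hab

/-- the first return decomposition -/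
theorem cc_dec {W₀ B : SimpleGraph V} {W : Finset V} {x Δ ν : ℝ} {N : ℕ}
    (h : CC W₀ B W x Δ ν N) (b : Bool) (i : ℕ) (w : V) (hw : w ∈ W) :
    cc_Q (W₀ ⊔ B) W b (i + 1) w ⊆
      (cc_N W₀ w univ).biUnion (fun w' => cc_Q (W₀ ⊔ B) W false i w') ∪
      (range i).biUnion (fun a => (Ent B W (a + 1) w).biUnion
        (fun w' => cc_Q (W₀ ⊔ B) W b (i - 1 - a) w')) := by
  classical
  intro y hy
  simp only [cc_Q, mem_filter] at hy
  obtain ⟨hyW, u, hu0, hui, hadj, hinj, hb⟩ := hy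
  have hex : ∃ l, 1 ≤ l ∧ u l ∈ W := ⟨i + 1, by omega, by rw [hui]; exact hyW⟩
  obtain ⟨l, ⟨hl1, hlW⟩, hmin⟩ : ∃ l, (1 ≤ l ∧ u l ∈ W) ∧ ∀ t, t < l → ¬ (1 ≤ t ∧ u t ∈ W) :=
    ⟨Nat.find hex, Nat.find_spec hex, fun t ht => Nat.find_min hex ht⟩
  have hli : l ≤ i + 1 := by
    by_contra hcon
    exact hmin (i + 1) (by omega) ⟨by omega, by rw [hui]; exact hyW⟩
  rw [mem_union]
  by_cases hl : l = 1
  · left
    rw [mem_biUnion]
    refine ⟨u 1, ?_, ?_⟩
    · simp only [cc_N, mem_filter, mem_univ, true_and]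
      have h1 : (W₀ ⊔ B).Adj w (u 1) := by
        have := hadj 0 (by omega)
        rwa [hu0] at this
      rw [hl] at hlW
      rcases h1 with h1 | h1
      · exact h1
      · exact absurd h1 (h.hB _ hw _ hlW)
    · simp only [cc_Q, mem_filter]
      refine ⟨hyW, fun t => u (t + 1), rfl, hui, fun t ht => hadj (t + 1) (by omega),
        fun s hs t ht hst => ?_, fun h => absurd h (by simp)⟩
      have := hinj (s + 1) (by omega) (t + 1) (by omega) hst
      omega
  · right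
    rw [mem_biUnion]
    refine ⟨l - 2, by rw [mem_range]; omega, ?_⟩
    rw [mem_biUnion]
    have e : l - 2 + 1 + 1 = l := by omega
    refine ⟨u l, ?_, ?_⟩
    · simp only [Ent, mem_filter]
      refine ⟨hlW, ?_, u, hu0, by rw [e], fun t ht1 ht2 htW => hmin t (by omega) ⟨ht1, htW⟩,
        fun t ht => ?_⟩
      · intro hcon
        have := hinj l hli 0 (by omega) (hcon.trans hu0.symm)
        omega
      · refine cc_step h (hadj t (by omega)) ?_
        rintro ⟨h1, h2⟩
        by_cases ht0 : t = 0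
        · subst ht0
          exact hmin 1 (by omega) ⟨le_rfl, h2⟩
        · exact hmin t (by omega) ⟨by omega, h1⟩
    · simp only [cc_Q, mem_filter]
      have e2 : l + (i - 1 - (l - 2)) = i + 1 := by omega
      refine ⟨hyW, fun t => u (l + t), rfl, by beta_reduce; rw [e2]; exact hui,
        fun t ht => hadj (l + t) (by omega), fun s hs t ht hst => ?_, fun hbt => ?_⟩
      · have := hinj (l + s) (by omega) (l + t) (by omega) hst
        omega
      · obtain ⟨t, ht, h1, h2⟩ := hb hbt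
        have htl : l ≤ t := by
          by_contra hcon
          by_cases ht0 : t = 0
          · subst ht0
            exact hmin 1 (by omega) ⟨le_rfl, h2⟩
          · exact hmin t (by omega) ⟨by omega, h1⟩
        refine ⟨t - l, by omega, ?_, ?_⟩
        · have e3 : l + (t - l) = t := by omega
          beta_reduce
          rw [e3]
          exact h1
        · have e3 : l + (t - l + 1) = t + 1 := by omega
          beta_reduce
          rw [e3]
          exact h2

theorem cc_rec {W₀ B : SimpleGraph V} {W : Finset V} {x Δ ν : ℝ} {N : ℕ}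
    (h : CC W₀ B W x Δ ν N) (b : Bool) (i : ℕ) (hi : i ≤ N) (w : V) (hw : w ∈ W)
    (M : ℝ) (hM0 : 0 ≤ M) (hM : ∀ w' ∈ W, ((cc_Q (W₀ ⊔ B) W false i w').card : ℝ) ≤ M)
    (R : ℕ → ℝ) (hR0 : ∀ j, 0 ≤ R j)
    (hR : ∀ j < i, ∀ w' ∈ W, ((cc_Q (W₀ ⊔ B) W b j w').card : ℝ) ≤ R j) :
    ((cc_Q (W₀ ⊔ B) W b (i + 1) w).card : ℝ) ≤
      Δ * M + ∑ a ∈ range i, ν * x ^ (a + 1) * R (i - 1 - a) := by
  have h1 := card_le_card (cc_dec h b i w hw)
  have h2 := h1.trans (card_union_le _ _)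
  have h3 : ((cc_Q (W₀ ⊔ B) W b (i + 1) w).card : ℝ) ≤
      (((cc_N W₀ w univ).biUnion (fun w' => cc_Q (W₀ ⊔ B) W false i w')).card : ℝ) +
      (((range i).biUnion (fun a => (Ent B W (a + 1) w).biUnion
        (fun w' => cc_Q (W₀ ⊔ B) W b (i - 1 - a) w'))).card : ℝ) := by
    exact_mod_cast h2
  refine h3.trans (add_le_add ?_ ?_)
  · refine cc_biUnion _ _ Δ M ?_ hM0 fun v hv => hM v ?_
    · rw [cc_N_card]
      exact h.degW w
    · simp only [cc_N, mem_filter, mem_univ, true_and] at hv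
      exact (h.supp _ _ hv).2
  · calc (((range i).biUnion (fun a => (Ent B W (a + 1) w).biUnion
        (fun w' => cc_Q (W₀ ⊔ B) W b (i - 1 - a) w'))).card : ℝ)
        ≤ ((∑ a ∈ range i, ((Ent B W (a + 1) w).biUnion
            (fun w' => cc_Q (W₀ ⊔ B) W b (i - 1 - a) w')).card : ℕ) : ℝ) := by
          exact_mod_cast card_biUnion_le
      _ = ∑ a ∈ range i, (((Ent B W (a + 1) w).biUnion
            (fun w' => cc_Q (W₀ ⊔ B) W b (i - 1 - a) w')).card : ℝ) := by
          push_cast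
          rfl
      _ ≤ ∑ a ∈ range i, ν * x ^ (a + 1) * R (i - 1 - a) := by
          refine sum_le_sum fun a ha => ?_
          rw [mem_range] at ha
          refine cc_biUnion _ _ _ _ (h.ent w (a + 1) (by omega) (by omega)) (hR0 _)
            fun w' hw' => hR _ (by omega) w' ?_
          simp only [Ent, mem_filter] at hw'
          exact hw'.1

/-- all paths -/
theorem cc_bound0 (N : ℕ) : ∃ c : ℝ, 0 ≤ c ∧ ∀ {V : Type} [Fintype V] [DecidableEq V]
    (W₀ B : SimpleGraph V) (W : Finset V) (x Δ ν : ℝ), CC W₀ B W x Δ ν N →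
    ∀ i ≤ N, ∀ w ∈ W, ((cc_Q (W₀ ⊔ B) W false i w).card : ℝ) ≤ Δ ^ i + c * x ^ i * ν / x := by
  suffices hs : ∀ m : ℕ, ∃ c : ℝ, 0 ≤ c ∧ ∀ {V : Type} [Fintype V] [DecidableEq V]
      (W₀ B : SimpleGraph V) (W : Finset V) (x Δ ν : ℝ), CC W₀ B W x Δ ν N →
      ∀ i ≤ m, i ≤ N → ∀ w ∈ W,
        ((cc_Q (W₀ ⊔ B) W false i w).card : ℝ) ≤ Δ ^ i + c * x ^ i * ν / x by
    obtain ⟨c, hc, H⟩ := hs N
    exact ⟨c, hc, fun W₀ B W x Δ ν h i hi => H W₀ B W x Δ ν h i hi hi⟩
  intro m
  induction m with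
  | zero =>
    refine ⟨0, le_rfl, ?_⟩
    intro V _ _ W₀ B W x Δ ν h i hi _ w hw
    have hi0 : i = 0 := by omega
    subst hi0
    have : cc_Q (W₀ ⊔ B) W false 0 w ⊆ {w} := by
      intro y hy
      simp only [cc_Q, mem_filter] at hy
      obtain ⟨-, u, h0, h1, -⟩ := hy
      rw [mem_singleton, ← h0, ← h1]
    have h1 := card_le_card this
    rw [card_singleton] at h1
    simp only [pow_zero, zero_mul, zero_div, add_zero]
    exact_mod_cast h1
  | succ m ih =>
    obtain ⟨c, hc, H⟩ := ih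
    refine ⟨c + m * (1 + c), by positivity, ?_⟩
    intro V _ _ W₀ B W x Δ ν h i hi hiN w hw
    have hx := h.hx
    have hΔ := h.hΔ
    have hν := h.hν
    have hν1 := h.hν1
    have hΔx := h.le
    have hx0 : 0 < x := by linarith
    by_cases him : i ≤ m
    · refine (H W₀ B W x Δ ν h i him hiN w hw).trans ?_
      gcongr
      have : (0 : ℝ) ≤ m * (1 + c) := by positivity
      linarith
    · have him' : i = m + 1 := by omega
      subst him'
      have hrec := cc_rec h false m (by omega) w hw (Δ ^ m + c * x ^ m * ν / x) (by positivity)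
        (H W₀ B W x Δ ν h m le_rfl (by omega)) (fun j => Δ ^ j + c * x ^ j * ν / x)
        (fun j => by positivity) (fun j hj => H W₀ B W x Δ ν h j (by omega) (by omega))
      refine hrec.trans ?_
      have h1 : Δ * (Δ ^ m + c * x ^ m * ν / x) ≤ Δ ^ (m + 1) + c * x ^ m * ν := by
        have : Δ * (c * x ^ m * ν / x) ≤ c * x ^ m * ν := by
          rw [mul_div_assoc', div_le_iff₀ hx0]
          have : 0 ≤ c * x ^ m * ν := by positivity
          nlinarith
        calc Δ * (Δ ^ m + c * x ^ m * ν / x) = Δ ^ (m + 1) + Δ * (c * x ^ m * ν / x) := by ring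
          _ ≤ _ := by linarith
      have h2 : ∑ a ∈ range m, ν * x ^ (a + 1) * (Δ ^ (m - 1 - a) + c * x ^ (m - 1 - a) * ν / x) ≤
          ∑ _a ∈ range m, (1 + c) * (x ^ m * ν) := by
        refine sum_le_sum fun a ha => ?_
        rw [mem_range] at ha
        have e : x ^ (a + 1) * x ^ (m - 1 - a) = x ^ m := by
          rw [← pow_add]
          congr 1
          omega
        have h3 : ν * x ^ (a + 1) * Δ ^ (m - 1 - a) ≤ x ^ m * ν := by
          calc ν * x ^ (a + 1) * Δ ^ (m - 1 - a) ≤ ν * x ^ (a + 1) * x ^ (m - 1 - a) := by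
                gcongr
            _ = ν * (x ^ (a + 1) * x ^ (m - 1 - a)) := by ring
            _ = x ^ m * ν := by rw [e]; ring
        have h4 : ν * x ^ (a + 1) * (c * x ^ (m - 1 - a) * ν / x) ≤ c * (x ^ m * ν) := by
          have e2 : ν * x ^ (a + 1) * (c * x ^ (m - 1 - a) * ν / x) =
              c * (x ^ m * ν) * (ν / x) := by
            rw [← e]
            ring
          rw [e2]
          have h5 : ν / x ≤ 1 := by
            rw [div_le_one hx0]
            linarith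
          exact mul_le_of_le_one_right (by positivity) h5
        calc _ = ν * x ^ (a + 1) * Δ ^ (m - 1 - a) +
              ν * x ^ (a + 1) * (c * x ^ (m - 1 - a) * ν / x) := by ring
          _ ≤ x ^ m * ν + c * (x ^ m * ν) := add_le_add h3 h4
          _ = _ := by ring
      rw [sum_const, card_range, nsmul_eq_mul] at h2
      have e3 : (c + m * (1 + c)) * x ^ (m + 1) * ν / x = c * x ^ m * ν +
          m * ((1 + c) * (x ^ m * ν)) := by
        field_simp
        ring
      rw [e3]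
      linarith

/-- paths with a step inside `W` -/
theorem cc_bound1 (N : ℕ) : ∃ c : ℝ, 0 ≤ c ∧ ∀ {V : Type} [Fintype V] [DecidableEq V]
    (W₀ B : SimpleGraph V) (W : Finset V) (x Δ ν : ℝ), CC W₀ B W x Δ ν N →
    ∀ i, 1 ≤ i → i ≤ N → ∀ w ∈ W,
      ((cc_Q (W₀ ⊔ B) W true i w).card : ℝ) ≤ Δ ^ i + c * x ^ i * ν * Δ / x ^ 2 := by
  obtain ⟨c₀, hc₀, H₀⟩ := cc_bound0 N
  suffices hs : ∀ m : ℕ, ∃ c : ℝ, c₀ ≤ c ∧ ∀ {V : Type} [Fintype V] [DecidableEq V]
      (W₀ B : SimpleGraph V) (W : Finset V) (x Δ ν : ℝ), CC W₀ B W x Δ ν N →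
      ∀ i ≤ m, i ≤ N → ∀ w ∈ W, ((cc_Q (W₀ ⊔ B) W true i w).card : ℝ) ≤
        if i = 0 then 0 else Δ ^ i + c * x ^ i * ν * Δ / x ^ 2 by
    obtain ⟨c, hc, H⟩ := hs N
    refine ⟨c, hc₀.trans hc, fun W₀ B W x Δ ν h i hi1 hi w hw => ?_⟩
    have := H W₀ B W x Δ ν h i hi hi w hw
    rwa [if_neg (by omega)] at this
  intro m
  induction m with
  | zero =>
    refine ⟨c₀, le_rfl, ?_⟩
    intro V _ _ W₀ B W x Δ ν h i hi _ w hw
    have hi0 : i = 0 := by omega
    subst hi0
    rw [if_pos rfl]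
    have : cc_Q (W₀ ⊔ B) W true 0 w ⊆ ∅ := by
      intro y hy
      simp only [cc_Q, mem_filter] at hy
      obtain ⟨-, u, -, -, -, -, hb⟩ := hy
      obtain ⟨t, ht, -⟩ := hb trivial
      omega
    have h1 := card_le_card this
    rw [card_empty] at h1
    exact_mod_cast h1
  | succ m ih =>
    obtain ⟨c, hcc, H⟩ := ih
    have hc : 0 ≤ c := hc₀.trans hcc
    refine ⟨c + m * (1 + c), ?_, ?_⟩
    · have : (0 : ℝ) ≤ m * (1 + c) := by positivity
      linarith
    intro V _ _ W₀ B W x Δ ν h i hi hiN w hw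
    have hx := h.hx
    have hΔ := h.hΔ
    have hν := h.hν
    have hν1 := h.hν1
    have hΔx := h.le
    have hx0 : 0 < x := by linarith
    have hΔ0 : 0 < Δ := by linarith
    by_cases him : i ≤ m
    · refine (H W₀ B W x Δ ν h i him hiN w hw).trans ?_
      split_ifs
      · exact le_rfl
      · gcongr
        have : (0 : ℝ) ≤ m * (1 + c) := by positivity
        linarith
    · have him' : i = m + 1 := by omega
      subst him'
      rw [if_neg (by omega)]
      have hrec := cc_rec h true m (by omega) w hw (Δ ^ m + c₀ * x ^ m * ν / x) (by positivity)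
        (H₀ W₀ B W x Δ ν h m (by omega))
        (fun j => if j = 0 then 0 else Δ ^ j + c * x ^ j * ν * Δ / x ^ 2)
        (fun j => by split_ifs <;> positivity)
        (fun j hj => H W₀ B W x Δ ν h j (by omega) (by omega))
      refine hrec.trans ?_
      have h1 : Δ * (Δ ^ m + c₀ * x ^ m * ν / x) ≤
          Δ ^ (m + 1) + c * (x ^ (m + 1) * ν * Δ / x ^ 2) := by
        have e : Δ * (c₀ * x ^ m * ν / x) = c₀ * (x ^ (m + 1) * ν * Δ / x ^ 2) := by
          field_simp
          ring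
        calc Δ * (Δ ^ m + c₀ * x ^ m * ν / x) = Δ ^ (m + 1) + Δ * (c₀ * x ^ m * ν / x) := by ring
          _ = Δ ^ (m + 1) + c₀ * (x ^ (m + 1) * ν * Δ / x ^ 2) := by rw [e]
          _ ≤ _ := by gcongr
      have h2 : ∑ a ∈ range m, ν * x ^ (a + 1) * (if m - 1 - a = 0 then 0 else
            Δ ^ (m - 1 - a) + c * x ^ (m - 1 - a) * ν * Δ / x ^ 2) ≤
          ∑ _a ∈ range m, (1 + c) * (x ^ (m + 1) * ν * Δ / x ^ 2) := by
        refine sum_le_sum fun a ha => ?_
        rw [mem_range] at ha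
        by_cases hj : m - 1 - a = 0
        · rw [if_pos hj, mul_zero]
          positivity
        rw [if_neg hj]
        obtain ⟨j, hj'⟩ : ∃ j, m - 1 - a = j + 1 := ⟨m - 1 - a - 1, by omega⟩
        rw [hj']
        have e : x ^ (m + 1) = x ^ (a + 1) * x ^ j * x ^ 2 := by
          rw [← pow_add, ← pow_add]
          congr 1
          omega
        rw [e]
        have e1 : x ^ (a + 1) * x ^ j * x ^ 2 * ν * Δ / x ^ 2 = x ^ (a + 1) * x ^ j * ν * Δ := by
          field_simp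
        rw [e1]
        have h3 : ν * x ^ (a + 1) * Δ ^ (j + 1) ≤ x ^ (a + 1) * x ^ j * ν * Δ := by
          calc ν * x ^ (a + 1) * Δ ^ (j + 1) = ν * x ^ (a + 1) * (Δ ^ j * Δ) := by ring
            _ ≤ ν * x ^ (a + 1) * (x ^ j * Δ) := by gcongr
            _ = _ := by ring
        have h4 : ν * x ^ (a + 1) * (c * x ^ (j + 1) * ν * Δ / x ^ 2) ≤
            c * (x ^ (a + 1) * x ^ j * ν * Δ) := by
          have e2 : ν * x ^ (a + 1) * (c * x ^ (j + 1) * ν * Δ / x ^ 2) =
              c * (x ^ (a + 1) * x ^ j * ν * Δ) * (ν / x) := by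
            field_simp
            ring
          rw [e2]
          have h5 : ν / x ≤ 1 := by
            rw [div_le_one hx0]
            linarith
          exact mul_le_of_le_one_right (by positivity) h5
        calc _ = ν * x ^ (a + 1) * Δ ^ (j + 1) +
              ν * x ^ (a + 1) * (c * x ^ (j + 1) * ν * Δ / x ^ 2) := by ring
          _ ≤ x ^ (a + 1) * x ^ j * ν * Δ + c * (x ^ (a + 1) * x ^ j * ν * Δ) := add_le_add h3 h4
          _ = _ := by ring
      rw [sum_const, card_range, nsmul_eq_mul] at h2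
      have e3 : (c + m * (1 + c)) * x ^ (m + 1) * ν * Δ / x ^ 2 =
          c * (x ^ (m + 1) * ν * Δ / x ^ 2) +
          m * ((1 + c) * (x ^ (m + 1) * ν * Δ / x ^ 2)) := by
        ring
      rw [e3]
      linarith

theorem cc_E_card {B : SimpleGraph V} {x : ℝ} (hx : 1 ≤ x) (hB : ∀ v, (dg B v univ : ℝ) ≤ x)
    (l : ℕ) : ∀ z, ((cc_E B l z).card : ℝ) ≤ x ^ l := by
  classical
  induction l with
  | zero =>
    intro z
    have : cc_E B 0 z ⊆ {z} := by
      intro y hy
      simp only [cc_E, mem_filter] at hy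
      obtain ⟨-, u, h0, h1, -⟩ := hy
      rw [mem_singleton, ← h0, ← h1]
    have h1 := card_le_card this
    rw [card_singleton] at h1
    rw [pow_zero]
    exact_mod_cast h1
  | succ l ih =>
    intro z
    have : cc_E B (l + 1) z ⊆ (cc_N B z univ).biUnion (fun z' => cc_E B l z') := by
      intro y hy
      simp only [cc_E, mem_filter, mem_univ, true_and] at hy
      obtain ⟨u, h0, h1, h2⟩ := hy
      rw [mem_biUnion]
      refine ⟨u 1, ?_, ?_⟩
      · simp only [cc_N, mem_filter, mem_univ, true_and]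
        rw [← h0]
        exact h2 0 (by omega)
      · simp only [cc_E, mem_filter, mem_univ, true_and]
        exact ⟨fun t => u (t + 1), rfl, h1, fun t ht => h2 (t + 1) (by omega)⟩
    have h1 : ((cc_E B (l + 1) z).card : ℝ) ≤
        (((cc_N B z univ).biUnion (fun z' => cc_E B l z')).card : ℝ) := by
      exact_mod_cast card_le_card this
    refine h1.trans ?_
    rw [pow_succ, mul_comm]
    refine cc_biUnion _ _ x (x ^ l) ?_ (by positivity) fun v _ => ih v
    rw [cc_N_card]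
    exact hB z

/-- decomposition of the dangerous paths -/
theorem cc_RS {W₀ B : SimpleGraph V} {W : Finset V} {x Δ ν : ℝ} {k : ℕ}
    (h : CC W₀ B W x Δ ν (2 * k)) (v : V) (hv : v ∉ W) :
    RS W₀ B W k (fun _ => True) v ⊆
      ((range (2 * k) ×ˢ range (2 * k)).filter (fun q => 1 ≤ q.1 ∧ 1 ≤ q.2 ∧
        q.1 + 1 + q.2 ≤ 2 * k)).biUnion (fun q => (Ent B W q.1 v).biUnion
          (fun w => (cc_Q (W₀ ⊔ B) W true q.2 w).biUnion
            (fun w' => cc_E B (2 * k - (q.1 + 1 + q.2)) w'))) ∪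
      (cc_N B v W).biUnion (fun w => (cc_Q (W₀ ⊔ B) W true (2 * k - 3) w).biUnion
            (fun w' => cc_E B 2 w')) := by
  classical
  intro y hy
  simp only [RS, mem_filter, mem_univ, true_and] at hy
  obtain ⟨u, hu0, huk, hadj, hinj, ⟨t₀, ht₀, ht₀1, ht₀2⟩, hpat⟩ := hy
  have hex : ∃ l, u l ∈ W := ⟨t₀, ht₀1⟩
  obtain ⟨l, hlW, hmin⟩ : ∃ l, u l ∈ W ∧ ∀ t, t < l → u t ∉ W :=
    ⟨Nat.find hex, Nat.find_spec hex, fun t ht => Nat.find_min hex ht⟩
  have hl0 : l ≠ 0 := by
    rintro rfl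
    rw [hu0] at hlW
    exact hv hlW
  have hlt₀ : l ≤ t₀ := by
    by_contra hcon
    exact hmin t₀ (by omega) ht₀1
  -- the last index in `W`
  obtain ⟨T, hTk, hTW, hT⟩ : ∃ T, T ≤ 2 * k ∧ u T ∈ W ∧ ∀ t, T < t → t ≤ 2 * k → u t ∉ W := by
    have hS : ((range (2 * k + 1)).filter (fun t => u t ∈ W)).Nonempty :=
      ⟨t₀, by rw [mem_filter, mem_range]; exact ⟨by omega, ht₀1⟩⟩
    refine ⟨((range (2 * k + 1)).filter (fun t => u t ∈ W)).max' hS, ?_, ?_, ?_⟩
    · have := max'_mem _ hS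
      rw [mem_filter, mem_range] at this
      omega
    · have := max'_mem _ hS
      rw [mem_filter] at this
      exact this.2
    · intro t ht1 ht2 htW
      have := le_max' ((range (2 * k + 1)).filter (fun t => u t ∈ W)) t
        (by rw [mem_filter, mem_range]; exact ⟨by omega, htW⟩)
      omega
  have hTt₀ : t₀ + 1 ≤ T := by
    by_contra hcon
    exact hT (t₀ + 1) (by omega) (by omega) ht₀2
  -- the middle part
  have hmid : u T ∈ cc_Q (W₀ ⊔ B) W true (T - l) (u l) := by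
    simp only [cc_Q, mem_filter]
    refine ⟨hTW, fun t => u (l + t), rfl, ?_, fun t ht => hadj (l + t) (by omega),
      fun s hs t ht hst => ?_, fun _ => ⟨t₀ - l, by omega, ?_, ?_⟩⟩
    · have e : l + (T - l) = T := by omega
      beta_reduce
      rw [e]
    · have := hinj (l + s) (by omega) (l + t) (by omega) hst
      omega
    · have e : l + (t₀ - l) = t₀ := by omega
      beta_reduce
      rw [e]
      exact ht₀1
    · have e : l + (t₀ - l + 1) = t₀ + 1 := by omega
      beta_reduce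
      rw [e]
      exact ht₀2
  have hend : y ∈ cc_E B (2 * k - T) (u T) := by
    simp only [cc_E, mem_filter, mem_univ, true_and]
    refine ⟨fun t => u (T + t), rfl, ?_, fun t ht => ?_⟩
    · have e : T + (2 * k - T) = 2 * k := by omega
      beta_reduce
      rw [e]
      exact huk
    · exact cc_step h (hadj (T + t) (by omega))
        fun hcon => hT (T + t + 1) (by omega) (by omega) hcon.2
  rw [mem_union]
  by_cases hl1 : l = 1
  · right
    subst hl1
    have hp : u (2 * k - 2) ∈ W ∧ u (2 * k - 1) ∉ W ∧ u (2 * k) ∉ W := by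
      rcases hpat with hp | hp
      · exact absurd hlW hp
      · exact hp
    have hTe : T = 2 * k - 2 := by
      have h1 : ¬ (T < 2 * k - 2) := fun hcon => hT _ hcon (by omega) hp.1
      have h2 : T ≠ 2 * k - 1 := fun hcon => hp.2.1 (hcon ▸ hTW)
      have h3 : T ≠ 2 * k := fun hcon => hp.2.2 (hcon ▸ hTW)
      omega
    rw [mem_biUnion]
    refine ⟨u 1, ?_, ?_⟩
    · simp only [cc_N, mem_filter]
      refine ⟨hlW, ?_⟩
      rw [← hu0]
      exact cc_step h (hadj 0 (by omega)) fun hcon => by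
        rw [hu0] at hcon
        exact hv hcon.1
    · rw [mem_biUnion]
      refine ⟨u T, ?_, ?_⟩
      · have e : 2 * k - 3 = T - 1 := by omega
        rw [e]
        exact hmid
      · have e : 2 = 2 * k - T := by omega
        rw [e]
        exact hend
  · left
    rw [mem_biUnion]
    refine ⟨(l - 1, T - l), ?_, ?_⟩
    · simp only [mem_filter, mem_product, mem_range]
      omega
    · rw [mem_biUnion]
      refine ⟨u l, ?_, ?_⟩
      · have e : l - 1 + 1 = l := by omega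
        simp only [Ent, mem_filter]
        refine ⟨hlW, fun hcon => hv (hcon ▸ hlW), u, hu0, by rw [e],
          fun t _ ht2 => hmin t (by omega), fun t ht => ?_⟩
        exact cc_step h (hadj t (by omega)) fun hcon => hmin t (by omega) hcon.1
      · rw [mem_biUnion]
        refine ⟨u T, hmid, ?_⟩
        have e : 2 * k - (l - 1 + 1 + (T - l)) = 2 * k - T := by omega
        simp only [e]
        exact hend

end cc

theorem clean_count (k : ℕ) (hk : 3 ≤ k) :
    ∃ c : ℝ, 0 < c ∧ ∀ {V : Type} [Fintype V] [DecidableEq V] (W₀ B : SimpleGraph V)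
      (W : Finset V) (x Δ ν K : ℝ), 1 ≤ x → 1 ≤ Δ → 0 < ν → ν ≤ 1 → 1 ≤ K → Δ ^ 2 ≤ x * ν →
      SuppOn W₀ W → (∀ u ∈ W, ∀ v ∈ W, ¬ B.Adj u v) →
      (∀ v, (dg B v univ : ℝ) ≤ x) → (∀ v, (dg W₀ v univ : ℝ) ≤ Δ) →
      (∀ v, ∀ j, 1 ≤ j → j ≤ 2 * k → ((Ent B W j v).card : ℝ) ≤ ν * x ^ j) →
      (∀ v, v ∉ W → (dg B v W : ℝ) ≤ K) →
      ∀ v, v ∉ W → ((RS W₀ B W k (fun _ => True) v).card : ℝ) ≤
        c * K * ν * Δ * x ^ (2 * k - 2) := by
  obtain ⟨c, hc, H⟩ := cc_bound1 (2 * k)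
  refine ⟨((2 * k) * (2 * k) + 1 : ℕ) * (1 + c), by positivity, ?_⟩
  intro V _ _ W₀ B W x Δ ν K hx hΔ hν hν1 hK hΔν hsupp hB hdB hdW hent hBK v hv
  have h : CC W₀ B W x Δ ν (2 * k) := ⟨hx, hΔ, hν, hν1, hΔν, hsupp, hB, hdB, hdW, hent⟩
  have hΔx := h.le
  have hx0 : 0 < x := by linarith
  have hΔ0 : 0 < Δ := by linarith
  have hK0 : 0 < K := by linarith
  set Z : ℝ := ν * Δ * x ^ (2 * k - 2) with hZ
  have hZ0 : 0 ≤ Z := by positivity
  have h1 := (card_le_card (cc_RS h v hv)).trans (card_union_le _ _)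
  have h2 : ((RS W₀ B W k (fun _ => True) v).card : ℝ) ≤
      ((((range (2 * k) ×ˢ range (2 * k)).filter (fun q => 1 ≤ q.1 ∧ 1 ≤ q.2 ∧
        q.1 + 1 + q.2 ≤ 2 * k)).biUnion (fun q => (Ent B W q.1 v).biUnion
          (fun w => (cc_Q (W₀ ⊔ B) W true q.2 w).biUnion
            (fun w' => cc_E B (2 * k - (q.1 + 1 + q.2)) w')))).card : ℝ) +
      (((cc_N B v W).biUnion (fun w => (cc_Q (W₀ ⊔ B) W true (2 * k - 3) w).biUnion
            (fun w' => cc_E B 2 w'))).card : ℝ) := by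
    exact_mod_cast h1
  have h3 : ((((range (2 * k) ×ˢ range (2 * k)).filter (fun q => 1 ≤ q.1 ∧ 1 ≤ q.2 ∧
        q.1 + 1 + q.2 ≤ 2 * k)).biUnion (fun q => (Ent B W q.1 v).biUnion
          (fun w => (cc_Q (W₀ ⊔ B) W true q.2 w).biUnion
            (fun w' => cc_E B (2 * k - (q.1 + 1 + q.2)) w')))).card : ℝ) ≤
      ((2 * k) * (2 * k) : ℕ) * ((1 + c) * Z) := by
    calc _ ≤ ((∑ q ∈ (range (2 * k) ×ˢ range (2 * k)).filter (fun q => 1 ≤ q.1 ∧ 1 ≤ q.2 ∧
          q.1 + 1 + q.2 ≤ 2 * k), ((Ent B W q.1 v).biUnion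
          (fun w => (cc_Q (W₀ ⊔ B) W true q.2 w).biUnion
            (fun w' => cc_E B (2 * k - (q.1 + 1 + q.2)) w'))).card : ℕ) : ℝ) := by
          exact_mod_cast card_biUnion_le
      _ = ∑ q ∈ (range (2 * k) ×ˢ range (2 * k)).filter (fun q => 1 ≤ q.1 ∧ 1 ≤ q.2 ∧
          q.1 + 1 + q.2 ≤ 2 * k), (((Ent B W q.1 v).biUnion
          (fun w => (cc_Q (W₀ ⊔ B) W true q.2 w).biUnion
            (fun w' => cc_E B (2 * k - (q.1 + 1 + q.2)) w'))).card : ℝ) := by
          push_cast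
          rfl
      _ ≤ ∑ _q ∈ (range (2 * k) ×ˢ range (2 * k)).filter (fun q => 1 ≤ q.1 ∧ 1 ≤ q.2 ∧
          q.1 + 1 + q.2 ≤ 2 * k), (1 + c) * Z := by
          refine sum_le_sum fun q hq => ?_
          obtain ⟨j, i⟩ := q
          simp only [mem_filter, mem_product, mem_range] at hq
          obtain ⟨-, hj1, hi1, hji⟩ := hq
          obtain ⟨i, rfl⟩ : ∃ i', i = i' + 1 := ⟨i - 1, by omega⟩
          have hQ : ∀ w ∈ W, ((cc_Q (W₀ ⊔ B) W true (i + 1) w).card : ℝ) ≤
              (1 + c) * (Δ * x ^ i) := by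
            intro w hw
            refine (H W₀ B W x Δ ν h (i + 1) (by omega) (by omega) w hw).trans ?_
            have h4 : Δ ^ (i + 1) ≤ Δ * x ^ i := by
              calc Δ ^ (i + 1) = Δ * Δ ^ i := by ring
                _ ≤ Δ * x ^ i := by gcongr
            have h5 : c * x ^ (i + 1) * ν * Δ / x ^ 2 ≤ c * (Δ * x ^ i) := by
              have e : c * x ^ (i + 1) * ν * Δ / x ^ 2 = c * (Δ * x ^ i) * (ν / x) := by
                field_simp
                ring
              rw [e]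
              have h5 : ν / x ≤ 1 := by
                rw [div_le_one hx0]
                linarith
              exact mul_le_of_le_one_right (by positivity) h5
            linarith
          have e : (1 + c) * Z = ν * x ^ j * ((1 + c) * (Δ * x ^ i) *
              x ^ (2 * k - (j + 1 + (i + 1)))) := by
            have e1 : x ^ (2 * k - 2) = x ^ j * x ^ i * x ^ (2 * k - (j + 1 + (i + 1))) := by
              rw [← pow_add, ← pow_add]
              congr 1
              omega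
            rw [hZ, e1]
            ring
          rw [e]
          refine cc_biUnion _ _ _ _ (hent v j hj1 (by omega)) (by positivity) fun w hw => ?_
          refine cc_biUnion _ _ _ _ (hQ w ?_) (by positivity) fun w' _ =>
            cc_E_card hx hdB _ w'
          simp only [Ent, mem_filter] at hw
          exact hw.1
      _ = (((range (2 * k) ×ˢ range (2 * k)).filter (fun q => 1 ≤ q.1 ∧ 1 ≤ q.2 ∧
          q.1 + 1 + q.2 ≤ 2 * k)).card : ℝ) * ((1 + c) * Z) := by
          rw [sum_const, nsmul_eq_mul]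
      _ ≤ _ := by
          have h4 : ((range (2 * k) ×ˢ range (2 * k)).filter (fun q => 1 ≤ q.1 ∧ 1 ≤ q.2 ∧
              q.1 + 1 + q.2 ≤ 2 * k)).card ≤ (2 * k) * (2 * k) := by
            refine (card_filter_le _ _).trans ?_
            rw [card_product, card_range]
          have h5 : (((range (2 * k) ×ˢ range (2 * k)).filter (fun q => 1 ≤ q.1 ∧ 1 ≤ q.2 ∧
              q.1 + 1 + q.2 ≤ 2 * k)).card : ℝ) ≤ ((2 * k) * (2 * k) : ℕ) := by
            exact_mod_cast h4
          exact mul_le_mul_of_nonneg_right h5 (by positivity)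
  have h6 : (((cc_N B v W).biUnion (fun w => (cc_Q (W₀ ⊔ B) W true (2 * k - 3) w).biUnion
            (fun w' => cc_E B 2 w'))).card : ℝ) ≤ K * ((1 + c) * Z) := by
    obtain ⟨m, rfl⟩ : ∃ m, k = m + 3 := ⟨k - 3, by omega⟩
    have e0 : 2 * (m + 3) - 3 = 2 * m + 3 := by omega
    have e0' : 2 * (m + 3) - 2 = 2 * m + 4 := by omega
    rw [e0]
    rw [e0'] at hZ
    have hQ : ∀ w ∈ W, ((cc_Q (W₀ ⊔ B) W true (2 * m + 3) w).card : ℝ) * x ^ 2 ≤
        (1 + c) * Z := by
      intro w hw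
      have h7 := H W₀ B W x Δ ν h (2 * m + 3) (by omega) (by omega) w hw
      have h8 : (Δ ^ (2 * m + 3) + c * x ^ (2 * m + 3) * ν * Δ / x ^ 2) * x ^ 2 ≤
          (1 + c) * Z := by
        have h9 : Δ ^ (2 * m + 3) * x ^ 2 ≤ Z := by
          calc Δ ^ (2 * m + 3) * x ^ 2 = Δ * (Δ ^ 2) ^ (m + 1) * x ^ 2 := by ring
            _ ≤ Δ * (x * ν) ^ (m + 1) * x ^ 2 := by gcongr
            _ = Δ * x ^ (m + 3) * ν * ν ^ m := by ring
            _ ≤ Δ * x ^ (2 * m + 4) * ν * 1 := by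
                have hp : x ^ (m + 3) ≤ x ^ (2 * m + 4) := pow_le_pow_right₀ hx (by omega)
                have hq : ν ^ m ≤ 1 := pow_le_one₀ hν.le hν1
                gcongr
            _ = Z := by rw [hZ]; ring
        have h10 : c * x ^ (2 * m + 3) * ν * Δ / x ^ 2 * x ^ 2 ≤ c * Z := by
          have e : c * x ^ (2 * m + 3) * ν * Δ / x ^ 2 * x ^ 2 =
              c * (ν * Δ * x ^ (2 * m + 3)) := by
            field_simp
          rw [e, hZ]
          have hp : x ^ (2 * m + 3) ≤ x ^ (2 * m + 4) := pow_le_pow_right₀ hx (by omega)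
          gcongr
        calc _ = Δ ^ (2 * m + 3) * x ^ 2 + c * x ^ (2 * m + 3) * ν * Δ / x ^ 2 * x ^ 2 := by
              ring
          _ ≤ Z + c * Z := add_le_add h9 h10
          _ = _ := by ring
      exact (mul_le_mul_of_nonneg_right h7 (by positivity)).trans h8
    refine cc_biUnion _ _ K _ (by rw [cc_N_card]; exact hBK v hv) (by positivity) fun w hw => ?_
    simp only [cc_N, mem_filter] at hw
    exact (cc_biUnion _ _ _ (x ^ 2) le_rfl (by positivity) fun w' _ =>
      cc_E_card hx hdB 2 w').trans (hQ w hw.1)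
  have h7 : ((2 * k) * (2 * k) : ℕ) * ((1 + c) * Z) ≤
      K * (((2 * k) * (2 * k) : ℕ) * ((1 + c) * Z)) :=
    le_mul_of_one_le_left (by positivity) hK
  calc ((RS W₀ B W k (fun _ => True) v).card : ℝ)
      ≤ ((2 * k) * (2 * k) : ℕ) * ((1 + c) * Z) + K * ((1 + c) * Z) :=
        h2.trans (add_le_add h3 h6)
    _ ≤ K * (((2 * k) * (2 * k) : ℕ) * ((1 + c) * Z)) + K * ((1 + c) * Z) := by linarith
    _ = _ := by
        rw [hZ]
        push_cast
        ring

end Pool.MP_1bacea_co
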