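import Pool.Agent.Lib.MP_1bacea_co.Low.LDefs

/-!
# Low/LProb : more about independent Bernoulli bits (elementary finite sums)

* `Ex_mix`: writing the weight as a product over `S` and its complement (the involution of
  `Ex_mul_of_disjoint` in Prob.lean, `(a,b) ↦ (mix S a b, mix S b a)`, preserves `wt p a * wt p b`).
* `Ex_prod_blocks`: induct on `I` with `Ex_mul_of_disjoint`.
* Chernoff: `E exp(η X) = ∏ (1 - p + p exp η) ≤ exp(p |T| (exp η - 1))`, `exp η - 1 ≤ η + η²`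
  for `0 ≤ η ≤ 1`; lower tail: `1 - exp(-η) ≥ η (1 - η)`; `Ex_prod` gives the product formula.
* `chern_cond`: condition on the bits outside `T` (`Pr_mix_le` with `S = Tᶜ`), then `chern_up`.
-/

set_option autoImplicit false

open Finset

namespace Pool.MP_1bacea_co

variable {ι : Type*} [Fintype ι] [DecidableEq ι] {p : ℝ}

theorem Ex_mix (S : Finset ι) (f : (ι → Bool) → ℝ) :
    Ex p f = Ex p (fun ω₁ => Ex p (fun ω₂ => f (mix S ω₁ ω₂))) := by
  let e : ((ι → Bool) × (ι → Bool)) ≃ ((ι → Bool) × (ι → Bool)) :=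
    { toFun := fun q => (mix S q.1 q.2, mix S q.2 q.1)
      invFun := fun q => (mix S q.1 q.2, mix S q.2 q.1)
      left_inv := by
        rintro ⟨a, b⟩
        ext i <;> by_cases hi : i ∈ S <;> simp [mix, hi]
      right_inv := by
        rintro ⟨a, b⟩
        ext i <;> by_cases hi : i ∈ S <;> simp [mix, hi] }
  have hwt : ∀ a b : ι → Bool, wt p (mix S a b) * wt p (mix S b a) = wt p a * wt p b := by
    intro a b
    unfold wt
    rw [← prod_mul_distrib, ← prod_mul_distrib]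
    refine prod_congr rfl fun i _ => ?_
    by_cases hi : i ∈ S
    · simp [mix, hi]
    · simp [mix, hi, mul_comm]
  have h1 : Ex p f = ∑ q : (ι → Bool) × (ι → Bool), (wt p q.1 * f q.1) * wt p q.2 := by
    rw [Fintype.sum_prod_type]
    simp_rw [← mul_sum, sum_wt, mul_one]
    rfl
  have h2 : Ex p (fun ω₁ => Ex p (fun ω₂ => f (mix S ω₁ ω₂))) =
      ∑ q : (ι → Bool) × (ι → Bool), wt p q.1 * (wt p q.2 * f (mix S q.1 q.2)) := by
    unfold Ex
    rw [Fintype.sum_prod_type]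
    simp_rw [mul_sum]
  rw [h1, h2, ← Equiv.sum_comp e]
  refine sum_congr rfl fun q _ => ?_
  obtain ⟨a, b⟩ := q
  show (wt p (mix S a b) * f (mix S a b)) * wt p (mix S b a) = _
  calc (wt p (mix S a b) * f (mix S a b)) * wt p (mix S b a)
      = (wt p (mix S a b) * wt p (mix S b a)) * f (mix S a b) := by ring
    _ = _ := by rw [hwt a b]; ring

theorem Pr_mix_le (h0 : 0 ≤ p) (h1 : p ≤ 1) (S : Finset ι) {Q : (ι → Bool) → Prop} {c : ℝ}
    (h : ∀ ω₁, Pr p (fun ω₂ => Q (mix S ω₁ ω₂)) ≤ c) : Pr p Q ≤ c := by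
  have h2 : Pr p Q = Ex p (fun ω₁ => Pr p (fun ω₂ => Q (mix S ω₁ ω₂))) :=
    Ex_mix S (fun ω => ind (Q ω))
  rw [h2]
  refine (Ex_mono h0 h1 h).trans ?_
  rw [Ex_const]

theorem Pr_mix_ge (h0 : 0 ≤ p) (h1 : p ≤ 1) (S : Finset ι) {Q G : (ι → Bool) → Prop}
    {c₁ c₂ : ℝ} (hc₂ : 0 ≤ c₂) (hG : c₁ ≤ Pr p G)
    (h : ∀ ω₁, G ω₁ → c₂ ≤ Pr p (fun ω₂ => Q (mix S ω₁ ω₂))) : c₁ * c₂ ≤ Pr p Q := by
  have h2 : Pr p Q = Ex p (fun ω₁ => Pr p (fun ω₂ => Q (mix S ω₁ ω₂))) :=
    Ex_mix S (fun ω => ind (Q ω))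
  have h3 : Ex p (fun ω₁ => c₂ * ind (G ω₁)) ≤ Ex p (fun ω₁ => Pr p (fun ω₂ => Q (mix S ω₁ ω₂))) := by
    refine Ex_mono h0 h1 fun ω => ?_
    by_cases hG' : G ω
    · rw [ind_true hG', mul_one]
      exact h ω hG'
    · rw [ind_false hG', mul_zero]
      exact Pr_nonneg h0 h1 _
  rw [Ex_mul_left] at h3
  rw [h2]
  refine le_trans ?_ h3
  rw [mul_comm]
  exact mul_le_mul_of_nonneg_left hG hc₂

theorem Ex_prod_blocks {α : Type*} (I : Finset α) (R : α → Finset ι)
    (hR : ∀ a ∈ I, ∀ b ∈ I, a ≠ b → Disjoint (R a) (R b)) (f : α → (ι → Bool) → ℝ)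
    (hf : ∀ a ∈ I, DepOn (↑(R a)) (f a)) :
    Ex p (fun ω => ∏ a ∈ I, f a ω) = ∏ a ∈ I, Ex p (f a) := by
  classical
  induction I using Finset.induction_on with
  | empty => simp [Ex_const]
  | insert a I ha ih =>
    rw [prod_insert ha]
    simp_rw [prod_insert ha]
    have hdisj : Disjoint (↑(R a) : Set ι) (↑(I.biUnion R) : Set ι) := by
      rw [disjoint_coe, disjoint_biUnion_right]
      intro b hb
      exact hR a (mem_insert_self _ _) b (mem_insert_of_mem hb) (fun h => ha (h ▸ hb))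
    have hdep : DepOn (↑(I.biUnion R) : Set ι) (fun ω => ∏ b ∈ I, f b ω) := by
      intro ω ω' h
      refine prod_congr rfl fun b hb => ?_
      exact hf b (mem_insert_of_mem hb) ω ω' fun i hi =>
        h i (mem_coe.mpr (mem_biUnion.mpr ⟨b, hb, mem_coe.mp hi⟩))
    rw [Ex_mul_of_disjoint p hdisj (hf a (mem_insert_self _ _)) hdep,
      ih (fun b hb c hc => hR b (mem_insert_of_mem hb) c (mem_insert_of_mem hc))
        (fun b hb => hf b (mem_insert_of_mem hb))]

private lemma lprob_ind_forall {α : Type*} (I : Finset α) (Q : α → Prop) :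
    ind (∀ a ∈ I, Q a) = ∏ a ∈ I, ind (Q a) := by
  by_cases h : ∀ a ∈ I, Q a
  · rw [ind_true h]
    symm
    exact prod_eq_one fun a ha => ind_true (h a ha)
  · rw [ind_false h]
    push Not at h
    obtain ⟨a, ha, hQ⟩ := h
    exact (prod_eq_zero ha (ind_false hQ)).symm

private lemma lprob_ind_congr {A B : Prop} (h : A ↔ B) : ind A = ind B :=
  le_antisymm (ind_mono h.mp) (ind_mono h.mpr)

theorem Pr_forall_blocks {α : Type*} (I : Finset α) (R : α → Finset ι)
    (hR : ∀ a ∈ I, ∀ b ∈ I, a ≠ b → Disjoint (R a) (R b)) (Q : α → (ι → Bool) → Prop)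
    (hQ : ∀ a ∈ I, ∀ ω ω', (∀ i ∈ R a, ω i = ω' i) → (Q a ω ↔ Q a ω')) :
    Pr p (fun ω => ∀ a ∈ I, Q a ω) = ∏ a ∈ I, Pr p (Q a) := by
  unfold Pr
  have h : (fun ω : ι → Bool => ind (∀ a ∈ I, Q a ω)) = fun ω => ∏ a ∈ I, ind (Q a ω) := by
    funext ω
    exact lprob_ind_forall I (fun a => Q a ω)
  rw [h]
  exact Ex_prod_blocks I R hR (fun a ω => ind (Q a ω)) fun a ha ω ω' h' =>
    lprob_ind_congr (hQ a ha ω ω' fun i hi => h' i (mem_coe.mpr hi))

private lemma lprob_all (T : Finset ι) (b : Bool) :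
    Pr p (fun ω => ∀ i ∈ T, ω i = b) = (if b then p else 1 - p) ^ T.card := by
  classical
  have h : (fun ω : ι → Bool => ind (∀ i ∈ T, ω i = b)) =
      fun ω => ∏ i, (fun (i : ι) (c : Bool) => if i ∈ T then (if c = b then (1 : ℝ) else 0) else 1)
        i (ω i) := by
    funext ω
    rw [lprob_ind_forall T (fun i => ω i = b), ← prod_subset (subset_univ T)]
    · refine prod_congr rfl fun i hi => ?_
      simp only [hi, if_true]
      by_cases hb : ω i = b
      · rw [ind_true hb, if_pos hb]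
      · rw [ind_false hb, if_neg hb]
    · intro i _ hi
      simp [hi]
  have hE := Ex_prod p (fun (i : ι) (c : Bool) =>
    if i ∈ T then (if c = b then (1 : ℝ) else 0) else 1)
  unfold Pr
  rw [h]
  refine hE.trans ?_
  rw [← prod_subset (subset_univ T)]
  · rw [← prod_const]
    refine prod_congr rfl fun i hi => ?_
    cases b <;> simp [hi]
  · intro i _ hi
    simp [hi]

theorem Pr_all_on (T : Finset ι) : Pr p (fun ω => ∀ i ∈ T, ω i = true) = p ^ T.card := by
  simpa using lprob_all (p := p) T true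

theorem Pr_all_off (T : Finset ι) : Pr p (fun ω => ∀ i ∈ T, ω i = false) = (1 - p) ^ T.card := by
  simpa using lprob_all (p := p) T false

theorem Pr_cnt_ge (h0 : 0 ≤ p) (h1 : p ≤ 1) (T : Finset ι) (t : ℕ) :
    Pr p (fun ω => t ≤ cnt ω T) ≤ (T.card.choose t : ℝ) * p ^ t := by
  calc Pr p (fun ω => t ≤ cnt ω T)
      ≤ Pr p (fun ω => ∃ J ∈ powersetCard t T, ∀ i ∈ J, ω i = true) := by
        refine Pr_mono h0 h1 fun ω hω => ?_
        obtain ⟨J, hJ, hJt⟩ := exists_subset_card_eq hω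
        refine ⟨J, mem_powersetCard.mpr ⟨hJ.trans (filter_subset _ _), hJt⟩, fun i hi => ?_⟩
        exact (mem_filter.mp (hJ hi)).2
    _ ≤ ∑ J ∈ powersetCard t T, Pr p (fun ω => ∀ i ∈ J, ω i = true) :=
        Pr_exists_le h0 h1 _ _
    _ = ∑ J ∈ powersetCard t T, p ^ t := by
        refine sum_congr rfl fun J hJ => ?_
        rw [Pr_all_on, (mem_powersetCard.mp hJ).2]
    _ = _ := by rw [sum_const, card_powersetCard, nsmul_eq_mul]

/-- Binomial upper bound for independent events attached to disjoint blocks. -/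
theorem Pr_blocks_ge (h0 : 0 ≤ p) (h1 : p ≤ 1) {α : Type*} [DecidableEq α] (I : Finset α)
    (R : α → Finset ι)
    (hR : ∀ a ∈ I, ∀ b ∈ I, a ≠ b → Disjoint (R a) (R b)) (Q : α → (ι → Bool) → Prop)
    (hQ : ∀ a ∈ I, ∀ ω ω', (∀ i ∈ R a, ω i = ω' i) → (Q a ω ↔ Q a ω')) (x : ℝ)
    (hx : ∀ a ∈ I, Pr p (Q a) ≤ x) (t : ℕ) :
    Pr p (fun ω => ∃ J ⊆ I, J.card = t ∧ ∀ a ∈ J, Q a ω) ≤ (I.card.choose t : ℝ) * x ^ t := by
  calc Pr p (fun ω => ∃ J ⊆ I, J.card = t ∧ ∀ a ∈ J, Q a ω)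
      ≤ Pr p (fun ω => ∃ J ∈ powersetCard t I, ∀ a ∈ J, Q a ω) := by
        refine Pr_mono h0 h1 fun ω hω => ?_
        obtain ⟨J, hJ, hJt, h⟩ := hω
        exact ⟨J, mem_powersetCard.mpr ⟨hJ, hJt⟩, h⟩
    _ ≤ ∑ J ∈ powersetCard t I, Pr p (fun ω => ∀ a ∈ J, Q a ω) :=
        Pr_exists_le h0 h1 _ _
    _ ≤ ∑ J ∈ powersetCard t I, x ^ t := by
        refine sum_le_sum fun J hJ => ?_
        obtain ⟨hJI, hJt⟩ := mem_powersetCard.mp hJ
        rw [Pr_forall_blocks J R (fun a ha b hb => hR a (hJI ha) b (hJI hb)) Q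
          (fun a ha => hQ a (hJI ha)), ← hJt, ← prod_const]
        exact prod_le_prod (fun a _ => Pr_nonneg h0 h1 _) (fun a ha => hx a (hJI ha))
    _ = _ := by rw [sum_const, card_powersetCard, nsmul_eq_mul]

private lemma lprob_exp_neg_le {η : ℝ} (h : 0 ≤ η) : Real.exp (-η) ≤ 1 / (1 + η) := by
  rw [Real.exp_neg, one_div]
  apply inv_anti₀ (by linarith)
  linarith [Real.add_one_le_exp η]

/-- Lower tail for independent events attached to disjoint blocks, each of probability `π`. -/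
theorem Pr_blocks_lt (h0 : 0 ≤ p) (h1 : p ≤ 1) {α : Type*} [DecidableEq α] (I : Finset α)
    (R : α → Finset ι)
    (hR : ∀ a ∈ I, ∀ b ∈ I, a ≠ b → Disjoint (R a) (R b)) (Q : α → (ι → Bool) → Prop)
    (hQ : ∀ a ∈ I, ∀ ω ω', (∀ i ∈ R a, ω i = ω' i) → (Q a ω ↔ Q a ω')) (x : ℝ)
    (hx : ∀ a ∈ I, Pr p (Q a) = x) (s : ℝ) (hs : 2 * s ≤ I.card * x) :
    Pr p (fun ω => ¬ ∃ J ⊆ I, s ≤ (J.card : ℝ) ∧ ∀ a ∈ J, Q a ω) ≤ Real.exp (-(s / 8)) := by
  classical
  set θ : ℝ := Real.exp (-(1 / 2)) with hθ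
  have hθpos : 0 < θ := Real.exp_pos _
  have hθle : θ ≤ 2 / 3 := by
    have := lprob_exp_neg_le (η := 1 / 2) (by norm_num)
    rw [hθ]
    norm_num at this ⊢
    linarith
  by_cases hs0 : s ≤ 0
  · have : Pr p (fun ω => ¬ ∃ J ⊆ I, s ≤ (J.card : ℝ) ∧ ∀ a ∈ J, Q a ω) ≤ 1 :=
      Pr_le_one h0 h1 _
    refine this.trans ?_
    rw [← Real.exp_zero]
    apply Real.exp_le_exp.mpr
    linarith
  push Not at hs0
  -- the number of events which occur
  let C : (ι → Bool) → Finset α := fun ω => I.filter fun a => Q a ω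
  have hmark : Pr p (fun ω => ¬ ∃ J ⊆ I, s ≤ (J.card : ℝ) ∧ ∀ a ∈ J, Q a ω) ≤
      Ex p (fun ω => Real.exp (s / 2) * ∏ a ∈ I, (1 - (1 - θ) * ind (Q a ω))) := by
    have hprod : ∀ ω, ∏ a ∈ I, (1 - (1 - θ) * ind (Q a ω)) = θ ^ (C ω).card := by
      intro ω
      simp only [C]
      rw [← prod_const, prod_filter]
      refine prod_congr rfl fun a _ => ?_
      by_cases h : Q a ω
      · rw [if_pos h, ind_true h]; ring
      · rw [if_neg h, ind_false h]; ring
    refine Pr_le_Ex h0 h1 (fun ω => ?_) (fun ω hω => ?_)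
    · rw [hprod]; positivity
    · rw [hprod]
      have hlt : ((C ω).card : ℝ) < s := by
        by_contra hcon
        push Not at hcon
        exact hω ⟨C ω, filter_subset _ _, hcon, fun a ha => (mem_filter.mp ha).2⟩
      have e1 : θ ^ (C ω).card = Real.exp (-(1 / 2) * (C ω).card) := by
        rw [hθ, ← Real.exp_nat_mul]
        congr 1
        ring
      rw [e1, ← Real.exp_add]
      apply Real.one_le_exp
      linarith
  refine hmark.trans ?_
  rw [Ex_mul_left, Ex_prod_blocks I R hR (fun a ω => 1 - (1 - θ) * ind (Q a ω))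
    (fun a ha ω ω' h' => by
      show 1 - (1 - θ) * ind (Q a ω) = 1 - (1 - θ) * ind (Q a ω')
      rw [lprob_ind_congr (hQ a ha ω ω' fun i hi => h' i (mem_coe.mpr hi))])]
  have hfac : ∀ a ∈ I, Ex p (fun ω => 1 - (1 - θ) * ind (Q a ω)) = 1 - (1 - θ) * x := by
    intro a ha
    have e1 : (fun ω : ι → Bool => 1 - (1 - θ) * ind (Q a ω)) =
        fun ω => (1 : ℝ) + (-(1 - θ)) * ind (Q a ω) := by
      funext ω; ring
    rw [e1, Ex_add, Ex_const, Ex_mul_left]
    have e2 : Ex p (fun ω => ind (Q a ω)) = x := hx a ha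
    rw [e2]
    ring
  rw [prod_congr rfl hfac, prod_const]
  have hle : (1 - (1 - θ) * x) ^ I.card ≤ Real.exp (-((1 - θ) * x)) ^ I.card := by
    rcases I.eq_empty_or_nonempty with hI | ⟨a, ha⟩
    · rw [hI]; simp
    · have hx1 : x ≤ 1 := by rw [← hx a ha]; exact Pr_le_one h0 h1 _
      have hx0 : 0 ≤ x := by rw [← hx a ha]; exact Pr_nonneg h0 h1 _
      apply pow_le_pow_left₀
      · nlinarith
      · linarith [Real.add_one_le_exp (-((1 - θ) * x))]
  calc Real.exp (s / 2) * (1 - (1 - θ) * x) ^ I.card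
      ≤ Real.exp (s / 2) * Real.exp (-((1 - θ) * x)) ^ I.card :=
        mul_le_mul_of_nonneg_left hle (Real.exp_pos _).le
    _ = Real.exp (s / 2 - (1 - θ) * (I.card * x)) := by
        rw [← Real.exp_nat_mul, ← Real.exp_add]
        congr 1
        ring
    _ ≤ Real.exp (-(s / 8)) := by
        apply Real.exp_le_exp.mpr
        have : 1 / 3 * (2 * s) ≤ (1 - θ) * (I.card * x) := by
          apply mul_le_mul (by linarith) hs (by linarith) (by linarith)
        linarith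

private lemma lprob_mgf (h0 : 0 ≤ p) (h1 : p ≤ 1) (T : Finset ι) (c : ℝ) (hc : 0 ≤ c) :
    Ex p (fun ω => c ^ cnt ω T) ≤ Real.exp (p * T.card * (c - 1)) := by
  classical
  have h : (fun ω : ι → Bool => c ^ cnt ω T) =
      fun ω => ∏ i, (fun (i : ι) (b : Bool) => if i ∈ T then (if b = true then c else 1) else 1)
        i (ω i) := by
    funext ω
    rw [← prod_subset (subset_univ T)]
    · unfold cnt
      rw [← prod_const, prod_filter]
      refine prod_congr rfl fun i hi => ?_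
      simp [hi]
    · intro i _ hi
      simp [hi]
  have hE := Ex_prod p (fun (i : ι) (b : Bool) =>
    if i ∈ T then (if b = true then c else 1) else 1)
  rw [h]
  refine (le_of_eq hE).trans ?_
  rw [← prod_subset (subset_univ T)]
  · have h2 : ∏ i ∈ T, (p * (fun (i : ι) (b : Bool) =>
        if i ∈ T then (if b = true then c else 1) else 1) i true +
        (1 - p) * (fun (i : ι) (b : Bool) =>
          if i ∈ T then (if b = true then c else 1) else 1) i false)
        = ∏ i ∈ T, (1 + p * (c - 1)) := by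
      refine prod_congr rfl fun i hi => ?_
      simp only [hi, if_true]
      norm_num
      ring
    rw [h2, prod_const]
    calc (1 + p * (c - 1)) ^ T.card ≤ Real.exp (p * (c - 1)) ^ T.card := by
          apply pow_le_pow_left₀
          · nlinarith
          · linarith [Real.add_one_le_exp (p * (c - 1))]
      _ = _ := by
          rw [← Real.exp_nat_mul]
          congr 1
          ring
  · intro i _ hi
    simp [hi]

theorem chern_up (h0 : 0 ≤ p) (h1 : p ≤ 1) (T : Finset ι) (l : ℝ) :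
    Pr p (fun ω => 2 * p * (T.card : ℝ) + l ≤ (cnt ω T : ℝ)) ≤ Real.exp (-l) := by
  have hmark : Pr p (fun ω => 2 * p * (T.card : ℝ) + l ≤ (cnt ω T : ℝ)) ≤
      Ex p (fun ω => Real.exp (-(2 * p * (T.card : ℝ) + l)) * Real.exp 1 ^ cnt ω T) := by
    refine Pr_le_Ex h0 h1 (fun ω => by positivity) (fun ω hω => ?_)
    rw [← Real.exp_nat_mul, ← Real.exp_add]
    apply Real.one_le_exp
    linarith
  refine hmark.trans ?_
  rw [Ex_mul_left]
  calc Real.exp (-(2 * p * (T.card : ℝ) + l)) * Ex p (fun ω => Real.exp 1 ^ cnt ω T)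
      ≤ Real.exp (-(2 * p * (T.card : ℝ) + l)) *
          Real.exp (p * T.card * (Real.exp 1 - 1)) :=
        mul_le_mul_of_nonneg_left (lprob_mgf h0 h1 T _ (Real.exp_pos _).le) (Real.exp_pos _).le
    _ = Real.exp (p * T.card * (Real.exp 1 - 3) - l) := by
        rw [← Real.exp_add]
        congr 1
        ring
    _ ≤ Real.exp (-l) := by
        apply Real.exp_le_exp.mpr
        have h3 : Real.exp 1 < 3 := by
          have := Real.exp_one_lt_d9
          linarith
        have h4 : 0 ≤ p * (T.card : ℝ) := by positivity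
        nlinarith

theorem chern_lo (h0 : 0 ≤ p) (h1 : p ≤ 1) (T : Finset ι) {η l : ℝ} (hη0 : 0 < η)
    (hη1 : η ≤ 1) :
    Pr p (fun ω => (cnt ω T : ℝ) ≤ (1 - η) * (p * (T.card : ℝ)) - l) ≤ Real.exp (-(η * l)) := by
  have hmark : Pr p (fun ω => (cnt ω T : ℝ) ≤ (1 - η) * (p * (T.card : ℝ)) - l) ≤
      Ex p (fun ω => Real.exp (η * ((1 - η) * (p * (T.card : ℝ)) - l)) *
        Real.exp (-η) ^ cnt ω T) := by
    refine Pr_le_Ex h0 h1 (fun ω => by positivity) (fun ω hω => ?_)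
    rw [← Real.exp_nat_mul, ← Real.exp_add]
    apply Real.one_le_exp
    have := mul_le_mul_of_nonneg_left hω hη0.le
    linarith
  refine hmark.trans ?_
  rw [Ex_mul_left]
  calc Real.exp (η * ((1 - η) * (p * (T.card : ℝ)) - l)) *
        Ex p (fun ω => Real.exp (-η) ^ cnt ω T)
      ≤ Real.exp (η * ((1 - η) * (p * (T.card : ℝ)) - l)) *
          Real.exp (p * T.card * (Real.exp (-η) - 1)) :=
        mul_le_mul_of_nonneg_left (lprob_mgf h0 h1 T _ (Real.exp_pos _).le) (Real.exp_pos _).le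
    _ = Real.exp (p * T.card * (η * (1 - η) + Real.exp (-η) - 1) - η * l) := by
        rw [← Real.exp_add]
        congr 1
        ring
    _ ≤ Real.exp (-(η * l)) := by
        apply Real.exp_le_exp.mpr
        have h3 : Real.exp (-η) ≤ 1 - η + η ^ 2 := by
          refine (lprob_exp_neg_le hη0.le).trans ?_
          rw [div_le_iff₀ (by linarith)]
          nlinarith [pow_pos hη0 3]
        have h4 : 0 ≤ p * (T.card : ℝ) := by positivity
        nlinarith

theorem chern_cond (h0 : 0 ≤ p) (h1 : p ≤ 1) (T : Finset ι) (F : (ι → Bool) → Finset ι)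
    (hF : ∀ ω, F ω ⊆ T) (hdep : ∀ ω ω', (∀ i, i ∉ T → ω i = ω' i) → F ω = F ω') (l : ℝ) :
    Pr p (fun ω => 2 * p * ((F ω).card : ℝ) + l ≤ (cnt ω (F ω) : ℝ)) ≤ Real.exp (-l) := by
  refine Pr_mix_le h0 h1 Tᶜ fun ω₁ => ?_
  have e1 : ∀ ω₂, F (mix Tᶜ ω₁ ω₂) = F ω₁ := by
    intro ω₂
    apply hdep
    intro i hi
    simp [mix, hi]
  have e2 : ∀ ω₂, cnt (mix Tᶜ ω₁ ω₂) (F ω₁) = cnt ω₂ (F ω₁) := by
    intro ω₂
    unfold cnt
    congr 1
    apply filter_congr
    intro i hi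
    simp [mix, hF ω₁ hi]
  simp only [e1, e2]
  exact chern_up h0 h1 (F ω₁) l

end Pool.MP_1bacea_co
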