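import Pool.Agent.Lib.MP_1bacea_co.Low.LDefs
import Pool.Agent.Lib.MP_1bacea_co.Low.LProb
import Pool.Agent.Lib.MP_1bacea_co.Low.CleanCount
import Pool.Agent.Lib.MP_1bacea_co.MaxDeg

/-!
# Low/CleanProb : the random bipartite graph satisfies `CleanOK`

Fixed: `X`, `W` disjoint, `W₀` on `W`.  `D = p n`, `B = bip (Gr ω) X`, `x = 4 D` (`Pr_maxdeg`),
`Δ = n^{ε/10}`, `ν = 8 n^{-ε}` (so that `2 p |W| + small ≤ ν`), `K = ⌈4/ε⌉`, `l = n^{α/2}` (`≤ D n^{-ε}`).
Events (each fails with probability `→ 0`, faster than any power of `n` except (c)):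
(a) maximum degree `≤ 4 D`;
(b) `|Ent B W j v| ≤ ν x^j` for all `v` and `1 ≤ j ≤ 2k`.  Let `Z` = set of possible `u j` (reached by
    `B`-walks `v = u 0, ..., u j` with `u 1, ..., u j ∉ W`); it is determined by the bits of the pairs
    with no end in `W \ {v}`, `|Z| ≤ x^j` under (a).  `chern_cond` with
    `T = {s(z,w) : z ∉ W, w ∈ W, w ≠ v}` (`= {s(z,w) : w ∈ W \ {v}, z ∉ W \ {v}}` is also fine) and
    `F ω = {s(z,w) : z ∈ Z, w ∈ W, w ≠ v}` : `|Ent| ≤ cnt ω (F ω) < 2 p |Z||W| + l ≤ 2 n^{-ε} x^j + l ≤ ν x^j`.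
    (`|F ω| = |Z| |W \ {v}|` because `Z ∩ W = ∅`; if `v ∈ W` then `Z` does not contain `v` either.)
(c) `dg B v W ≤ K` for all `v ∉ W`: `n (p |W|)^{K} ≤ n · n^{-ε K}` (`Pr_cnt_ge`).
By `clean_count`: `|RS| ≤ c K ν Δ (4D)^{2k-2} ≤ Const n^{1 + (2k-2)δ - ε + ε/10} ≤ n^{1-ε/2}` when
`(2k-2) δ ≤ ε/4`.
(d) loss: for a vertex `v ∉ W`, a bit position `β < n` (`Nat.testBit`) and a value `c : Bool` let
    `T = {s(v,y) : y ≠ v, testBit y β = c}` and `F ω = {s(v,y) : y ∈ RS W₀ B W k (fun u => testBit u β ≠ c) v, testBit y β = c}`.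
    `RS ..` only uses pairs not containing `v`, and the pair `s(v, u 1)` with `testBit (u 1) β ≠ c`
    (the path is injective): it is determined by the bits outside `T`.  `chern_cond`:
    `cnt ω (F ω) < 2 p |RS| + l`.  If `y` is the end of an `RS`-path and `B.Adj v y` then `u 1 ≠ y`, so
    some bit `β ≤ log₂ n` distinguishes them.  Hence
    `dg B v (RS .. (fun _ => True) v) ≤ 2 (log₂ n + 1) (2 p n^{1-ε/2} + l) ≤ η D`.
(e) degrees: `chern_lo` (`|X|, |Xᶜ \ W| ≥ n/2 - n^{1-ε} - 1`).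
(f) for `w ∈ W`: `dg G w (Un ..) ≥ dg G w X - #{x ∈ X : x ~ w, x ~ w' for some w' ∈ W, w' ≠ w}`; the
    second term is `≤ 2 p |W| 4D + l` by `chern_cond` with `T = {s(w,x) : x ∈ X}`,
    `F ω = {s(w,x) : x ∈ X, ∃ w' ∈ W \ {w}, x ~ w'}`, `|F ω| ≤ |W| · 4 D ≤ 4 n^{1-ε}`.
-/

set_option autoImplicit false

open Finset

namespace Pool.MP_1bacea_co


section cpdet

variable {V : Type*} [Fintype V] [DecidableEq V]

open scoped Classical in
/-- end points of walks of length `j` from `v` avoiding `W` after the start -/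
noncomputable def cpZ (ω : Sym2 V → Bool) (X W : Finset V) (v : V) (j : ℕ) : Finset V :=
  univ.filter (fun z => ∃ u : ℕ → V, u 0 = v ∧ u j = z ∧ (∀ i, 1 ≤ i → i ≤ j → u i ∉ W) ∧
    ∀ i < j, (bip (Gr ω) X).Adj (u i) (u (i + 1)))

lemma cp_mem_Z {ω : Sym2 V → Bool} {X W : Finset V} {v : V} {j : ℕ} {z : V} :
    z ∈ cpZ ω X W v j ↔ ∃ u : ℕ → V, u 0 = v ∧ u j = z ∧ (∀ i, 1 ≤ i → i ≤ j → u i ∉ W) ∧
    ∀ i < j, (bip (Gr ω) X).Adj (u i) (u (i + 1)) := by
  classical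
  simp [cpZ]

lemma cp_card_Z_le {ω : Sym2 V → Bool} {X W : Finset V} {v : V} {x : ℝ} (hx : 0 ≤ x)
    (hdeg : ∀ v, (dg (Gr ω) v univ : ℝ) ≤ x) (j : ℕ) : ((cpZ ω X W v j).card : ℝ) ≤ x ^ j := by
  classical
  induction j with
  | zero =>
    have : cpZ ω X W v 0 ⊆ {v} := by
      intro z hz
      obtain ⟨u, h0, h1, _⟩ := cp_mem_Z.mp hz
      rw [mem_singleton, ← h1, h0]
    have h2 := card_le_card this
    rw [card_singleton] at h2
    rw [pow_zero]
    exact_mod_cast h2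
  | succ j ih =>
    have hsub : cpZ ω X W v (j + 1) ⊆ (cpZ ω X W v j).biUnion
        (fun z => univ.filter fun y => (Gr ω).Adj z y) := by
      intro y hy
      obtain ⟨u, h0, h1, h2, h3⟩ := cp_mem_Z.mp hy
      rw [mem_biUnion]
      refine ⟨u j, cp_mem_Z.mpr ⟨u, h0, rfl, fun i hi hij => h2 i hi (by omega),
        fun i hi => h3 i (by omega)⟩, ?_⟩
      rw [mem_filter]
      refine ⟨mem_univ _, ?_⟩
      rw [← h1]
      exact (h3 j (by omega)).1
    have hc := (card_le_card hsub).trans card_biUnion_le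
    calc ((cpZ ω X W v (j + 1)).card : ℝ)
        ≤ ∑ z ∈ cpZ ω X W v j, ((univ.filter fun y => (Gr ω).Adj z y).card : ℝ) := by
          exact_mod_cast hc
      _ ≤ ∑ z ∈ cpZ ω X W v j, x := by
          refine sum_le_sum fun z _ => ?_
          have := hdeg z
          unfold dg at this
          convert this
      _ = (cpZ ω X W v j).card * x := by rw [sum_const, nsmul_eq_mul]
      _ ≤ x ^ j * x := mul_le_mul_of_nonneg_right ih hx
      _ = _ := by rw [pow_succ]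

/-- the candidate pairs for the entrance to `W` -/
noncomputable def cpF2 (ω : Sym2 V → Bool) (X W : Finset V) (v : V) (j : ℕ) : Finset (Sym2 V) :=
  (cpZ ω X W v j ×ˢ W.erase v).image fun q => s(q.1, q.2)

/-- all pairs between `W` without `v` and the complement of `W` -/
def cpT2 (W : Finset V) (v : V) : Finset (Sym2 V) :=
  (Wᶜ ×ˢ W.erase v).image fun q => s(q.1, q.2)

lemma cp_Z_notMem {ω : Sym2 V → Bool} {X W : Finset V} {v : V} {j : ℕ} (hj : 1 ≤ j) {z : V}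
    (hz : z ∈ cpZ ω X W v j) : z ∉ W := by
  obtain ⟨u, h0, h1, h2, h3⟩ := cp_mem_Z.mp hz
  rw [← h1]
  exact h2 j hj le_rfl

lemma cp_F2_sub (ω : Sym2 V → Bool) (X W : Finset V) (v : V) {j : ℕ} (hj : 1 ≤ j) :
    cpF2 ω X W v j ⊆ cpT2 W v := by
  unfold cpF2 cpT2
  refine image_subset_image (product_subset_product ?_ (Subset.refl _))
  intro z hz
  rw [mem_compl]
  exact cp_Z_notMem hj hz

lemma cp_card_F2_le (ω : Sym2 V → Bool) (X W : Finset V) (v : V) (j : ℕ) :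
    (cpF2 ω X W v j).card ≤ (cpZ ω X W v j).card * W.card := by
  unfold cpF2
  refine card_image_le.trans ?_
  rw [card_product]
  exact Nat.mul_le_mul_left _ (card_le_card (erase_subset _ _))

lemma cp_notMem_T2 {W : Finset V} {v a b : V} (h : (a = v ∨ a ∉ W) ∧ b ∉ W) :
    s(a, b) ∉ cpT2 W v := by
  unfold cpT2
  rw [mem_image]
  rintro ⟨q, hq, he⟩
  rw [mem_product, mem_compl, mem_erase] at hq
  rw [Sym2.eq_iff] at he
  rcases he with ⟨h1, h2⟩ | ⟨h1, h2⟩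
  · exact h.2 (h2 ▸ hq.2.2)
  · rcases h.1 with ha | ha
    · exact hq.2.1 (h2.trans ha)
    · exact ha (h2 ▸ hq.2.2)

omit [Fintype V] [DecidableEq V] in
lemma cp_Gr_congr {ω ω' : Sym2 V → Bool} {a b : V} (h : ω s(a, b) = ω' s(a, b))
    (hab : (Gr ω).Adj a b) : (Gr ω').Adj a b := ⟨hab.1, by rw [← h]; exact hab.2⟩

lemma cp_bip_congr {ω ω' : Sym2 V → Bool} {X : Finset V} {a b : V} (h : ω s(a, b) = ω' s(a, b))
    (hab : (bip (Gr ω) X).Adj a b) : (bip (Gr ω') X).Adj a b :=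
  ⟨cp_Gr_congr h hab.1, hab.2⟩

lemma cp_Z_sub {ω ω' : Sym2 V → Bool} (X W : Finset V) (v : V) (j : ℕ)
    (h : ∀ i, i ∉ cpT2 W v → ω i = ω' i) : cpZ ω X W v j ⊆ cpZ ω' X W v j := by
  intro z hz
  obtain ⟨u, h0, h1, h2, h3⟩ := cp_mem_Z.mp hz
  refine cp_mem_Z.mpr ⟨u, h0, h1, h2, fun i hi => ?_⟩
  refine cp_bip_congr (h _ (cp_notMem_T2 ⟨?_, h2 _ (by omega) (by omega)⟩)) (h3 i hi)
  rcases Nat.eq_zero_or_pos i with rfl | hpos
  · exact Or.inl h0
  · exact Or.inr (h2 i hpos hi.le)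

lemma cp_F2_dep (X W : Finset V) (v : V) (j : ℕ) (ω ω' : Sym2 V → Bool)
    (h : ∀ i, i ∉ cpT2 W v → ω i = ω' i) : cpF2 ω X W v j = cpF2 ω' X W v j := by
  unfold cpF2
  rw [Subset.antisymm (cp_Z_sub X W v j h) (cp_Z_sub X W v j fun i hi => (h i hi).symm)]

lemma cp_Ent_le (ω : Sym2 V → Bool) (X W : Finset V) (v : V) {j : ℕ} (hj : 1 ≤ j) :
    (Ent (bip (Gr ω) X) W j v).card ≤ cnt ω (cpF2 ω X W v j) := by
  classical
  have hex : ∀ w ∈ Ent (bip (Gr ω) X) W j v, w ∈ W ∧ w ≠ v ∧ ∃ z, z ∈ cpZ ω X W v j ∧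
      (Gr ω).Adj z w := by
    intro w hw
    unfold Ent at hw
    rw [mem_filter] at hw
    obtain ⟨hwW, hwv, u, h0, h1, h2, h3⟩ := hw
    refine ⟨hwW, hwv, u j, cp_mem_Z.mpr ⟨u, h0, rfl, h2, fun i hi => h3 i hi.le⟩, ?_⟩
    rw [← h1]
    exact (h3 j le_rfl).1
  choose! f hf using fun w hw => (hex w hw).2.2
  unfold cnt
  refine card_le_card_of_injOn (fun w => s(f w, w)) ?_ ?_
  · intro w hw
    rw [mem_coe] at hw
    rw [mem_coe, mem_filter]
    obtain ⟨h1, h2, -⟩ := hex w hw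
    obtain ⟨h3, h4⟩ := hf w hw
    refine ⟨?_, h4.2⟩
    unfold cpF2
    rw [mem_image]
    exact ⟨(f w, w), mem_product.mpr ⟨h3, mem_erase.mpr ⟨h2, h1⟩⟩, rfl⟩
  · intro w hw w' hw' he
    rw [mem_coe] at hw hw'
    have he' : s(f w, w) = s(f w', w') := he
    rw [Sym2.eq_iff] at he'
    rcases he' with ⟨_, h⟩ | ⟨h, _⟩
    · exact h
    · exfalso
      have h1 := cp_Z_notMem hj (hf w hw).1
      rw [h] at h1
      exact h1 (hex w' hw').1

omit [DecidableEq V] in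
lemma cp_RS_mem {W₀ B : SimpleGraph V} {W : Finset V} {k : ℕ} {A : V → Prop} {v y : V} :
    y ∈ RS W₀ B W k A v ↔ ∃ u : ℕ → V, u 0 = v ∧ u (2 * k) = y ∧ A (u 1) ∧
    (∀ i < 2 * k, (W₀ ⊔ B).Adj (u i) (u (i + 1))) ∧
    (∀ i ≤ 2 * k, ∀ j ≤ 2 * k, u i = u j → i = j) ∧
    (∃ i < 2 * k, u i ∈ W ∧ u (i + 1) ∈ W) ∧
    (u 1 ∉ W ∨ (u (2 * k - 2) ∈ W ∧ u (2 * k - 1) ∉ W ∧ u (2 * k) ∉ W)) := by
  classical
  simp [RS]

lemma cp_RS_mono {W₀ B : SimpleGraph V} {W : Finset V} {k : ℕ} {A A' : V → Prop} {v : V}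
    (h : ∀ a, A a → A' a) : RS W₀ B W k A v ⊆ RS W₀ B W k A' v := by
  intro y hy
  obtain ⟨u, h0, h1, h2, h3⟩ := cp_RS_mem.mp hy
  exact cp_RS_mem.mpr ⟨u, h0, h1, h _ h2, h3⟩

lemma cp_RS_ne {W₀ B : SimpleGraph V} {W : Finset V} {k : ℕ} (hk : 1 ≤ k) {A : V → Prop} {v y : V}
    (hy : y ∈ RS W₀ B W k A v) : y ≠ v := by
  obtain ⟨u, h0, h1, h2, h3, h4, -⟩ := cp_RS_mem.mp hy
  intro h
  have := h4 (2 * k) le_rfl 0 (Nat.zero_le _) (by rw [h1, h0, h])
  omega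

/-- candidate pairs for the loss at `v` -/
noncomputable def cpF4 (W₀ : SimpleGraph V) (ω : Sym2 V → Bool) (X W : Finset V) (k : ℕ)
    (g : V → Bool) (c : Bool) (v : V) : Finset (Sym2 V) :=
  ((RS W₀ (bip (Gr ω) X) W k (fun a => g a ≠ c) v).filter fun y => g y = c).image fun y => s(v, y)

/-- all pairs at `v` -/
def cpT4 (g : V → Bool) (c : Bool) (v : V) : Finset (Sym2 V) :=
  ((univ.erase v).filter fun y => g y = c).image fun y => s(v, y)

lemma cp_F4_sub (W₀ : SimpleGraph V) (ω : Sym2 V → Bool) (X W : Finset V) {k : ℕ} (hk : 1 ≤ k)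
    (g : V → Bool) (c : Bool) (v : V) : cpF4 W₀ ω X W k g c v ⊆ cpT4 g c v := by
  unfold cpF4 cpT4
  refine image_subset_image ?_
  intro y hy
  rw [mem_filter] at hy ⊢
  exact ⟨mem_erase.mpr ⟨cp_RS_ne hk hy.1, mem_univ _⟩, hy.2⟩

lemma cp_card_F4_le (W₀ : SimpleGraph V) (ω : Sym2 V → Bool) (X W : Finset V) (k : ℕ)
    (g : V → Bool) (c : Bool) (v : V) :
    (cpF4 W₀ ω X W k g c v).card ≤ (RS W₀ (bip (Gr ω) X) W k (fun _ => True) v).card := by
  unfold cpF4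
  exact card_image_le.trans ((card_le_card (filter_subset _ _)).trans
    (card_le_card (cp_RS_mono fun _ _ => trivial)))

lemma cp_RS_sub {W₀ : SimpleGraph V} {ω ω' : Sym2 V → Bool} (X W : Finset V) (k : ℕ)
    (g : V → Bool) (c : Bool) (v : V) (h : ∀ i, i ∉ cpT4 g c v → ω i = ω' i) :
    RS W₀ (bip (Gr ω) X) W k (fun a => g a ≠ c) v ⊆
      RS W₀ (bip (Gr ω') X) W k (fun a => g a ≠ c) v := by
  intro y hy
  obtain ⟨u, h0, h1, h2, h3, h4, h5⟩ := cp_RS_mem.mp hy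
  refine cp_RS_mem.mpr ⟨u, h0, h1, h2, fun i hi => ?_, h4, h5⟩
  rcases h3 i hi with h6 | h6
  · exact Or.inl h6
  · refine Or.inr (cp_bip_congr (h _ ?_) h6)
    unfold cpT4
    rw [mem_image]
    rintro ⟨y', hy', he⟩
    rw [mem_filter, mem_erase] at hy'
    rw [Sym2.eq_iff] at he
    rcases he with ⟨e1, e2⟩ | ⟨e1, e2⟩
    · -- u i = v, so i = 0
      have hi0 : i = 0 := h4 i hi.le 0 (Nat.zero_le _) (by rw [← e1, h0])
      subst hi0
      rw [zero_add] at e2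
      exact h2 (by rw [← e2]; exact hy'.2)
    · have : i + 1 = 0 := h4 (i + 1) hi 0 (Nat.zero_le _) (by rw [← e1, h0])
      omega

lemma cp_F4_dep (W₀ : SimpleGraph V) (X W : Finset V) (k : ℕ) (g : V → Bool) (c : Bool) (v : V)
    (ω ω' : Sym2 V → Bool) (h : ∀ i, i ∉ cpT4 g c v → ω i = ω' i) :
    cpF4 W₀ ω X W k g c v = cpF4 W₀ ω' X W k g c v := by
  unfold cpF4
  rw [Subset.antisymm (cp_RS_sub X W k g c v h)
    (cp_RS_sub X W k g c v fun i hi => (h i hi).symm)]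

lemma cp_loss_le (W₀ : SimpleGraph V) (ω : Sym2 V → Bool) (X W : Finset V) {k : ℕ} (hk : 1 ≤ k)
    (v : V) {β : Type*} [DecidableEq β] (I : Finset β) (g : β → V → Bool)
    (hsep : ∀ a b : V, a ≠ b → ∃ i ∈ I, g i a ≠ g i b) :
    dg (bip (Gr ω) X) v (RS W₀ (bip (Gr ω) X) W k (fun _ => True) v) ≤
      ∑ q ∈ I ×ˢ (univ : Finset Bool), cnt ω (cpF4 W₀ ω X W k (g q.1) q.2 v) := by
  classical
  unfold dg
  have hsub : (RS W₀ (bip (Gr ω) X) W k (fun _ => True) v).filter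
      (fun u => (bip (Gr ω) X).Adj v u) ⊆ (I ×ˢ (univ : Finset Bool)).biUnion fun q =>
      ((RS W₀ (bip (Gr ω) X) W k (fun a => g q.1 a ≠ q.2) v).filter
        (fun y => g q.1 y = q.2)).filter (fun u => (Gr ω).Adj v u) := by
    intro y hy
    rw [mem_filter] at hy
    obtain ⟨u, h0, h1, h2, h3, h4, h5⟩ := cp_RS_mem.mp hy.1
    have hne : u 1 ≠ y := by
      intro h
      have := h4 1 (by omega) (2 * k) le_rfl (by rw [h, h1])
      omega
    obtain ⟨i, hi, hg⟩ := hsep _ _ hne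
    rw [mem_biUnion]
    refine ⟨(i, g i y), mem_product.mpr ⟨hi, mem_univ _⟩, ?_⟩
    rw [mem_filter, mem_filter]
    exact ⟨⟨cp_RS_mem.mpr ⟨u, h0, h1, hg, h3, h4, h5⟩, rfl⟩, hy.2.1⟩
  refine (card_le_card hsub).trans (card_biUnion_le.trans (sum_le_sum fun q _ => ?_))
  unfold cnt
  refine card_le_card_of_injOn (fun y => s(v, y)) ?_ ?_
  · intro y hy
    rw [mem_coe, mem_filter] at hy
    rw [mem_coe, mem_filter]
    refine ⟨?_, hy.2.2⟩
    unfold cpF4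
    exact mem_image_of_mem _ hy.1
  · intro y _ y' _ h
    exact Sym2.congr_right.mp h

/-- pairs from `v` to `A` -/
def cpS (v : V) (A : Finset V) : Finset (Sym2 V) := A.image fun y => s(v, y)

omit [Fintype V] in
lemma cp_card_S (v : V) (A : Finset V) : (cpS v A).card = A.card := by
  unfold cpS
  exact card_image_of_injective _ fun y y' h => Sym2.congr_right.mp h

omit [Fintype V] in
lemma cp_cnt_S (ω : Sym2 V → Bool) {v : V} {A : Finset V} (hv : v ∉ A) :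
    cnt ω (cpS v A) = dg (Gr ω) v A := by
  classical
  unfold cnt cpS dg
  rw [filter_image, card_image_of_injective _ fun y y' h => Sym2.congr_right.mp h]
  congr 1
  refine filter_congr fun y hy => ?_
  constructor
  · intro h
    exact ⟨fun e => hv (e ▸ hy), h⟩
  · intro h
    exact h.2

open scoped Classical in
/-- vertices of `X` adjacent to some vertex of `W` other than `w` -/
noncomputable def cpY (ω : Sym2 V → Bool) (X W : Finset V) (w : V) : Finset V :=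
  X.filter fun x => ∃ w' ∈ W, w' ≠ w ∧ (Gr ω).Adj x w'

lemma cp_mem_Y {ω : Sym2 V → Bool} {X W : Finset V} {w x : V} :
    x ∈ cpY ω X W w ↔ x ∈ X ∧ ∃ w' ∈ W, w' ≠ w ∧ (Gr ω).Adj x w' := by
  classical
  simp [cpY]

lemma cp_Y_subX (ω : Sym2 V → Bool) (X W : Finset V) (w : V) : cpY ω X W w ⊆ X :=
  fun _ h => (cp_mem_Y.mp h).1

lemma cp_card_Y_le {ω : Sym2 V → Bool} (X W : Finset V) (w : V) {x : ℝ}
    (hdeg : ∀ v, (dg (Gr ω) v univ : ℝ) ≤ x) : ((cpY ω X W w).card : ℝ) ≤ W.card * x := by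
  classical
  have hsub : cpY ω X W w ⊆ W.biUnion (fun z => univ.filter fun y => (Gr ω).Adj z y) := by
    intro y hy
    obtain ⟨_, w', h1, h2, h3⟩ := cp_mem_Y.mp hy
    rw [mem_biUnion]
    exact ⟨w', h1, mem_filter.mpr ⟨mem_univ _, h3.symm⟩⟩
  have hc := (card_le_card hsub).trans card_biUnion_le
  calc ((cpY ω X W w).card : ℝ)
      ≤ ∑ z ∈ W, ((univ.filter fun y => (Gr ω).Adj z y).card : ℝ) := by exact_mod_cast hc
    _ ≤ ∑ z ∈ W, x := by
        refine sum_le_sum fun z _ => ?_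
        have := hdeg z
        unfold dg at this
        convert this
    _ = _ := by rw [sum_const, nsmul_eq_mul]

lemma cp_Y_sub {ω ω' : Sym2 V → Bool} {X W : Finset V} (hXW : Disjoint X W) {w : V} (hw : w ∈ W)
    (h : ∀ i, i ∉ cpS w X → ω i = ω' i) : cpY ω X W w ⊆ cpY ω' X W w := by
  intro y hy
  obtain ⟨hyX, w', h1, h2, h3⟩ := cp_mem_Y.mp hy
  refine cp_mem_Y.mpr ⟨hyX, w', h1, h2, cp_Gr_congr (h _ ?_) h3⟩
  unfold cpS
  rw [mem_image]
  rintro ⟨x', hx', he⟩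
  rw [Sym2.eq_iff] at he
  rcases he with ⟨e1, e2⟩ | ⟨e1, e2⟩
  · rw [← e1] at hyX
    exact disjoint_left.mp hXW hyX hw
  · exact h2 e1.symm

lemma cp_Y_dep {X W : Finset V} (hXW : Disjoint X W) {w : V} (hw : w ∈ W) (ω ω' : Sym2 V → Bool)
    (h : ∀ i, i ∉ cpS w X → ω i = ω' i) : cpS w (cpY ω X W w) = cpS w (cpY ω' X W w) := by
  rw [Subset.antisymm (cp_Y_sub hXW hw h) (cp_Y_sub hXW hw fun i hi => (h i hi).symm)]

lemma cp_Y_S_sub (ω : Sym2 V → Bool) (X W : Finset V) (w : V) :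
    cpS w (cpY ω X W w) ⊆ cpS w X := by
  unfold cpS
  exact image_subset_image (cp_Y_subX ω X W w)

lemma cp_degW {ω : Sym2 V → Bool} {X W : Finset V} (hXW : Disjoint X W) {w : V} (hw : w ∈ W) :
    dg (Gr ω) w X ≤ dg (Gr ω) w (Un (Gr ω) X W w) + cnt ω (cpS w (cpY ω X W w)) := by
  classical
  have hwX : w ∉ X := fun h => disjoint_left.mp hXW h hw
  rw [cp_cnt_S ω (fun h => hwX (cp_Y_subX ω X W w h))]
  unfold dg
  refine le_trans (card_le_card ?_) (card_union_le _ _)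
  intro x hx
  rw [mem_filter] at hx
  rw [mem_union, mem_filter, mem_filter]
  by_cases hU : x ∈ Un (Gr ω) X W w
  · exact Or.inl ⟨hU, hx.2⟩
  · right
    refine ⟨?_, hx.2⟩
    unfold Un at hU
    rw [mem_filter, not_and] at hU
    have h1 := hU hx.1
    push Not at h1
    obtain ⟨w', h2, h3, h4⟩ := h1
    exact cp_mem_Y.mpr ⟨hx.1, w', h2, h4, h3⟩

end cpdet

section cpmain

lemma cp_sep {n L : ℕ} (hL : n ≤ 2 ^ L) (a b : Fin n) (h : a ≠ b) :
    ∃ i ∈ range L, Nat.testBit a.val i ≠ Nat.testBit b.val i := by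
  by_contra hcon
  push Not at hcon
  apply h
  apply Fin.ext
  apply Nat.eq_of_testBit_eq
  intro i
  by_cases hi : i < L
  · exact hcon i (mem_range.mpr hi)
  · have hp : 2 ^ L ≤ 2 ^ i := Nat.pow_le_pow_right (by norm_num) (by omega)
    have ha := a.isLt
    have hb := b.isLt
    rw [Nat.testBit_eq_false_of_lt (by omega), Nat.testBit_eq_false_of_lt (by omega)]

/-- deterministic conclusion from the good events -/
lemma cp_det {n k : ℕ} (hk : 3 ≤ k) {c : ℝ}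
    (hc : ∀ {V : Type} [Fintype V] [DecidableEq V] (W₀ B : SimpleGraph V)
      (W : Finset V) (x Δ ν K : ℝ), 1 ≤ x → 1 ≤ Δ → 0 < ν → ν ≤ 1 → 1 ≤ K → Δ ^ 2 ≤ x * ν →
      SuppOn W₀ W → (∀ u ∈ W, ∀ v ∈ W, ¬ B.Adj u v) →
      (∀ v, (dg B v univ : ℝ) ≤ x) → (∀ v, (dg W₀ v univ : ℝ) ≤ Δ) →
      (∀ v, ∀ j, 1 ≤ j → j ≤ 2 * k → ((Ent B W j v).card : ℝ) ≤ ν * x ^ j) →
      (∀ v, v ∉ W → (dg B v W : ℝ) ≤ K) →
      ∀ v, v ∉ W → ((RS W₀ B W k (fun _ => True) v).card : ℝ) ≤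
        c * K * ν * Δ * x ^ (2 * k - 2))
    {W₀ : SimpleGraph (Fin n)} {X W : Finset (Fin n)} (hXW : Disjoint X W) (hW₀ : SuppOn W₀ W)
    {ω : Sym2 (Fin n) → Bool} {p D l ν Δ K η η' R : ℝ} {L : ℕ} (hL : n ≤ 2 ^ L) (hp : 0 ≤ p)
    (hl : 0 ≤ l)
    (E1 : ∀ v, (dg (Gr ω) v univ : ℝ) ≤ 4 * D)
    (E2 : ∀ v, ∀ j ∈ Icc 1 (2 * k), (cnt ω (cpF2 ω X W v j) : ℝ) <
      2 * p * ((cpF2 ω X W v j).card : ℝ) + l)
    (E3 : ∀ v, v ∉ W → (dg (Gr ω) v W : ℝ) ≤ K)
    (E4 : ∀ v, ∀ q ∈ range L ×ˢ (univ : Finset Bool),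
      (cnt ω (cpF4 W₀ ω X W k (fun a => Nat.testBit a.val q.1) q.2 v) : ℝ) <
      2 * p * ((cpF4 W₀ ω X W k (fun a => Nat.testBit a.val q.1) q.2 v).card : ℝ) + l)
    (E5 : ∀ v ∈ X, (1 - η') * (p * ((Xᶜ \ W).card : ℝ)) - l < (dg (Gr ω) v (Xᶜ \ W) : ℝ))
    (E6 : ∀ v, v ∉ X → (1 - η') * (p * (X.card : ℝ)) - l < (dg (Gr ω) v X : ℝ))
    (E7 : ∀ w ∈ W, (cnt ω (cpS w (cpY ω X W w)) : ℝ) <
      2 * p * ((cpS w (cpY ω X W w)).card : ℝ) + l)
    (N1 : 1 ≤ 4 * D) (hΔ : 1 ≤ Δ) (hν : 0 < ν) (hν1 : ν ≤ 1) (hK : 1 ≤ K)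
    (hΔν : Δ ^ 2 ≤ 4 * D * ν) (hdW : ∀ v, (dg W₀ v univ : ℝ) ≤ Δ)
    (N2 : ∀ j, 1 ≤ j → 2 * p * ((4 * D) ^ j * W.card) + l ≤ ν * (4 * D) ^ j)
    (N3 : c * K * ν * Δ * (4 * D) ^ (2 * k - 2) ≤ R)
    (N4 : 2 * (L : ℝ) * (2 * p * R + l) ≤ η * D)
    (N5 : (1 / 2 - η) * D ≤ (1 - η') * (p * ((Xᶜ \ W).card : ℝ)) - l)
    (N6 : (1 / 2 - η) * D ≤ (1 - η') * (p * (X.card : ℝ)) - l - (2 * p * (W.card * (4 * D)) + l)) :
    CleanOK W₀ (Gr ω) X W k η D := by
  classical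
  have hD : 0 ≤ 4 * D := by linarith
  have hsubW : ∀ (G : SimpleGraph (Fin n)) v (A A' : Finset (Fin n)), A ⊆ A' → dg G v A ≤ dg G v A' := by
    intro G v A A' h
    unfold dg
    exact card_le_card (filter_subset_filter _ h)
  have hbip : ∀ v (A : Finset (Fin n)), dg (bip (Gr ω) X) v A ≤ dg (Gr ω) v A := by
    intro v A
    unfold dg
    exact card_le_card (monotone_filter_right _ fun u _ h => h.1)
  have hRS : ∀ v, v ∉ W → ((RS W₀ (bip (Gr ω) X) W k (fun _ => True) v).card : ℝ) ≤ R := by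
    intro v hv
    refine le_trans (hc W₀ (bip (Gr ω) X) W (4 * D) Δ ν K N1 hΔ hν hν1 hK hΔν hW₀ ?_ ?_ hdW ?_ ?_
      v hv) N3
    · intro a ha b hb hab
      have h1 : a ∉ X := fun h => disjoint_left.mp hXW h ha
      have h2 : b ∉ X := fun h => disjoint_left.mp hXW h hb
      exact h1 (hab.2.mpr h2)
    · intro a
      exact le_trans (by exact_mod_cast hbip a univ) (E1 a)
    · intro a j hj1 hj2
      have h1 : ((Ent (bip (Gr ω) X) W j a).card : ℝ) ≤ (cnt ω (cpF2 ω X W a j) : ℝ) := by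
        exact_mod_cast cp_Ent_le ω X W a hj1
      have h2 := E2 a j (mem_Icc.mpr ⟨hj1, hj2⟩)
      have h3 : ((cpF2 ω X W a j).card : ℝ) ≤ (4 * D) ^ j * W.card := by
        have h4 : ((cpF2 ω X W a j).card : ℝ) ≤ ((cpZ ω X W a j).card : ℝ) * (W.card : ℝ) := by
          exact_mod_cast cp_card_F2_le ω X W a j
        exact h4.trans (mul_le_mul_of_nonneg_right (cp_card_Z_le hD E1 j) (Nat.cast_nonneg _))
      have h5 : 2 * p * ((cpF2 ω X W a j).card : ℝ) ≤ 2 * p * ((4 * D) ^ j * W.card) :=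
        mul_le_mul_of_nonneg_left h3 (by positivity)
      have h6 := N2 j hj1
      linarith
    · intro a ha
      exact le_trans (by exact_mod_cast hbip a W) (E3 a ha)
  refine ⟨?_, ?_, ?_, ?_⟩
  · intro v hv
    have h1 := cp_loss_le W₀ ω X W (by omega : 1 ≤ k) v (range L)
      (fun i (a : Fin n) => Nat.testBit a.val i) (fun a b h => cp_sep hL a b h)
    have h2 : (dg (bip (Gr ω) X) v (RS W₀ (bip (Gr ω) X) W k (fun _ => True) v) : ℝ) ≤
        ∑ q ∈ range L ×ˢ (univ : Finset Bool),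
          (cnt ω (cpF4 W₀ ω X W k (fun a => Nat.testBit a.val q.1) q.2 v) : ℝ) := by
      exact_mod_cast h1
    refine h2.trans (le_trans ?_ N4)
    have h3 : ∀ q ∈ range L ×ˢ (univ : Finset Bool),
        (cnt ω (cpF4 W₀ ω X W k (fun a => Nat.testBit a.val q.1) q.2 v) : ℝ) ≤ 2 * p * R + l := by
      intro q hq
      refine (E4 v q hq).le.trans ?_
      have h4 : ((cpF4 W₀ ω X W k (fun a => Nat.testBit a.val q.1) q.2 v).card : ℝ) ≤ R :=
        le_trans (by exact_mod_cast cp_card_F4_le W₀ ω X W k _ _ v) (hRS v hv)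
      have h5 := mul_le_mul_of_nonneg_left h4 (by positivity : 0 ≤ 2 * p)
      linarith
    refine (sum_le_sum h3).trans ?_
    rw [sum_const, nsmul_eq_mul, card_product, card_range, card_univ, Fintype.card_bool]
    push_cast
    linarith
  · intro v hv
    exact N5.trans (E5 v hv).le
  · intro v hv _
    have h1 := (E6 v hv).le
    have h2 : 0 ≤ 2 * p * (W.card * (4 * D)) + l := by positivity
    linarith
  · intro w hw
    have hwX : w ∉ X := fun h => disjoint_left.mp hXW h hw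
    have h1 := (E6 w hwX).le
    have h2 := E7 w hw
    have h3 : (dg (Gr ω) w X : ℝ) ≤ (dg (Gr ω) w (Un (Gr ω) X W w) : ℝ) +
        (cnt ω (cpS w (cpY ω X W w)) : ℝ) := by
      exact_mod_cast cp_degW (ω := ω) hXW hw
    have h4 : ((cpS w (cpY ω X W w)).card : ℝ) ≤ W.card * (4 * D) := by
      rw [cp_card_S]
      exact cp_card_Y_le X W w E1
    have h5 := mul_le_mul_of_nonneg_left h4 (by positivity : 0 ≤ 2 * p)
    linarith

section prob

variable {ι : Type*} [Fintype ι] [DecidableEq ι] {p : ℝ}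

lemma cp_and (h0 : 0 ≤ p) (h1 : p ≤ 1) {A B : (ι → Bool) → Prop} {a b : ℝ}
    (hA : Pr p (fun ω => ¬ A ω) ≤ a) (hB : Pr p (fun ω => ¬ B ω) ≤ b) :
    Pr p (fun ω => ¬ (A ω ∧ B ω)) ≤ a + b := by
  have h : Pr p (fun ω => ¬ (A ω ∧ B ω)) ≤ Pr p (fun ω => ¬ A ω ∨ ¬ B ω) :=
    Pr_mono h0 h1 fun ω hω => not_and_or.mp hω
  exact h.trans ((Pr_or_le h0 h1 _ _).trans (add_le_add hA hB))

lemma cp_forall (h0 : 0 ≤ p) (h1 : p ≤ 1) {κ : Type*} (s : Finset κ)
    {A : κ → (ι → Bool) → Prop} {b m : ℝ} (hb : 0 ≤ b) (hm : (s.card : ℝ) ≤ m)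
    (hA : ∀ a ∈ s, Pr p (fun ω => ¬ A a ω) ≤ b) :
    Pr p (fun ω => ¬ ∀ a ∈ s, A a ω) ≤ m * b := by
  have h : Pr p (fun ω => ¬ ∀ a ∈ s, A a ω) ≤ Pr p (fun ω => ∃ a ∈ s, ¬ A a ω) := by
    refine Pr_mono h0 h1 fun ω hω => ?_
    push Not at hω
    exact hω
  refine h.trans ((Pr_exists_le h0 h1 _ _).trans ((sum_le_sum hA).trans ?_))
  rw [sum_const, nsmul_eq_mul]
  exact mul_le_mul_of_nonneg_right hm hb

end prob

/-- the good events hold with high probability -/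
lemma cp_prob {n k : ℕ} (hk : 3 ≤ k) {W₀ : SimpleGraph (Fin n)} {X W : Finset (Fin n)}
    (hXW : Disjoint X W) {p l η' : ℝ} {L K : ℕ} (h0 : 0 ≤ p) (h1 : p ≤ 1) (hη0 : 0 < η')
    (hη1 : η' ≤ 1) :
    Pr p (fun ω : Sym2 (Fin n) → Bool => ¬ (
      (∀ v, (dg (Gr ω) v univ : ℝ) ≤ 4 * (p * n)) ∧
      (∀ v, ∀ j ∈ Icc 1 (2 * k), (cnt ω (cpF2 ω X W v j) : ℝ) <
        2 * p * ((cpF2 ω X W v j).card : ℝ) + l) ∧
      (∀ v, v ∉ W → (dg (Gr ω) v W : ℝ) ≤ K) ∧
      (∀ v, ∀ q ∈ range L ×ˢ (univ : Finset Bool),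
        (cnt ω (cpF4 W₀ ω X W k (fun a => Nat.testBit a.val q.1) q.2 v) : ℝ) <
        2 * p * ((cpF4 W₀ ω X W k (fun a => Nat.testBit a.val q.1) q.2 v).card : ℝ) + l) ∧
      (∀ v ∈ X, (1 - η') * (p * ((Xᶜ \ W).card : ℝ)) - l < (dg (Gr ω) v (Xᶜ \ W) : ℝ)) ∧
      (∀ v, v ∉ X → (1 - η') * (p * (X.card : ℝ)) - l < (dg (Gr ω) v X : ℝ)) ∧
      (∀ w ∈ W, (cnt ω (cpS w (cpY ω X W w)) : ℝ) <
        2 * p * ((cpS w (cpY ω X W w)).card : ℝ) + l))) ≤
      n * Real.exp (-(p * n)) + (n * ((2 * k : ℕ) * Real.exp (-l)) + (n * (p * W.card) ^ K +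
        (n * ((2 * L : ℕ) * Real.exp (-l)) + (n * Real.exp (-(η' * l)) +
        (n * Real.exp (-(η' * l)) + n * Real.exp (-l)))))) := by
  classical
  have hcard : ∀ s : Finset (Fin n), (s.card : ℝ) ≤ n := by
    intro s
    have := card_le_univ s
    rw [Fintype.card_fin] at this
    exact_mod_cast this
  refine cp_and h0 h1 ?_ (cp_and h0 h1 ?_ (cp_and h0 h1 ?_ (cp_and h0 h1 ?_
    (cp_and h0 h1 ?_ (cp_and h0 h1 ?_ ?_)))))
  · have := Pr_maxdeg (V := Fin n) h0 h1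
    rw [Fintype.card_fin] at this
    rw [mul_comm p (n : ℝ)]
    exact this
  · have := cp_forall (p := p) h0 h1 (univ : Finset (Fin n))
      (A := fun v (ω : Sym2 (Fin n) → Bool) => ∀ j ∈ Icc 1 (2 * k),
        (cnt ω (cpF2 ω X W v j) : ℝ) < 2 * p * ((cpF2 ω X W v j).card : ℝ) + l)
      (b := (2 * k : ℕ) * Real.exp (-l)) (m := n) (by positivity) (hcard _) ?_
    · simpa only [mem_univ, true_implies] using this
    · intro v _
      refine cp_forall h0 h1 (Icc 1 (2 * k)) (Real.exp_pos _).le (by simp) ?_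
      intro j hj
      rw [mem_Icc] at hj
      have := chern_cond h0 h1 (cpT2 W v) (fun ω => cpF2 ω X W v j)
        (fun ω => cp_F2_sub ω X W v hj.1) (cp_F2_dep X W v j) l
      simpa only [not_lt] using this
  · have := cp_forall (p := p) h0 h1 (Wᶜ : Finset (Fin n))
      (A := fun v (ω : Sym2 (Fin n) → Bool) => (dg (Gr ω) v W : ℝ) ≤ K)
      (b := (p * W.card) ^ K) (m := n) (by positivity) (hcard _) ?_
    · simpa only [mem_compl] using this
    · intro v hv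
      rw [mem_compl] at hv
      have h2 := Pr_cnt_ge h0 h1 (cpS v W) K
      rw [cp_card_S] at h2
      refine le_trans (Pr_mono h0 h1 fun ω hω => ?_) (h2.trans ?_)
      · rw [not_le] at hω
        rw [cp_cnt_S ω hv]
        exact_mod_cast hω.le
      · rw [mul_pow, mul_comm]
        refine mul_le_mul_of_nonneg_left ?_ (by positivity)
        exact_mod_cast Nat.choose_le_pow _ _
  · have := cp_forall (p := p) h0 h1 (univ : Finset (Fin n))
      (A := fun v (ω : Sym2 (Fin n) → Bool) => ∀ q ∈ range L ×ˢ (univ : Finset Bool),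
        (cnt ω (cpF4 W₀ ω X W k (fun a => Nat.testBit a.val q.1) q.2 v) : ℝ) <
        2 * p * ((cpF4 W₀ ω X W k (fun a => Nat.testBit a.val q.1) q.2 v).card : ℝ) + l)
      (b := (2 * L : ℕ) * Real.exp (-l)) (m := n) (by positivity) (hcard _) ?_
    · simpa only [mem_univ, true_implies] using this
    · intro v _
      refine cp_forall h0 h1 (range L ×ˢ (univ : Finset Bool)) (Real.exp_pos _).le
        (by simp [card_product, mul_comm]) ?_
      intro q _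
      have := chern_cond h0 h1 (cpT4 (fun a : Fin n => Nat.testBit a.val q.1) q.2 v)
        (fun ω => cpF4 W₀ ω X W k (fun a => Nat.testBit a.val q.1) q.2 v)
        (fun ω => cp_F4_sub W₀ ω X W (by omega) _ _ v) (cp_F4_dep W₀ X W k _ _ v) l
      simpa only [not_lt] using this
  · refine cp_forall h0 h1 X (Real.exp_pos _).le (hcard _) ?_
    intro v hv
    have h2 := chern_lo h0 h1 (cpS v (Xᶜ \ W)) (l := l) hη0 hη1
    rw [cp_card_S] at h2
    refine le_trans (Pr_mono h0 h1 fun ω hω => ?_) h2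
    rw [not_lt] at hω
    rw [cp_cnt_S ω (fun h => (mem_compl.mp (mem_sdiff.mp h).1) hv)]
    exact hω
  · have := cp_forall (p := p) h0 h1 (Xᶜ : Finset (Fin n))
      (A := fun v (ω : Sym2 (Fin n) → Bool) =>
        (1 - η') * (p * (X.card : ℝ)) - l < (dg (Gr ω) v X : ℝ))
      (b := Real.exp (-(η' * l))) (m := n) (Real.exp_pos _).le (hcard _) ?_
    · simpa only [mem_compl] using this
    · intro v hv
      rw [mem_compl] at hv
      have h2 := chern_lo h0 h1 (cpS v X) (l := l) hη0 hη1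
      rw [cp_card_S] at h2
      refine le_trans (Pr_mono h0 h1 fun ω hω => ?_) h2
      rw [not_lt] at hω
      rw [cp_cnt_S ω hv]
      exact hω
  · refine cp_forall h0 h1 W (Real.exp_pos _).le (hcard _) ?_
    intro w hw
    have := chern_cond h0 h1 (cpS w X) (fun ω => cpS w (cpY ω X W w))
      (fun ω => cp_Y_S_sub ω X W w) (cp_Y_dep hXW hw) l
    simpa only [not_lt] using this

end cpmain

section cpnum

open Filter Real Topology

lemma cp_num (k : ℕ) {α ε η η' : ℝ} (C : ℝ) (hα : 0 < α) (hε : 0 < ε) (hη : 0 < η)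
    (hη' : 0 < η') : ∃ n₀ : ℕ, ∀ n ≥ n₀, (8 : ℝ) ≤ (n : ℝ) ∧ 8 * (n : ℝ) ^ (-ε) ≤ 1 ∧
      C ≤ (n : ℝ) ^ (3 / 20 * ε) ∧ 6 * (2 * log (n : ℝ) + 1) * (n : ℝ) ^ (-(ε / 2)) ≤ η ∧
      2 + 2 * (n : ℝ) ^ (α / 2) ≤ η / 2 * (n : ℝ) ^ α ∧ 8 * (n : ℝ) ^ (-ε) ≤ η / 4 ∧
      (2 * (k : ℝ) + 6) * ((n : ℝ) ^ (2 : ℝ) * exp (-(η' * (n : ℝ) ^ (α / 2)))) ≤ 1 / 8 := by
  have h1 : ∀ᶠ x : ℝ in atTop, (8 : ℝ) ≤ x := eventually_ge_atTop 8
  have t2 : Tendsto (fun x : ℝ => x ^ (-ε)) atTop (𝓝 0) := tendsto_rpow_neg_atTop hε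
  have h2 : ∀ᶠ x : ℝ in atTop, 8 * x ^ (-ε) ≤ 1 := by
    have := t2.eventually (eventually_le_nhds (show (0 : ℝ) < 1 / 8 by norm_num))
    filter_upwards [this] with x hx
    linarith
  have h3 : ∀ᶠ x : ℝ in atTop, C ≤ x ^ (3 / 20 * ε) :=
    (tendsto_rpow_atTop (by positivity)).eventually (eventually_ge_atTop C)
  have h4 : ∀ᶠ x : ℝ in atTop, 6 * (2 * log x + 1) * x ^ (-(ε / 2)) ≤ η := by
    have t : Tendsto (fun x : ℝ => x ^ (-(ε / 4))) atTop (𝓝 0) :=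
      tendsto_rpow_neg_atTop (by positivity)
    have := t.eventually (eventually_le_nhds
      (show (0 : ℝ) < η / (6 * (8 / ε + 1)) by positivity))
    filter_upwards [this, eventually_ge_atTop (1 : ℝ)] with x hx hx1
    have hx0 : 0 < x := by linarith
    have hlog : log x ≤ x ^ (ε / 4) / (ε / 4) := log_le_rpow_div hx0.le (by positivity)
    have hone : 1 ≤ x ^ (ε / 4) := one_le_rpow hx1 (by positivity)
    have e1 : 6 * (2 * log x + 1) ≤ 6 * (8 / ε + 1) * x ^ (ε / 4) := by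
      have : 2 * (x ^ (ε / 4) / (ε / 4)) = 8 / ε * x ^ (ε / 4) := by
        field_simp
        ring
      nlinarith
    calc 6 * (2 * log x + 1) * x ^ (-(ε / 2)) ≤ 6 * (8 / ε + 1) * x ^ (ε / 4) * x ^ (-(ε / 2)) :=
          mul_le_mul_of_nonneg_right e1 (rpow_nonneg hx0.le _)
      _ = 6 * (8 / ε + 1) * x ^ (-(ε / 4)) := by
          rw [mul_assoc, ← rpow_add hx0]
          congr 2
          ring
      _ ≤ 6 * (8 / ε + 1) * (η / (6 * (8 / ε + 1))) :=
          mul_le_mul_of_nonneg_left hx (by positivity)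
      _ = η := by field_simp
  have h5 : ∀ᶠ x : ℝ in atTop, 2 + 2 * x ^ (α / 2) ≤ η / 2 * x ^ α := by
    have := (tendsto_rpow_atTop (show 0 < α / 2 by positivity)).eventually
      (eventually_ge_atTop (max 1 (8 / η)))
    filter_upwards [this, eventually_ge_atTop (1 : ℝ)] with x hx hx1
    have hx0 : 0 < x := by linarith
    have e : x ^ α = x ^ (α / 2) * x ^ (α / 2) := by
      rw [← rpow_add hx0]
      congr 1
      ring
    rw [e]
    have a1 : 1 ≤ x ^ (α / 2) := (le_max_left _ _).trans hx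
    have a2 : 8 / η ≤ x ^ (α / 2) := (le_max_right _ _).trans hx
    have a3 : 8 ≤ η * x ^ (α / 2) := by
      rw [div_le_iff₀ hη] at a2
      linarith
    nlinarith
  have h6 : ∀ᶠ x : ℝ in atTop, 8 * x ^ (-ε) ≤ η / 4 := by
    have := t2.eventually (eventually_le_nhds (show (0 : ℝ) < η / 32 by positivity))
    filter_upwards [this] with x hx
    linarith
  have h7 : ∀ᶠ x : ℝ in atTop,
      (2 * (k : ℝ) + 6) * (x ^ (2 : ℝ) * exp (-(η' * x ^ (α / 2)))) ≤ 1 / 8 := by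
    have t := (tendsto_rpow_mul_exp_neg_mul_atTop_nhds_zero (4 / α) η' hη').comp
      (tendsto_rpow_atTop (show 0 < α / 2 by positivity))
    have := t.eventually (eventually_le_nhds
      (show (0 : ℝ) < 1 / 8 / (2 * (k : ℝ) + 6) by positivity))
    filter_upwards [this, eventually_ge_atTop (1 : ℝ)] with x hx hx1
    have hx0 : 0 < x := by linarith
    simp only [Function.comp] at hx
    have e : (x ^ (α / 2)) ^ (4 / α) = x ^ (2 : ℝ) := by
      rw [← rpow_mul hx0.le]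
      congr 1
      field_simp
      norm_num
    rw [e, neg_mul] at hx
    calc (2 * (k : ℝ) + 6) * (x ^ (2 : ℝ) * exp (-(η' * x ^ (α / 2))))
        ≤ (2 * (k : ℝ) + 6) * (1 / 8 / (2 * (k : ℝ) + 6)) :=
          mul_le_mul_of_nonneg_left hx (by positivity)
      _ = 1 / 8 := by field_simp
  have hall := (h1.and (h2.and (h3.and (h4.and (h5.and (h6.and h7))))))
  have := tendsto_natCast_atTop_atTop.eventually hall
  rw [eventually_atTop] at this
  exact this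

end cpnum
theorem clean_prob (k : ℕ) (hk : 3 ≤ k) (α ε δ η : ℝ) (hα : 0 < α) (hα1 : α ≤ 1 / 2)
    (hαk : α * (2 * k - 2) = 1) (hε : 0 < ε) (hε1 : ε ≤ α / 4) (hδ : 0 < δ)
    (hδε : (2 * k - 2) * δ ≤ ε / 4) (hη : 0 < η) :
    ∃ n₀ : ℕ, ∀ n ≥ n₀, ∀ p : ℝ, 0 ≤ p → p ≤ 1 →
      (n : ℝ) ^ α ≤ p * n → p * n ≤ (n : ℝ) ^ (α + δ) →
      ∀ (X W : Finset (Fin n)) (W₀ : SimpleGraph (Fin n)), Disjoint X W →
      (n : ℝ) / 2 - 1 ≤ X.card → (n : ℝ) / 2 - 1 ≤ (Xᶜ).card → SuppOn W₀ W →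
      (W.card : ℝ) * (p * n) ≤ (n : ℝ) ^ (1 - ε) →
      (∀ v, (dg W₀ v univ : ℝ) ≤ (n : ℝ) ^ (ε / 10)) →
      3 / 4 ≤ Pr p (fun ω : Sym2 (Fin n) → Bool => CleanOK W₀ (Gr ω) X W k η (p * n)) := by
  obtain ⟨c, hc0, hc⟩ := clean_count k hk
  set Kn : ℕ := ⌈4 / ε⌉₊ with hKn
  set η' : ℝ := min η 1 / 2 with hη'
  have hη'0 : 0 < η' := by
    rw [hη']
    have : 0 < min η 1 := lt_min hη one_pos
    positivity
  have hη'1 : η' ≤ 1 / 2 := by
    rw [hη']
    have := min_le_right η 1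
    linarith
  have hη'2 : η' ≤ η / 2 := by
    rw [hη']
    have := min_le_left η 1
    linarith
  obtain ⟨n₀, hn₀⟩ := cp_num k (c * Kn * 8 * 4 ^ (2 * k - 2)) hα hε hη hη'0
  refine ⟨n₀, fun n hn p h0 h1 hlo hhi X W W₀ hXW hX hXc hW₀ hWc hdW => ?_⟩
  obtain ⟨b1, b2, b3, b4, b5, b6, b7⟩ := hn₀ n hn
  set N : ℝ := (n : ℝ) with hN
  set D : ℝ := p * N with hD
  have hN0 : 0 < N := by linarith
  have hN1 : 1 ≤ N := by linarith
  have hKε : 4 ≤ ε * Kn := by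
    have := Nat.le_ceil (4 / ε)
    rw [div_le_iff₀ hε] at this
    rw [mul_comm]
    exact this
  have hKn1 : (1 : ℝ) ≤ Kn := by
    have : 0 < Kn := by
      rw [hKn]
      exact Nat.ceil_pos.mpr (by positivity)
    exact_mod_cast this
  set l : ℝ := N ^ (α / 2) with hl
  set L : ℕ := Nat.log 2 n + 1 with hL
  have hl0 : 0 ≤ l := Real.rpow_nonneg hN0.le _
  have hD1 : N ^ α ≤ D := hlo
  have hNα1 : 1 ≤ N ^ α := Real.one_le_rpow hN1 hα.le
  have hD0 : 0 < D := by linarith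
  have hnL : n ≤ 2 ^ L := (Nat.lt_pow_succ_log_self (by norm_num) n).le
  have hn0 : 0 < n := by
    have : (0 : ℝ) < (n : ℝ) := hN0
    exact_mod_cast this
  -- p |W| ≤ N ^ (-ε)
  have hpW : p * W.card ≤ N ^ (-ε) := by
    have e : p * W.card = (W.card * D) / N := by
      rw [hD]; field_simp
    rw [e, div_le_iff₀ hN0, ← Real.rpow_add_one hN0.ne']
    have : (-ε + 1 : ℝ) = 1 - ε := by ring
    rw [this]
    exact hWc
  have hpW0 : 0 ≤ p * (W.card : ℝ) := by positivity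
  -- L bound
  have hLlog : (L : ℝ) ≤ 2 * Real.log N + 1 := by
    have e1 : (Nat.log 2 n : ℝ) ≤ Real.logb 2 n := by
      have := Real.natLog_le_logb n 2
      exact_mod_cast this
    have e2 : Real.logb 2 n ≤ 2 * Real.log N := by
      rw [Real.logb, div_le_iff₀ (Real.log_pos (by norm_num))]
      have h3 : 0 ≤ Real.log N := Real.log_nonneg hN1
      have h4 : (0.6931471803 : ℝ) < Real.log 2 := Real.log_two_gt_d9
      have h5 : Real.log N * 1 ≤ Real.log N * (2 * Real.log 2) :=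
        mul_le_mul_of_nonneg_left (by linarith) h3
      linarith
    rw [hL]
    push_cast
    linarith
  have hLN : (L : ℝ) ≤ N := by
    have : L ≤ n := by
      rw [hL]
      exact Nat.log_lt_self 2 hn0.ne'
    exact (Nat.cast_le (α := ℝ)).mpr this
  -- l ≤ N^(-α/2) D
  have hlD : l ≤ N ^ (-(ε / 2)) * D := by
    have e1 : N ^ (α / 2) ≤ N ^ (-(ε / 2)) * N ^ α := by
      rw [← Real.rpow_add hN0]
      exact Real.rpow_le_rpow_of_exponent_le hN1 (by linarith)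
    exact e1.trans (mul_le_mul_of_nonneg_left hD1 (Real.rpow_nonneg hN0.le _))
  have hprob := cp_prob (n := n) (k := k) hk (W₀ := W₀) (X := X) (W := W) hXW (p := p) (l := l)
    (η' := η') (L := L) (K := Kn) h0 h1 hη'0 (by linarith)
  have hbound : n * Real.exp (-(p * n)) + (n * ((2 * k : ℕ) * Real.exp (-l)) +
      (n * (p * W.card) ^ Kn + (n * ((2 * L : ℕ) * Real.exp (-l)) +
        (n * Real.exp (-(η' * l)) + (n * Real.exp (-(η' * l)) + n * Real.exp (-l)))))) ≤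
        (1 / 4 : ℝ) := by
    rw [← hN, ← hD]
    set E := Real.exp (-(η' * l)) with hE
    have hE0 : 0 < E := Real.exp_pos _
    have x1 : Real.exp (-l) ≤ E :=
      Real.exp_le_exp.mpr (neg_le_neg (mul_le_of_le_one_left hl0 (by linarith)))
    have x2 : Real.exp (-D) ≤ E := by
      refine le_trans (Real.exp_le_exp.mpr ?_) x1
      have : l ≤ N ^ α := Real.rpow_le_rpow_of_exponent_le hN1 (by linarith)
      linarith
    have x3 : (p * W.card) ^ Kn ≤ N ^ (-4 : ℝ) := by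
      calc (p * W.card) ^ Kn ≤ (N ^ (-ε)) ^ Kn := pow_le_pow_left₀ hpW0 hpW _
        _ = N ^ (-ε * Kn) := by rw [← Real.rpow_natCast, ← Real.rpow_mul hN0.le]
        _ ≤ N ^ (-4 : ℝ) := Real.rpow_le_rpow_of_exponent_le hN1 (by linarith)
    have x4 : N * (p * W.card) ^ Kn ≤ 1 / 8 := by
      calc N * (p * W.card) ^ Kn ≤ N * N ^ (-4 : ℝ) := mul_le_mul_of_nonneg_left x3 hN0.le
        _ = N ^ (-3 : ℝ) := by
          rw [mul_comm, ← Real.rpow_add_one hN0.ne']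
          norm_num
        _ ≤ N ^ (-1 : ℝ) := Real.rpow_le_rpow_of_exponent_le hN1 (by norm_num)
        _ = 1 / N := by rw [Real.rpow_neg_one, one_div]
        _ ≤ 1 / 8 := one_div_le_one_div_of_le (by norm_num) b1
    have x5 : N * E * (2 * k + 2 * L + 4) ≤ 1 / 8 := by
      have hk0 : (0 : ℝ) ≤ k := Nat.cast_nonneg _
      calc N * E * (2 * k + 2 * L + 4) ≤ N * E * ((2 * k + 6) * N) := by
            refine mul_le_mul_of_nonneg_left ?_ (by positivity)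
            have z1 : (2 * (k : ℝ) + 4) * 1 ≤ (2 * (k : ℝ) + 4) * N :=
              mul_le_mul_of_nonneg_left hN1 (by positivity)
            linarith
        _ = (2 * (k : ℝ) + 6) * (N ^ (2 : ℝ) * E) := by
            have : N ^ (2 : ℝ) = N * N := by
              rw [show (2 : ℝ) = ((2 : ℕ) : ℝ) by norm_num, Real.rpow_natCast]
              ring
            rw [this]
            ring
        _ ≤ 1 / 8 := b7
    have y1 := mul_le_mul_of_nonneg_left x2 hN0.le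
    have y2 := mul_le_mul_of_nonneg_left x1 hN0.le
    have y3 : N * (((2 * k : ℕ) : ℝ) * Real.exp (-l)) ≤ N * (((2 * k : ℕ) : ℝ) * E) :=
      mul_le_mul_of_nonneg_left (mul_le_mul_of_nonneg_left x1 (Nat.cast_nonneg _)) hN0.le
    have y4 : N * (((2 * L : ℕ) : ℝ) * Real.exp (-l)) ≤ N * (((2 * L : ℕ) : ℝ) * E) :=
      mul_le_mul_of_nonneg_left (mul_le_mul_of_nonneg_left x1 (Nat.cast_nonneg _)) hN0.le
    push_cast at y3 y4 ⊢
    have z : N * E * (2 * k + 2 * L + 4) = N * E + N * (2 * k * E) + N * (2 * L * E) + N * E +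
        N * E + N * E := by ring
    linarith
  have hfin := hprob.trans hbound
  rw [Pr_not, sub_le_comm] at hfin
  refine le_trans (le_trans (by norm_num) hfin) (Pr_mono h0 h1 fun ω hω => ?_)
  obtain ⟨E1, E2, E3, E4, E5, E6, E7⟩ := hω
  have h4D : 0 < 4 * D := by linarith
  have h4D1 : 1 ≤ 4 * D := by linarith
  have hNε0 : 0 < N ^ (-ε) := Real.rpow_pos_of_pos hN0 _
  refine cp_det (K := Kn) (Δ := N ^ (ε / 10)) (ν := 8 * N ^ (-ε)) (R := N ^ (1 - ε / 2)) hk hc hXW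
    hW₀ hnL h0 hl0 E1 E2 E3 E4 E5 E6 E7 h4D1 (Real.one_le_rpow hN1 (by positivity))
    (by positivity) b2 hKn1 ?_ hdW ?_ ?_ ?_ ?_ ?_
  · -- Δ ^ 2 ≤ 4 D ν
    have e1 : (N ^ (ε / 10)) ^ 2 = N ^ (ε / 5) := by
      rw [← Real.rpow_natCast, ← Real.rpow_mul hN0.le]
      congr 1
      push_cast
      ring
    have e2 : N ^ (ε / 5) ≤ N ^ α * N ^ (-ε) := by
      rw [← Real.rpow_add hN0]
      exact Real.rpow_le_rpow_of_exponent_le hN1 (by linarith)
    have e3 : N ^ α * N ^ (-ε) ≤ D * N ^ (-ε) := mul_le_mul_of_nonneg_right hD1 hNε0.le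
    rw [e1]
    have e4 : 4 * D * (8 * N ^ (-ε)) = 32 * (D * N ^ (-ε)) := by ring
    rw [e4]
    linarith [mul_pos hD0 hNε0]
  · -- N2
    intro j hj
    have hj1 : 4 * D ≤ (4 * D) ^ j := by
      calc 4 * D = (4 * D) ^ 1 := (pow_one _).symm
        _ ≤ _ := pow_le_pow_right₀ h4D1 hj
    have hjp : 0 < (4 * D) ^ j := by positivity
    have e1 : 2 * p * ((4 * D) ^ j * W.card) ≤ 2 * N ^ (-ε) * (4 * D) ^ j := by
      have h5 := mul_le_mul_of_nonneg_right hpW hjp.le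
      have h6 : 2 * p * ((4 * D) ^ j * W.card) = 2 * (p * W.card * (4 * D) ^ j) := by ring
      have h7 : 2 * N ^ (-ε) * (4 * D) ^ j = 2 * (N ^ (-ε) * (4 * D) ^ j) := by ring
      rw [h6, h7]
      exact mul_le_mul_of_nonneg_left h5 (by norm_num)
    have e2 : l ≤ N ^ (-ε) * N ^ α := by
      rw [hl, ← Real.rpow_add hN0]
      exact Real.rpow_le_rpow_of_exponent_le hN1 (by linarith)
    have e3 : N ^ (-ε) * N ^ α ≤ N ^ (-ε) * (4 * D) ^ j :=
      mul_le_mul_of_nonneg_left (by linarith) hNε0.le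
    have e4 : 2 * N ^ (-ε) * (4 * D) ^ j = 2 * (N ^ (-ε) * (4 * D) ^ j) := by ring
    have e5 : 8 * N ^ (-ε) * (4 * D) ^ j = 8 * (N ^ (-ε) * (4 * D) ^ j) := by ring
    rw [e4] at e1
    rw [e5]
    linarith [mul_pos hNε0 hjp]
  · -- N3
    have e0 : (4 * D) ^ (2 * k - 2) ≤ 4 ^ (2 * k - 2) * N ^ (1 + ε / 4) := by
      rw [mul_pow]
      refine mul_le_mul_of_nonneg_left ?_ (by positivity)
      calc D ^ (2 * k - 2) ≤ (N ^ (α + δ)) ^ (2 * k - 2) := pow_le_pow_left₀ hD0.le hhi _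
        _ = N ^ ((α + δ) * ((2 * k - 2 : ℕ) : ℝ)) := by
            rw [← Real.rpow_natCast, ← Real.rpow_mul hN0.le]
        _ ≤ N ^ (1 + ε / 4) := by
            refine Real.rpow_le_rpow_of_exponent_le hN1 ?_
            rw [Nat.cast_sub (by omega)]
            push_cast
            have z : (α + δ) * (2 * (k : ℝ) - 2) = α * (2 * k - 2) + (2 * k - 2) * δ := by ring
            linarith
    have hA : 0 ≤ c * Kn * (8 * N ^ (-ε)) * N ^ (ε / 10) := by positivity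
    calc c * Kn * (8 * N ^ (-ε)) * N ^ (ε / 10) * (4 * D) ^ (2 * k - 2)
        ≤ c * Kn * (8 * N ^ (-ε)) * N ^ (ε / 10) * (4 ^ (2 * k - 2) * N ^ (1 + ε / 4)) :=
          mul_le_mul_of_nonneg_left e0 hA
      _ = (c * Kn * 8 * 4 ^ (2 * k - 2)) * (N ^ (-ε) * N ^ (ε / 10) * N ^ (1 + ε / 4)) := by ring
      _ ≤ N ^ (3 / 20 * ε) * (N ^ (-ε) * N ^ (ε / 10) * N ^ (1 + ε / 4)) :=
          mul_le_mul_of_nonneg_right b3 (by positivity)
      _ = N ^ (1 - ε / 2) := by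
          rw [← Real.rpow_add hN0, ← Real.rpow_add hN0, ← Real.rpow_add hN0]
          congr 1
          ring
  · -- N4
    have e1 : p * N ^ (1 - ε / 2) = D * N ^ (-(ε / 2)) := by
      rw [hD, show (1 - ε / 2 : ℝ) = 1 + (-(ε / 2)) by ring, Real.rpow_add hN0, Real.rpow_one]
      ring
    have hq : 0 < N ^ (-(ε / 2)) := Real.rpow_pos_of_pos hN0 _
    have e2 : 2 * p * N ^ (1 - ε / 2) + l ≤ 3 * (N ^ (-(ε / 2)) * D) := by
      have : 2 * p * N ^ (1 - ε / 2) = 2 * (D * N ^ (-(ε / 2))) := by rw [← e1]; ring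
      rw [this]
      linarith
    calc 2 * (L : ℝ) * (2 * p * N ^ (1 - ε / 2) + l)
        ≤ 2 * (L : ℝ) * (3 * (N ^ (-(ε / 2)) * D)) :=
          mul_le_mul_of_nonneg_left e2 (by positivity)
      _ = (6 * (L : ℝ) * N ^ (-(ε / 2))) * D := by ring
      _ ≤ (6 * (2 * Real.log N + 1) * N ^ (-(ε / 2))) * D := by
          refine mul_le_mul_of_nonneg_right (mul_le_mul_of_nonneg_right ?_ hq.le) hD0.le
          linarith
      _ ≤ η * D := mul_le_mul_of_nonneg_right b4 hD0.le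
  · -- N5
    have hc1 : ((Xᶜ).card : ℝ) - W.card ≤ ((Xᶜ \ W).card : ℝ) := by
      have := le_card_sdiff W (Xᶜ)
      have h2 : (Xᶜ).card ≤ (Xᶜ \ W).card + W.card := by omega
      have h3 : ((Xᶜ).card : ℝ) ≤ ((Xᶜ \ W).card : ℝ) + (W.card : ℝ) := by exact_mod_cast h2
      linarith
    have e1 : D / 2 - 2 ≤ p * ((Xᶜ \ W).card : ℝ) := by
      have h2 : N / 2 - 1 - W.card ≤ ((Xᶜ \ W).card : ℝ) := by linarith
      have h3 := mul_le_mul_of_nonneg_left h2 h0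
      have h4 : p * W.card ≤ 1 := by linarith
      have h5 : p * (N / 2 - 1 - W.card) = D / 2 - p - p * W.card := by rw [hD]; ring
      linarith
    have e2 : (1 - η') * (D / 2 - 2) ≤ (1 - η') * (p * ((Xᶜ \ W).card : ℝ)) :=
      mul_le_mul_of_nonneg_left e1 (by linarith)
    have e3 : η / 2 * N ^ α ≤ η / 2 * D := mul_le_mul_of_nonneg_left hD1 (by linarith)
    have e4 : η' * D ≤ η / 2 * D := mul_le_mul_of_nonneg_right hη'2 hD0.le
    have e5 : (1 - η') * (D / 2 - 2) = D / 2 - η' * D / 2 - 2 + 2 * η' := by ring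
    have e6 : 0 < η * D := mul_pos hη hD0
    have e7 : (1 / 2 - η) * D = D / 2 - η * D := by ring
    rw [e7]
    linarith
  · -- N6
    have e1 : D / 2 - 1 ≤ p * (X.card : ℝ) := by
      have h3 := mul_le_mul_of_nonneg_left hX h0
      have h5 : p * (N / 2 - 1) = D / 2 - p := by rw [hD]; ring
      linarith
    have e2 : (1 - η') * (D / 2 - 1) ≤ (1 - η') * (p * (X.card : ℝ)) :=
      mul_le_mul_of_nonneg_left e1 (by linarith)
    have e3 : η / 2 * N ^ α ≤ η / 2 * D := mul_le_mul_of_nonneg_left hD1 (by linarith)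
    have e4 : η' * D ≤ η / 2 * D := mul_le_mul_of_nonneg_right hη'2 hD0.le
    have e5 : 2 * p * (W.card * (4 * D)) ≤ η / 4 * D := by
      have h5 := mul_le_mul_of_nonneg_right hpW hD0.le
      have h6 := mul_le_mul_of_nonneg_right b6 hD0.le
      have h7 : 2 * p * (W.card * (4 * D)) = 8 * (p * W.card * D) := by ring
      rw [h7]
      linarith
    have e6 : (1 - η') * (D / 2 - 1) = D / 2 - η' * D / 2 - 1 + η' := by ring
    have e7 : 0 < η * D := mul_pos hη hD0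
    have e8 : (1 / 2 - η) * D = D / 2 - η * D := by ring
    rw [e8]
    linarith

end Pool.MP_1bacea_co
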