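import Pool.Agent.Lib.MP_1bacea_co.Defs

/-!
# Low/LDefs : definitions for the lower bound part (final)
-/

set_option autoImplicit false

open Finset

namespace Pool.MP_1bacea_co

/-- Configuration equal to `ω₁` on `S` and to `ω₂` off `S`. -/
def mix {ι : Type*} [DecidableEq ι] (S : Finset ι) (ω₁ ω₂ : ι → Bool) : ι → Bool :=
  fun i => if i ∈ S then ω₁ i else ω₂ i

/-- Number of elements of `T` that are switched on. -/
def cnt {ι : Type*} (ω : ι → Bool) (T : Finset ι) : ℕ := (T.filter (fun i => ω i = true)).card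

section
variable {V : Type*} [Fintype V] [DecidableEq V]

/-- The bipartite graph of the edges of `G` between `X` and its complement. -/
def bip (G : SimpleGraph V) (X : Finset V) : SimpleGraph V where
  Adj u v := G.Adj u v ∧ (u ∈ X ↔ v ∉ X)
  symm := ⟨fun u v h => ⟨h.1.symm, by tauto⟩⟩
  loopless := ⟨fun u h => G.loopless.irrefl u h.1⟩

open scoped Classical in
/-- Vertices `w ∈ W`, `w ≠ v`, such that there is a `B`-walk `v = u 0, u 1, ..., u j, u (j+1) = w` with
`u 1, ..., u j ∉ W`. -/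
noncomputable def Ent (B : SimpleGraph V) (W : Finset V) (j : ℕ) (v : V) : Finset V :=
  W.filter (fun w => w ≠ v ∧ ∃ u : ℕ → V, u 0 = v ∧ u (j + 1) = w ∧
    (∀ i, 1 ≤ i → i ≤ j → u i ∉ W) ∧ ∀ i ≤ j, B.Adj (u i) (u (i + 1)))

open scoped Classical in
/-- End vertices of paths with `2k` steps starting at `v` in `W₀ ⊔ B`, whose first step goes to a
vertex with property `A`, which use a step inside `W`, and which either do not enter `W` with the
first step or have the pattern `u (2k-2) ∈ W`, `u (2k-1), u (2k) ∉ W`. -/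
noncomputable def RS (W₀ B : SimpleGraph V) (W : Finset V) (k : ℕ) (A : V → Prop) (v : V) :
    Finset V :=
  univ.filter (fun y => ∃ u : ℕ → V, u 0 = v ∧ u (2 * k) = y ∧ A (u 1) ∧
    (∀ i < 2 * k, (W₀ ⊔ B).Adj (u i) (u (i + 1))) ∧
    (∀ i ≤ 2 * k, ∀ j ≤ 2 * k, u i = u j → i = j) ∧
    (∃ i < 2 * k, u i ∈ W ∧ u (i + 1) ∈ W) ∧
    (u 1 ∉ W ∨ (u (2 * k - 2) ∈ W ∧ u (2 * k - 1) ∉ W ∧ u (2 * k) ∉ W)))

/-- `W₀` is a graph on the vertex set `W` (all other vertices are isolated). -/
def SuppOn (W₀ : SimpleGraph V) (W : Finset V) : Prop := ∀ u v, W₀.Adj u v → u ∈ W ∧ v ∈ W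

open scoped Classical in
/-- Vertices of `X` whose only possible neighbour in `W` is `w`. -/
noncomputable def Un (G : SimpleGraph V) (X W : Finset V) (w : V) : Finset V :=
  X.filter (fun x => ∀ w' ∈ W, G.Adj x w' → w' = w)

/-- Deterministic properties of the bipartite random part used in the cleaning step. -/
structure CleanOK (W₀ G : SimpleGraph V) (X W : Finset V) (k : ℕ) (η D : ℝ) : Prop where
  /-- few vertices reachable by dangerous paths among the neighbours of `v` -/
  loss : ∀ v, v ∉ W → (dg (bip G X) v (RS W₀ (bip G X) W k (fun _ => True) v) : ℝ) ≤ η * D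
  degX : ∀ v ∈ X, (1 / 2 - η) * D ≤ (dg G v (Xᶜ \ W) : ℝ)
  degY : ∀ v, v ∉ X → v ∉ W → (1 / 2 - η) * D ≤ (dg G v X : ℝ)
  degW : ∀ w ∈ W, (1 / 2 - η) * D ≤ (dg G w (Un G X W w) : ℝ)

end

end Pool.MP_1bacea_co
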