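import Pool.Agent.Lib.MP_1bacea_co.Low.ThmB
import Pool.Agent.Lib.MP_1bacea_co.Bridge

/-!
# Low/NotWhp : the lower bound in terms of Mathlib's binomial random graph
-/

set_option autoImplicit false

open Finset Filter Topology

namespace Pool.MP_1bacea_co

private theorem nw_ncard {V : Type*} [Fintype V] [DecidableEq V] (G : SimpleGraph V) (v : V) :
    (G.neighborSet v).ncard = dg G v univ := by
  classical
  unfold dg
  rw [← Set.ncard_coe_finset]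
  congr 1
  ext u
  simp

/-- Below the exponent, arbitrarily often, the chromatic number is unbounded. -/
theorem not_whp (k : ℕ) (hk : 3 ≤ k) (p : ℕ → unitInterval)
    (hp : Tendsto (fun n : ℕ => (p n : ℝ) * (n : ℝ) ^ ((2 * (k : ℝ) - 3) / (2 * k - 2)))
      atTop atTop)
    (hfreq : ∀ δ : ℝ, 0 < δ → ∃ᶠ n : ℕ in atTop,
      (p n : ℝ) ≤ (n : ℝ) ^ (-((2 * (k : ℝ) - 3) / (2 * k - 2)) + δ))
    (d : ℝ) (hd : d < 1 / 2) (C : ℕ) :
    ¬ Tendsto (fun n => (SimpleGraph.binomialRandom (Fin n) (p n)).real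
      {Γ | ∀ G ≤ Γ, (SimpleGraph.cycleGraph (2 * k + 1)).Free G →
        (∀ v, d * p n * n ≤ ((G.neighborSet v).ncard : ℝ)) → G.Colorable C}) atTop (𝓝 1) := by
  intro hT
  have hkR : (3 : ℝ) ≤ k := by exact_mod_cast hk
  obtain ⟨δ, n₀, hδ, hB⟩ := thmB k hk C d hd
  have h1 : ∀ᶠ n : ℕ in atTop, 1 / 2 < (SimpleGraph.binomialRandom (Fin n) (p n)).real
      {Γ | ∀ G ≤ Γ, (SimpleGraph.cycleGraph (2 * k + 1)).Free G →
        (∀ v, d * p n * n ≤ ((G.neighborSet v).ncard : ℝ)) → G.Colorable C} :=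
    hT.eventually (lt_mem_nhds (by norm_num))
  have h2 : ∀ᶠ n : ℕ in atTop, (1 : ℝ) ≤ (p n : ℝ) * (n : ℝ) ^ ((2 * (k : ℝ) - 3) / (2 * k - 2)) :=
    hp.eventually_ge_atTop 1
  have h3 := (hfreq δ hδ).and_eventually (h1.and (h2.and (eventually_ge_atTop (max n₀ 1))))
  obtain ⟨n, hfr, hhalf, hge, hn⟩ := h3.exists
  have hn₀ : n₀ ≤ n := le_trans (le_max_left _ _) hn
  have hn1 : 1 ≤ n := le_trans (le_max_right _ _) hn
  have hnR : (0 : ℝ) < n := by exact_mod_cast hn1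
  have hk2 : (2 * (k : ℝ) - 2) ≠ 0 := by linarith
  have hexp : 1 - (2 * (k : ℝ) - 3) / (2 * k - 2) = 1 / (2 * k - 2) := by
    rw [eq_div_iff hk2, sub_mul, div_mul_cancel₀ _ hk2]
    ring
  have hlo : (n : ℝ) ^ (1 / (2 * (k : ℝ) - 2)) ≤ (p n : ℝ) * n := by
    rw [← hexp, Real.rpow_sub hnR, Real.rpow_one, div_le_iff₀ (Real.rpow_pos_of_pos hnR _)]
    calc (n : ℝ) = 1 * n := (one_mul _).symm
      _ ≤ ((p n : ℝ) * (n : ℝ) ^ ((2 * (k : ℝ) - 3) / (2 * k - 2))) * n :=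
          mul_le_mul_of_nonneg_right hge hnR.le
      _ = _ := by ring
  have hhi : (p n : ℝ) * n ≤ (n : ℝ) ^ (1 / (2 * (k : ℝ) - 2) + δ) := by
    have : (1 / (2 * (k : ℝ) - 2) + δ) = (-((2 * (k : ℝ) - 3) / (2 * k - 2)) + δ) + 1 := by
      rw [← hexp]; ring
    rw [this, Real.rpow_add hnR _ 1, Real.rpow_one]
    exact mul_le_mul_of_nonneg_right hfr hnR.le
  have hP := hB n hn₀ (p n) (p n).2.1 (p n).2.2 hlo hhi
  rw [binomial_eq_Pr (p n) (fun Γ => ∀ G ≤ Γ, (SimpleGraph.cycleGraph (2 * k + 1)).Free G →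
        (∀ v, d * p n * n ≤ ((G.neighborSet v).ncard : ℝ)) → G.Colorable C)] at hhalf
  have hnot := Pr_not (p n : ℝ) (fun ω : Sym2 (Fin n) → Bool => ∀ G ≤ Gr ω,
    (SimpleGraph.cycleGraph (2 * k + 1)).Free G →
        (∀ v, d * p n * n ≤ ((G.neighborSet v).ncard : ℝ)) → G.Colorable C)
  have hle : Pr (p n : ℝ) (fun ω : Sym2 (Fin n) → Bool => ∃ G ≤ Gr ω,
        (SimpleGraph.cycleGraph (2 * k + 1)).Free G ∧
        (∀ v, d * ((p n : ℝ) * n) ≤ (dg G v univ : ℝ)) ∧ ¬ G.Colorable C) ≤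
      Pr (p n : ℝ) (fun ω : Sym2 (Fin n) → Bool => ¬ ∀ G ≤ Gr ω,
    (SimpleGraph.cycleGraph (2 * k + 1)).Free G →
        (∀ v, d * p n * n ≤ ((G.neighborSet v).ncard : ℝ)) → G.Colorable C) := by
    refine Pr_mono (p n).2.1 (p n).2.2 ?_
    rintro ω ⟨G, hG, hf, hdg, hc⟩ hall
    refine hc (hall G hG hf ?_)
    intro v
    rw [nw_ncard, mul_assoc]
    exact hdg v
  linarith

end Pool.MP_1bacea_co
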