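import Pool.Agent.Lib.MP_1bacea_co.Low.LDefs
import Pool.Agent.Lib.MP_1bacea_co.Low.LProb

/-!
# Low/OneStep : adding one more class of the blown-up template

Let `s = D₀ b`, `S i = ⋃_d β i d` (disjoint blocks of size `b`), `M = j D₀` the number of blocks,
`q₀ = 1 - (1-p)^b`, `π = q₀^M`.  A vertex `a ∈ A` *qualifies* if it has a neighbour in every
block; the events are determined by the disjoint pair sets `{s(a,x) : x ∈ ⋃ S i}` and have
probability exactly `π` (`Pr_forall_blocks`, `Pr_all_off`).  `2 s ≤ |A| π ≤ 3 s`.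
With probability at least `1 - err` all of the following hold:
(1) at least `s` vertices of `A` qualify (`Pr_blocks_lt`);
(2) for every `i` and `I ⊆ S i` with `|I| ≥ θ s` there are fewer than `g = ⌈θ s⌉` qualifying
    vertices without a neighbour in `I`.  Proof: for one `a`,
    `P(a qualifies, no neighbour in I) ≤ q₀^{M-D₀} ∏_d p (b - |I ∩ β i d|)`, and
    `q₀ ≥ p b (1 - p b)`, so this is `≤ π (1-pb)^{-D₀} ∏_d (1 - |I ∩ β i d|/b) ≤ 2 π exp(-|I|/b)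
    ≤ 2 π exp(-θ D₀)` (`p b ≤ n^{-ε}` is tiny).  `Pr_blocks_ge` and the union bound over `i` and `I`:
    `j 2^s C(|A|,g) (2 π e^{-θD₀})^g ≤ j 2^s (3 |A| · 2π e^{-θD₀}/g)^g ≤ j 2^s (18 e^{-θD₀}/θ)^g ≤ j 2^{-s}`
    because `D₀ ≥ 8/θ²` (`C(a,g) ≤ a^g/g!`, `g! ≥ (g/3)^g`);
(3) every `a ∈ A` has fewer than `K = ⌈3/ε⌉` neighbours in every `S i`: `|A| j (p s)^K ≤ n² n^{-2}...`
    (`Pr_cnt_ge`; `p s = D₀ p b ≤ D₀ n^{-ε}`, take `K` a bit larger, e.g. `⌈4/ε⌉`);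
(4) every `x ∈ S i` has fewer than `t = ⌊n^{ε/20}⌋` qualifying neighbours in `A`:
    `P(a ~ x and a qualifies) ≤ p q₀^{M-1} = π p/q₀ ≤ 2π/b`, so the probability is
    `≤ C(|A|,t) (2π/b)^t ≤ (3·6 D₀/t)^t ≤ 2^{-t}`, times the number of `x`.
Choose `W'` = `s` qualifying vertices.
(For `j = 0` the statement is trivial: any `s` vertices of `A`, `|A| ≥ 2s`.)
-/

set_option autoImplicit false

open Finset

namespace Pool.MP_1bacea_co

section OneStepAux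

variable {n : ℕ} {p : ℝ}

/-- pairs from `a` to `X` -/
private def osE (a : Fin n) (X : Finset (Fin n)) : Finset (Sym2 (Fin n)) :=
  X.image (fun x => s(a, x))

private lemma osE_card (a : Fin n) (X : Finset (Fin n)) : (osE a X).card = X.card :=
  card_image_of_injective _ (fun _ _ h => Sym2.congr_right.1 h)

private lemma osE_mem (a : Fin n) (X : Finset (Fin n)) {x : Fin n} (hx : x ∈ X) :
    s(a, x) ∈ osE a X := mem_image_of_mem _ hx

private lemma osE_disj (a : Fin n) {X Y : Finset (Fin n)} (h : Disjoint X Y) :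
    Disjoint (osE a X) (osE a Y) := by
  rw [Finset.disjoint_left] at h ⊢
  intro e he he'
  simp only [osE, mem_image] at he he'
  obtain ⟨x, hx, rfl⟩ := he
  obtain ⟨y, hy, hxy⟩ := he'
  have := Sym2.congr_right.1 hxy
  exact h hx (this ▸ hy)

private lemma osE_disj' {A : Finset (Fin n)} {a a' : Fin n} {X : Finset (Fin n)}
    (ha' : a' ∈ A) (hne : a ≠ a') (hX : Disjoint A X) :
    Disjoint (osE a X) (osE a' X) := by
  rw [Finset.disjoint_left] at hX ⊢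
  intro e he he'
  simp only [osE, mem_image] at he he'
  obtain ⟨x, hx, rfl⟩ := he
  obtain ⟨y, hy, hxy⟩ := he'
  rw [Sym2.eq_iff] at hxy
  rcases hxy with ⟨h1, _⟩ | ⟨h1, _⟩
  · exact hne h1.symm
  · exact hX ha' (h1 ▸ hx)

/-- having a neighbour in each of finitely many disjoint sets -/
private lemma os_prod {κ : Type*} [Fintype κ] [DecidableEq κ] (a : Fin n)
    (γ : κ → Finset (Fin n)) (hγ : ∀ k k', k ≠ k' → Disjoint (γ k) (γ k')) :
    Pr p (fun ω : Sym2 (Fin n) → Bool => ∀ k, ∃ x ∈ γ k, ω s(a, x) = true) =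
      ∏ k, (1 - (1 - p) ^ (γ k).card) := by
  have h := Pr_forall_blocks (p := p) (univ : Finset κ) (fun k => osE a (γ k))
    (fun k _ k' _ hk => osE_disj a (hγ k k' hk))
    (fun k (ω : Sym2 (Fin n) → Bool) => ∃ x ∈ γ k, ω s(a, x) = true) (by
      intro k _ ω ω' hω
      constructor
      · rintro ⟨x, hx, h⟩
        exact ⟨x, hx, by rw [← hω _ (osE_mem a _ hx)]; exact h⟩
      · rintro ⟨x, hx, h⟩
        exact ⟨x, hx, by rw [hω _ (osE_mem a _ hx)]; exact h⟩)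
  simp only [mem_univ, true_implies] at h
  rw [h]
  refine prod_congr rfl fun k _ => ?_
  have h2 := Pr_not (ι := Sym2 (Fin n)) p (fun ω => ∀ e ∈ osE a (γ k), ω e = false)
  rw [Pr_all_off, osE_card] at h2
  rw [← h2]
  congr 1
  funext ω
  apply propext
  push Not
  constructor
  · rintro ⟨x, hx, h⟩
    exact ⟨_, osE_mem a _ hx, by simpa using h⟩
  · rintro ⟨e, he, h⟩
    simp only [osE, mem_image] at he
    obtain ⟨x, hx, rfl⟩ := he
    exact ⟨x, hx, by simpa using h⟩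

private lemma os_q0_le (h1 : p ≤ 1) (b : ℕ) : 1 - (1 - p) ^ b ≤ p * b := by
  have := one_add_mul_le_pow (a := -p) (by linarith) b
  have e : (1 + -p) = 1 - p := by ring
  rw [e] at this
  linarith

private lemma os_q0_nonneg (h0 : 0 ≤ p) (h1 : p ≤ 1) (b : ℕ) : 0 ≤ 1 - (1 - p) ^ b := by
  have := pow_le_one₀ (n := b) (a := 1 - p) (by linarith) (by linarith)
  linarith

private lemma os_q0_ge (h0 : 0 ≤ p) (h1 : p ≤ 1) (b : ℕ) (hpb : p * b ≤ 1) :
    p * b * (1 - p * b) ≤ 1 - (1 - p) ^ b := by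
  have h2 : (1 - p) ^ b ≤ Real.exp (-(p * b)) := by
    have h3 : 1 - p ≤ Real.exp (-p) := by
      have := Real.add_one_le_exp (-p)
      linarith
    calc (1 - p) ^ b ≤ (Real.exp (-p)) ^ b := pow_le_pow_left₀ (by linarith) h3 b
      _ = Real.exp (-(p * b)) := by
        rw [← Real.exp_nat_mul]
        congr 1
        ring
  have hpb0 : 0 ≤ p * b := by positivity
  have h4 := Real.abs_exp_sub_one_sub_id_le (x := -(p * b)) (by
    rw [abs_neg, abs_of_nonneg hpb0]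
    exact hpb)
  have h5 := (abs_le.1 h4).2
  nlinarith

private lemma os_choose_pow (a g : ℕ) (hg : 1 ≤ g) {y : ℝ} (hy : 0 ≤ y) :
    (a.choose g : ℝ) * y ^ g ≤ (3 * (a * y) / g) ^ g := by
  have h1 : (a.choose g : ℝ) ≤ (a : ℝ) ^ g / (g.factorial : ℝ) := Nat.choose_le_pow_div g a
  have hg0 : (0 : ℝ) < g := by exact_mod_cast hg
  have h2 : (g : ℝ) ^ g / (g.factorial : ℝ) ≤ 3 ^ g := by
    have h3 := Real.pow_div_factorial_le_exp (g : ℝ) hg0.le g
    have h4 : Real.exp (g : ℝ) ≤ 3 ^ g := by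
      have : Real.exp (g : ℝ) = Real.exp 1 ^ g := by
        rw [← Real.exp_nat_mul]
        simp
      rw [this]
      exact pow_le_pow_left₀ (Real.exp_pos _).le (by linarith [Real.exp_one_lt_d9]) g
    exact h3.trans h4
  have hf : (0 : ℝ) < g.factorial := by exact_mod_cast Nat.factorial_pos g
  have hgg : (0 : ℝ) < (g : ℝ) ^ g := by positivity
  calc (a.choose g : ℝ) * y ^ g ≤ (a : ℝ) ^ g / (g.factorial : ℝ) * y ^ g := by
        gcongr
    _ = ((g : ℝ) ^ g / (g.factorial : ℝ)) * ((a * y) ^ g / (g : ℝ) ^ g) := by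
        field_simp
        rw [mul_pow]
    _ ≤ 3 ^ g * ((a * y) ^ g / (g : ℝ) ^ g) := by
        gcongr
    _ = (3 * (a * y) / g) ^ g := by
        rw [div_pow, mul_pow 3 ((a : ℝ) * y), mul_div_assoc]

section
variable {j D₀ b : ℕ} {β : Fin j → Fin D₀ → Finset (Fin n)} {A : Finset (Fin n)}

/-- `a` has a neighbour in every block -/
private def osQ (β : Fin j → Fin D₀ → Finset (Fin n)) (a : Fin n) (ω : Sym2 (Fin n) → Bool) :
    Prop := ∀ k : Fin j × Fin D₀, ∃ x ∈ β k.1 k.2, ω s(a, x) = true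

private lemma osQ_prob (hb : ∀ i d, (β i d).card = b)
    (hd : ∀ i d i' d', (i, d) ≠ (i', d') → Disjoint (β i d) (β i' d')) (a : Fin n) :
    Pr p (osQ β a) = (1 - (1 - p) ^ b) ^ (j * D₀) := by
  have h := os_prod (p := p) a (fun k : Fin j × Fin D₀ => β k.1 k.2)
    (fun k k' hk => hd _ _ _ _ hk)
  have e : Pr p (osQ β a) = Pr p (fun ω : Sym2 (Fin n) → Bool =>
    ∀ k : Fin j × Fin D₀, ∃ x ∈ β k.1 k.2, ω s(a, x) = true) := rfl
  rw [e, h]
  simp only [hb, prod_const, card_univ, Fintype.card_prod, Fintype.card_fin]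

private lemma osQI_prob (h0 : 0 ≤ p) (h1 : p ≤ 1) (hb0 : 0 < b) (hb : ∀ i d, (β i d).card = b)
    (hd : ∀ i d i' d', (i, d) ≠ (i', d') → Disjoint (β i d) (β i' d'))
    (hpb : D₀ * (p * b) ≤ 1 / 2) (hD : 1 ≤ D₀) {θ : ℝ} (i : Fin j) (I : Finset (Fin n))
    (hI : I ⊆ univ.biUnion (β i)) (hIc : θ * ((D₀ * b : ℕ) : ℝ) ≤ I.card) (a : Fin n) :
    Pr p (fun ω : Sym2 (Fin n) → Bool => osQ β a ω ∧ ∀ x ∈ I, ω s(a, x) = false) ≤
      2 * (1 - (1 - p) ^ b) ^ (j * D₀) * Real.exp (-(θ * D₀)) := by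
  set q : ℝ := 1 - (1 - p) ^ b with hq
  have hq0 : 0 ≤ q := os_q0_nonneg h0 h1 b
  have hb0' : (0 : ℝ) < b := by exact_mod_cast hb0
  have hD' : (1 : ℝ) ≤ D₀ := by exact_mod_cast hD
  have hpb0 : 0 ≤ p * b := by positivity
  have hpb1 : p * b ≤ 1 / 2 := by nlinarith
  let γ : Fin j × Fin D₀ → Finset (Fin n) :=
    fun k => if k.1 = i then β k.1 k.2 \ I else β k.1 k.2
  have hγs : ∀ k, γ k ⊆ β k.1 k.2 := by
    intro k
    simp only [γ]
    split_ifs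
    · exact sdiff_subset
    · exact subset_rfl
  have hγ : ∀ k k', k ≠ k' → Disjoint (γ k) (γ k') := fun k k' hk =>
    (hd _ _ _ _ hk).mono (hγs k) (hγs k')
  have hstep : Pr p (fun ω : Sym2 (Fin n) → Bool => osQ β a ω ∧ ∀ x ∈ I, ω s(a, x) = false) ≤
      Pr p (fun ω : Sym2 (Fin n) → Bool => ∀ k, ∃ x ∈ γ k, ω s(a, x) = true) := by
    refine Pr_mono h0 h1 fun ω hω k => ?_
    obtain ⟨x, hx, h⟩ := hω.1 k
    refine ⟨x, ?_, h⟩
    simp only [γ]
    split_ifs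
    · refine mem_sdiff.2 ⟨hx, fun hxI => ?_⟩
      have := hω.2 x hxI
      rw [h] at this
      exact absurd this (by decide)
    · exact hx
  refine hstep.trans ?_
  rw [os_prod a γ hγ, Fintype.prod_prod_type, ← mul_prod_erase univ _ (mem_univ i)]
  have hother : ∏ i' ∈ univ.erase i, ∏ d, (1 - (1 - p) ^ (γ (i', d)).card) =
      (q ^ D₀) ^ (j - 1) := by
    have : ∀ i' ∈ univ.erase i, ∏ d, (1 - (1 - p) ^ (γ (i', d)).card) = q ^ D₀ := by
      intro i' hi'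
      have hne : i' ≠ i := (mem_erase.1 hi').1
      simp only [γ, if_neg hne, hb, prod_const, card_univ, Fintype.card_fin, hq]
    rw [prod_congr rfl this, prod_const, card_erase_of_mem (mem_univ i), card_univ,
      Fintype.card_fin]
  rw [hother]
  have hmain : ∏ d, (1 - (1 - p) ^ (γ (i, d)).card) ≤ 2 * q ^ D₀ * Real.exp (-(θ * D₀)) := by
    have h3 : ∀ d, (1 - (1 - p) ^ (γ (i, d)).card) ≤
        p * b * Real.exp (-(((β i d ∩ I).card : ℝ) / b)) := by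
      intro d
      have hc : ((γ (i, d)).card : ℝ) = b - (β i d ∩ I).card := by
        simp only [γ, if_true]
        have := card_sdiff_add_card_inter (β i d) I
        rw [hb] at this
        rw [eq_sub_iff_add_eq]
        exact_mod_cast this
      have h4 := os_q0_le (p := p) h1 (γ (i, d)).card
      have h5 : 1 - ((β i d ∩ I).card : ℝ) / b ≤ Real.exp (-(((β i d ∩ I).card : ℝ) / b)) := by
        have := Real.add_one_le_exp (-(((β i d ∩ I).card : ℝ) / b))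
        linarith
      calc (1 - (1 - p) ^ (γ (i, d)).card) ≤ p * ((γ (i, d)).card : ℝ) := h4
        _ = p * b * (1 - ((β i d ∩ I).card : ℝ) / b) := by
          rw [hc]
          field_simp
        _ ≤ _ := by gcongr
    have h6 : ∏ d, (1 - (1 - p) ^ (γ (i, d)).card) ≤
        ∏ d, (p * b * Real.exp (-(((β i d ∩ I).card : ℝ) / b))) :=
      prod_le_prod (fun d _ => os_q0_nonneg h0 h1 _) (fun d _ => h3 d)
    refine h6.trans ?_
    rw [prod_mul_distrib, prod_const, card_univ, Fintype.card_fin, ← Real.exp_sum]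
    have hsum : ∑ d, (-(((β i d ∩ I).card : ℝ) / b)) ≤ -(θ * D₀) := by
      have hu : I = univ.biUnion (fun d => β i d ∩ I) := by
        ext x
        simp only [mem_biUnion, mem_univ, true_and, mem_inter]
        constructor
        · intro hx
          have := hI hx
          simp only [mem_biUnion, mem_univ, true_and] at this
          obtain ⟨d, hd⟩ := this
          exact ⟨d, hd, hx⟩
        · rintro ⟨d, _, hx⟩
          exact hx
      have hcard : (I.card : ℝ) = ∑ d, ((β i d ∩ I).card : ℝ) := by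
        have h7 : (univ.biUnion (fun d => β i d ∩ I)).card = ∑ d, (β i d ∩ I).card :=
          card_biUnion fun d _ d' _ hdd => (hd i d i d' (by simpa using hdd)).mono
            inter_subset_left inter_subset_left
        rw [← hu] at h7
        rw [h7]
        push_cast
        rfl
      rw [sum_neg_distrib, ← sum_div, ← hcard]
      rw [neg_le_neg_iff, le_div_iff₀ hb0']
      push_cast at hIc
      linarith
    have hpow : (p * b) ^ D₀ ≤ 2 * q ^ D₀ := by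
      have h8 : p * b * (1 - p * b) ≤ q := os_q0_ge h0 h1 b (by linarith)
      have h9 : 1 / 2 ≤ (1 - p * b) ^ D₀ := by
        have := one_add_mul_le_pow (a := -(p * b)) (by linarith) D₀
        have e : (1 + -(p * b)) = 1 - p * b := by ring
        rw [e] at this
        linarith
      have h10 : (p * b) ^ D₀ * (1 - p * b) ^ D₀ ≤ q ^ D₀ := by
        rw [← mul_pow]
        exact pow_le_pow_left₀ (mul_nonneg hpb0 (by linarith)) h8 _
      have h11 : 0 ≤ (p * b) ^ D₀ := by positivity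
      nlinarith
    have hexp : Real.exp (∑ d, (-(((β i d ∩ I).card : ℝ) / b))) ≤ Real.exp (-(θ * D₀)) :=
      Real.exp_le_exp.2 hsum
    have h12 : 0 ≤ (p * b) ^ D₀ := by positivity
    calc (p * b) ^ D₀ * Real.exp (∑ d, (-(((β i d ∩ I).card : ℝ) / b)))
        ≤ (2 * q ^ D₀) * Real.exp (-(θ * D₀)) :=
          mul_le_mul hpow hexp (Real.exp_pos _).le (by positivity)
      _ = _ := rfl
  have hj : 1 ≤ j := Nat.succ_le_of_lt (Nat.lt_of_le_of_lt (Nat.zero_le _) i.2)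
  calc (∏ d, (1 - (1 - p) ^ (γ (i, d)).card)) * (q ^ D₀) ^ (j - 1)
      ≤ (2 * q ^ D₀ * Real.exp (-(θ * D₀))) * (q ^ D₀) ^ (j - 1) := by gcongr
    _ = 2 * ((q ^ D₀) ^ (j - 1) * (q ^ D₀)) * Real.exp (-(θ * D₀)) := by ring
    _ = 2 * q ^ (j * D₀) * Real.exp (-(θ * D₀)) := by
      rw [← pow_succ, Nat.sub_add_cancel hj, ← pow_mul, mul_comm D₀ j]

private lemma osQx_prob (h0 : 0 ≤ p) (h1 : p ≤ 1) (hb0 : 0 < b) (hb : ∀ i d, (β i d).card = b)
    (hd : ∀ i d i' d', (i, d) ≠ (i', d') → Disjoint (β i d) (β i' d'))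
    (hpb : p * b ≤ 1 / 2) (i : Fin j) (d : Fin D₀) (x : Fin n) (hx : x ∈ β i d) (a : Fin n) :
    Pr p (fun ω : Sym2 (Fin n) → Bool => osQ β a ω ∧ ω s(a, x) = true) ≤
      2 * (1 - (1 - p) ^ b) ^ (j * D₀) / b := by
  set q : ℝ := 1 - (1 - p) ^ b with hq
  have hq0 : 0 ≤ q := os_q0_nonneg h0 h1 b
  have hb0' : (0 : ℝ) < b := by exact_mod_cast hb0
  have hpb0 : 0 ≤ p * b := by positivity
  let γ : Fin j × Fin D₀ → Finset (Fin n) :=
    fun k => if k = (i, d) then {x} else β k.1 k.2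
  have hγs : ∀ k, γ k ⊆ β k.1 k.2 := by
    intro k
    simp only [γ]
    split_ifs with h
    · rw [h]
      exact singleton_subset_iff.2 hx
    · exact subset_rfl
  have hγ : ∀ k k', k ≠ k' → Disjoint (γ k) (γ k') := fun k k' hk =>
    (hd _ _ _ _ hk).mono (hγs k) (hγs k')
  have hstep : Pr p (fun ω : Sym2 (Fin n) → Bool => osQ β a ω ∧ ω s(a, x) = true) ≤
      Pr p (fun ω : Sym2 (Fin n) → Bool => ∀ k, ∃ y ∈ γ k, ω s(a, y) = true) := by
    refine Pr_mono h0 h1 fun ω hω k => ?_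
    by_cases hk : k = (i, d)
    · exact ⟨x, by simp only [γ, if_pos hk, mem_singleton], hω.2⟩
    · obtain ⟨y, hy, h⟩ := hω.1 k
      exact ⟨y, by simpa only [γ, if_neg hk] using hy, h⟩
  refine hstep.trans ?_
  rw [os_prod a γ hγ, ← mul_prod_erase univ _ (mem_univ (i, d))]
  have hother : ∏ k ∈ univ.erase (i, d), (1 - (1 - p) ^ (γ k).card) = q ^ (j * D₀ - 1) := by
    have : ∀ k ∈ univ.erase (i, d), (1 - (1 - p) ^ (γ k).card) = q := by
      intro k hk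
      have hne : k ≠ (i, d) := (mem_erase.1 hk).1
      simp only [γ, if_neg hne, hb, hq]
    rw [prod_congr rfl this, prod_const, card_erase_of_mem (mem_univ _), card_univ,
      Fintype.card_prod, Fintype.card_fin, Fintype.card_fin]
  rw [hother]
  have hγ1 : (γ (i, d)).card = 1 := by
    simp only [γ, if_true, card_singleton]
  rw [hγ1, pow_one]
  have h8 : p * b * (1 - p * b) ≤ q := os_q0_ge h0 h1 b (by linarith)
  have h9 : p ≤ 2 * q / b := by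
    rw [le_div_iff₀ hb0']
    nlinarith
  have hjD : 1 ≤ j * D₀ := Nat.one_le_iff_ne_zero.2
    (Nat.mul_ne_zero (Nat.pos_iff_ne_zero.1 (Nat.lt_of_le_of_lt (Nat.zero_le _) i.2))
      (Nat.pos_iff_ne_zero.1 (Nat.lt_of_le_of_lt (Nat.zero_le _) d.2)))
  calc (1 - (1 - p)) * q ^ (j * D₀ - 1) = p * q ^ (j * D₀ - 1) := by ring
    _ ≤ (2 * q / b) * q ^ (j * D₀ - 1) := by gcongr
    _ = 2 * (q ^ (j * D₀ - 1) * q) / b := by ring
    _ = 2 * q ^ (j * D₀) / b := by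
      rw [← pow_succ, Nat.sub_add_cancel hjD]

private lemma os_dg_le (ω : Sym2 (Fin n) → Bool) (y : Fin n) (X : Finset (Fin n)) :
    dg (Gr ω) y X ≤ cnt ω (osE y X) := by
  classical
  unfold dg cnt
  rw [← card_image_of_injective (X.filter fun u => (Gr ω).Adj y u)
    (f := fun x => s(y, x)) (fun _ _ h => Sym2.congr_right.1 h)]
  refine card_le_card fun e he => ?_
  simp only [mem_image, mem_filter] at he
  obtain ⟨x, ⟨hx, _, h⟩, rfl⟩ := he
  exact mem_filter.2 ⟨osE_mem y X hx, h⟩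

private lemma os_card_S (hb : ∀ i d, (β i d).card = b) (i : Fin j) :
    (univ.biUnion (β i)).card ≤ D₀ * b := by
  refine card_biUnion_le.trans ?_
  simp [hb]

/-- union bound -/
private lemma os_union (h0 : 0 ≤ p) (h1 : p ≤ 1) (hb0 : 0 < b) (hb : ∀ i d, (β i d).card = b)
    (hd : ∀ i d i' d', (i, d) ≠ (i', d') → Disjoint (β i d) (β i' d'))
    (hA : ∀ i d, Disjoint A (β i d))
    (hpb : D₀ * (p * b) ≤ 1 / 2) (hD : 1 ≤ D₀) {θ : ℝ}
    (hlow : 2 * ((D₀ * b : ℕ) : ℝ) ≤ A.card * (1 - (1 - p) ^ b) ^ (j * D₀))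
    (K t : ℕ) (T : ℝ) (hK : (K : ℝ) ≤ T) (ht : ∀ m : ℕ, T < m → t ≤ m) :
    Pr p (fun ω : Sym2 (Fin n) → Bool => ¬ ∃ W' ⊆ A, W'.card = D₀ * b ∧
        (∀ i, ∀ I ⊆ univ.biUnion (β i), ∀ J ⊆ W',
          θ * ((D₀ * b : ℕ) : ℝ) ≤ I.card → θ * ((D₀ * b : ℕ) : ℝ) ≤ J.card →
          ∃ x ∈ I, ∃ y ∈ J, (Gr ω).Adj x y) ∧
        (∀ i, ∀ y ∈ W', (dg (Gr ω) y (univ.biUnion (β i)) : ℝ) ≤ T) ∧
        (∀ i, ∀ x ∈ univ.biUnion (β i), (dg (Gr ω) x W' : ℝ) ≤ T)) ≤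
      Real.exp (-(((D₀ * b : ℕ) : ℝ) / 8)) +
      (j * (2 ^ (D₀ * b) * (((A.card).choose ⌈θ * ((D₀ * b : ℕ) : ℝ)⌉₊ : ℝ) *
        (2 * (1 - (1 - p) ^ b) ^ (j * D₀) * Real.exp (-(θ * D₀))) ^
          ⌈θ * ((D₀ * b : ℕ) : ℝ)⌉₊)) +
      (n * (j * (((D₀ * b).choose K : ℝ) * p ^ K)) +
      n * (j * (((A.card).choose t : ℝ) * (2 * (1 - (1 - p) ^ b) ^ (j * D₀) / b) ^ t)))) := by
  classical
  set q : ℝ := 1 - (1 - p) ^ b with hq
  set g : ℕ := ⌈θ * ((D₀ * b : ℕ) : ℝ)⌉₊ with hg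
  have hq0 : 0 ≤ q := os_q0_nonneg h0 h1 b
  have hD' : (1 : ℝ) ≤ D₀ := by exact_mod_cast hD
  have hpb0 : 0 ≤ p * b := by positivity
  have hpb1 : p * b ≤ 1 / 2 := by nlinarith
  have hnA : (A.card : ℝ) ≤ n := by
    have := card_le_univ A
    rw [Fintype.card_fin] at this
    exact_mod_cast this
  have hAS : ∀ i, ∀ x ∈ univ.biUnion (β i), x ∉ A := by
    intro i x hx hxA
    simp only [mem_biUnion, mem_univ, true_and] at hx
    obtain ⟨d, hx⟩ := hx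
    exact Finset.disjoint_left.1 (hA i d) hxA hx
  let U : Finset (Fin n) := univ.biUnion (fun k : Fin j × Fin D₀ => β k.1 k.2)
  have hU : Disjoint A U := by
    rw [Finset.disjoint_left]
    intro x hxA hx
    simp only [U, mem_biUnion, mem_univ, true_and] at hx
    obtain ⟨k, hx⟩ := hx
    exact Finset.disjoint_left.1 (hA _ _) hxA hx
  have hβU : ∀ i d, β i d ⊆ U := fun i d => subset_biUnion_of_mem
    (fun k : Fin j × Fin D₀ => β k.1 k.2) (mem_univ (i, d))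
  have hSU : ∀ i, univ.biUnion (β i) ⊆ U := fun i => biUnion_subset.2 fun d _ => hβU i d
  have hR : ∀ a ∈ A, ∀ a' ∈ A, a ≠ a' → Disjoint (osE a U) (osE a' U) :=
    fun a _ a' ha' hne => osE_disj' ha' hne hU
  have hdepQ : ∀ a, ∀ ω ω' : Sym2 (Fin n) → Bool, (∀ e ∈ osE a U, ω e = ω' e) →
      (osQ β a ω → osQ β a ω') := by
    intro a ω ω' h hQ k
    obtain ⟨x, hx, hx'⟩ := hQ k
    exact ⟨x, hx, by rw [← h _ (osE_mem a U (hβU _ _ hx))]; exact hx'⟩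
  let B1 : (Sym2 (Fin n) → Bool) → Prop := fun ω =>
    ¬ ∃ J ⊆ A, ((D₀ * b : ℕ) : ℝ) ≤ (J.card : ℝ) ∧ ∀ a ∈ J, osQ β a ω
  let F : Fin j → Finset (Finset (Fin n)) := fun i =>
    (univ.biUnion (β i)).powerset.filter (fun I => θ * ((D₀ * b : ℕ) : ℝ) ≤ (I.card : ℝ))
  let B2 : (Sym2 (Fin n) → Bool) → Prop := fun ω => ∃ i ∈ (univ : Finset (Fin j)), ∃ I ∈ F i,
    ∃ J ⊆ A, J.card = g ∧ ∀ a ∈ J, (osQ β a ω ∧ ∀ x ∈ I, ω s(a, x) = false)
  let B3 : (Sym2 (Fin n) → Bool) → Prop := fun ω => ∃ y ∈ A, ∃ i ∈ (univ : Finset (Fin j)),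
    K ≤ cnt ω (osE y (univ.biUnion (β i)))
  let B4 : (Sym2 (Fin n) → Bool) → Prop := fun ω => ∃ x ∈ (univ : Finset (Fin n)),
    ∃ i ∈ (univ : Finset (Fin j)), (x ∈ univ.biUnion (β i) ∧
    ∃ J ⊆ A, J.card = t ∧ ∀ a ∈ J, (osQ β a ω ∧ ω s(a, x) = true))
  have key : ∀ ω : Sym2 (Fin n) → Bool, (¬ ∃ W' ⊆ A, W'.card = D₀ * b ∧
        (∀ i, ∀ I ⊆ univ.biUnion (β i), ∀ J ⊆ W',
          θ * ((D₀ * b : ℕ) : ℝ) ≤ I.card → θ * ((D₀ * b : ℕ) : ℝ) ≤ J.card →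
          ∃ x ∈ I, ∃ y ∈ J, (Gr ω).Adj x y) ∧
        (∀ i, ∀ y ∈ W', (dg (Gr ω) y (univ.biUnion (β i)) : ℝ) ≤ T) ∧
        (∀ i, ∀ x ∈ univ.biUnion (β i), (dg (Gr ω) x W' : ℝ) ≤ T)) →
      B1 ω ∨ (B2 ω ∨ (B3 ω ∨ B4 ω)) := by
    intro ω hω
    by_contra hcon
    push Not at hcon
    obtain ⟨hB1, hB2, hB3, hB4⟩ := hcon
    apply hω
    obtain ⟨J₀, hJ₀A, hJ₀c, hJ₀Q⟩ := not_not.1 hB1
    have hJ₀c' : D₀ * b ≤ J₀.card := by exact_mod_cast hJ₀c
    obtain ⟨W', hW', hW'c⟩ := exists_subset_card_eq hJ₀c'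
    refine ⟨W', hW'.trans hJ₀A, hW'c, ?_, ?_, ?_⟩
    · intro i I hI J hJ hIc hJc
      by_contra hno
      push Not at hno
      have hgJ : g ≤ J.card := Nat.ceil_le.2 hJc
      obtain ⟨J', hJ', hJ'c⟩ := exists_subset_card_eq hgJ
      refine hB2 ⟨i, mem_univ i, I, mem_filter.2 ⟨mem_powerset.2 hI, hIc⟩, J',
        (hJ'.trans (hJ.trans hW')).trans hJ₀A, hJ'c, fun a ha => ⟨?_, fun x hx => ?_⟩⟩
      · exact hJ₀Q a (hW' (hJ (hJ' ha)))
      · have hna := hno x hx a (hJ' ha)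
        have hxa : x ≠ a := by
          rintro rfl
          exact hAS i x (hI hx) (hJ₀A (hW' (hJ (hJ' ha))))
        by_contra hne
        have htrue : ω s(a, x) = true := by simpa using hne
        exact hna ⟨hxa, by rw [Sym2.eq_swap]; exact htrue⟩
    · intro i y hy
      have hlt : cnt ω (osE y (univ.biUnion (β i))) < K := by
        by_contra hge
        exact hB3 ⟨y, hJ₀A (hW' hy), i, mem_univ i, not_lt.1 hge⟩
      have := (os_dg_le ω y (univ.biUnion (β i))).trans hlt.le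
      exact le_trans (by exact_mod_cast this) hK
    · intro i x hx
      by_contra hgt
      have htm := ht _ (not_le.1 hgt)
      unfold dg at htm
      obtain ⟨J', hJ', hJ'c⟩ := exists_subset_card_eq htm
      refine hB4 ⟨x, mem_univ x, i, mem_univ i, hx, J', ?_, hJ'c, fun a ha => ?_⟩
      · intro a ha
        exact hJ₀A (hW' (mem_filter.1 (hJ' ha)).1)
      · have h2 := mem_filter.1 (hJ' ha)
        refine ⟨hJ₀Q a (hW' h2.1), ?_⟩
        rw [Sym2.eq_swap]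
        exact h2.2.2
  have hP1 : Pr p B1 ≤ Real.exp (-(((D₀ * b : ℕ) : ℝ) / 8)) :=
    Pr_blocks_lt h0 h1 A (fun a => osE a U) hR (fun a => osQ β a)
      (fun a _ ω ω' h => ⟨hdepQ a ω ω' h, hdepQ a ω' ω (fun e he => (h e he).symm)⟩)
      (q ^ (j * D₀)) (fun a _ => osQ_prob hb hd a) _ hlow
  have hP2 : Pr p B2 ≤ j * (2 ^ (D₀ * b) * (((A.card).choose g : ℝ) *
        (2 * q ^ (j * D₀) * Real.exp (-(θ * D₀))) ^ g)) := by
    refine (Pr_exists_le h0 h1 univ _).trans ?_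
    have hi : ∀ i ∈ (univ : Finset (Fin j)),
        Pr p (fun ω : Sym2 (Fin n) → Bool => ∃ I ∈ F i, ∃ J ⊆ A, J.card = g ∧
          ∀ a ∈ J, (osQ β a ω ∧ ∀ x ∈ I, ω s(a, x) = false)) ≤
        (2 ^ (D₀ * b) * (((A.card).choose g : ℝ) *
        (2 * q ^ (j * D₀) * Real.exp (-(θ * D₀))) ^ g)) := by
      intro i _
      refine (Pr_exists_le h0 h1 (F i) _).trans ?_
      have hI : ∀ I ∈ F i, Pr p (fun ω : Sym2 (Fin n) → Bool => ∃ J ⊆ A, J.card = g ∧
          ∀ a ∈ J, (osQ β a ω ∧ ∀ x ∈ I, ω s(a, x) = false)) ≤ (((A.card).choose g : ℝ) *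
        (2 * q ^ (j * D₀) * Real.exp (-(θ * D₀))) ^ g) := by
        intro I hI
        have hI' := mem_filter.1 hI
        have hIS := mem_powerset.1 hI'.1
        refine Pr_blocks_ge h0 h1 A (fun a => osE a U) hR
          (fun a ω => osQ β a ω ∧ ∀ x ∈ I, ω s(a, x) = false) ?_ _ ?_ g
        · intro a _ ω ω' h
          constructor
          · rintro ⟨h2, h3⟩
            exact ⟨hdepQ a ω ω' h h2, fun x hx => by
              rw [← h _ (osE_mem a U (hSU i (hIS hx)))]; exact h3 x hx⟩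
          · rintro ⟨h2, h3⟩
            exact ⟨hdepQ a ω' ω (fun e he => (h e he).symm) h2, fun x hx => by
              rw [h _ (osE_mem a U (hSU i (hIS hx)))]; exact h3 x hx⟩
        · intro a _
          exact osQI_prob h0 h1 hb0 hb hd hpb hD i I hIS hI'.2 a
      refine (sum_le_sum hI).trans ?_
      rw [sum_const, nsmul_eq_mul]
      have hFc : ((F i).card : ℝ) ≤ 2 ^ (D₀ * b) := by
        have h5 : (F i).card ≤ 2 ^ (univ.biUnion (β i)).card := by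
          rw [← card_powerset]
          exact card_filter_le _ _
        have h6 : (2 : ℕ) ^ (univ.biUnion (β i)).card ≤ 2 ^ (D₀ * b) :=
          Nat.pow_le_pow_right (by norm_num) (os_card_S hb i)
        exact_mod_cast h5.trans h6
      exact mul_le_mul_of_nonneg_right hFc (by positivity)
    refine (sum_le_sum hi).trans ?_
    rw [sum_const, nsmul_eq_mul, card_univ, Fintype.card_fin]
  have hP3 : Pr p B3 ≤ n * (j * (((D₀ * b).choose K : ℝ) * p ^ K)) := by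
    refine (Pr_exists_le h0 h1 A _).trans ?_
    have hy : ∀ y ∈ A, Pr p (fun ω : Sym2 (Fin n) → Bool => ∃ i ∈ (univ : Finset (Fin j)),
        K ≤ cnt ω (osE y (univ.biUnion (β i)))) ≤ (j * (((D₀ * b).choose K : ℝ) * p ^ K)) := by
      intro y _
      refine (Pr_exists_le h0 h1 univ _).trans ?_
      have hi : ∀ i ∈ (univ : Finset (Fin j)), Pr p (fun ω : Sym2 (Fin n) → Bool =>
        K ≤ cnt ω (osE y (univ.biUnion (β i)))) ≤ (((D₀ * b).choose K : ℝ) * p ^ K) := by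
        intro i _
        refine (Pr_cnt_ge h0 h1 _ K).trans ?_
        have h5 : (osE y (univ.biUnion (β i))).card.choose K ≤ (D₀ * b).choose K :=
          Nat.choose_le_choose K (by rw [osE_card]; exact os_card_S hb i)
        exact mul_le_mul_of_nonneg_right (by exact_mod_cast h5) (by positivity)
      refine (sum_le_sum hi).trans ?_
      rw [sum_const, nsmul_eq_mul, card_univ, Fintype.card_fin]
    refine (sum_le_sum hy).trans ?_
    rw [sum_const, nsmul_eq_mul]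
    exact mul_le_mul_of_nonneg_right hnA (by positivity)
  have hP4 : Pr p B4 ≤ n * (j * (((A.card).choose t : ℝ) * (2 * q ^ (j * D₀) / b) ^ t)) := by
    refine (Pr_exists_le h0 h1 univ _).trans ?_
    have hx : ∀ x ∈ (univ : Finset (Fin n)), Pr p (fun ω : Sym2 (Fin n) → Bool =>
        ∃ i ∈ (univ : Finset (Fin j)), (x ∈ univ.biUnion (β i) ∧
        ∃ J ⊆ A, J.card = t ∧ ∀ a ∈ J, (osQ β a ω ∧ ω s(a, x) = true))) ≤
        (j * (((A.card).choose t : ℝ) * (2 * q ^ (j * D₀) / b) ^ t)) := by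
      intro x _
      refine (Pr_exists_le h0 h1 univ _).trans ?_
      have hi : ∀ i ∈ (univ : Finset (Fin j)), Pr p (fun ω : Sym2 (Fin n) → Bool =>
        (x ∈ univ.biUnion (β i) ∧
        ∃ J ⊆ A, J.card = t ∧ ∀ a ∈ J, (osQ β a ω ∧ ω s(a, x) = true))) ≤
          (((A.card).choose t : ℝ) * (2 * q ^ (j * D₀) / b) ^ t) := by
        intro i _
        by_cases hxi : x ∈ univ.biUnion (β i)
        · have hxd := hxi
          simp only [mem_biUnion, mem_univ, true_and] at hxd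
          obtain ⟨d, hxd⟩ := hxd
          refine (Pr_mono h0 h1 (fun ω h => h.2)).trans ?_
          refine Pr_blocks_ge h0 h1 A (fun a => osE a U) hR
            (fun a ω => osQ β a ω ∧ ω s(a, x) = true) ?_ _ ?_ t
          · intro a _ ω ω' h
            have hxU := osE_mem a U (hSU i hxi)
            constructor
            · rintro ⟨h2, h3⟩
              exact ⟨hdepQ a ω ω' h h2, by rw [← h _ hxU]; exact h3⟩
            · rintro ⟨h2, h3⟩
              exact ⟨hdepQ a ω' ω (fun e he => (h e he).symm) h2, by rw [h _ hxU]; exact h3⟩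
          · intro a _
            exact osQx_prob h0 h1 hb0 hb hd hpb1 i d x hxd a
        · have hfalse : Pr p (fun ω : Sym2 (Fin n) → Bool =>
            (x ∈ univ.biUnion (β i) ∧
            ∃ J ⊆ A, J.card = t ∧ ∀ a ∈ J, (osQ β a ω ∧ ω s(a, x) = true))) = 0 := by
            have : (fun ω : Sym2 (Fin n) → Bool => ind ((x ∈ univ.biUnion (β i) ∧
              ∃ J ⊆ A, J.card = t ∧ ∀ a ∈ J, (osQ β a ω ∧ ω s(a, x) = true)))) =
                fun _ => (0 : ℝ) := by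
              funext ω
              exact ind_false fun h => hxi h.1
            unfold Pr
            rw [this, Ex_const]
          rw [hfalse]
          positivity
      refine (sum_le_sum hi).trans ?_
      rw [sum_const, nsmul_eq_mul, card_univ, Fintype.card_fin]
    refine (sum_le_sum hx).trans ?_
    rw [sum_const, nsmul_eq_mul, card_univ, Fintype.card_fin]
  refine (Pr_mono h0 h1 key).trans ?_
  refine (Pr_or_le h0 h1 _ _).trans (add_le_add hP1 ?_)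
  refine (Pr_or_le h0 h1 _ _).trans (add_le_add hP2 ?_)
  exact (Pr_or_le h0 h1 _ _).trans (add_le_add hP3 hP4)

end

/-! ### estimates -/

private lemma os_e2 {θ : ℝ} (hθ : 0 < θ) (hθ1 : θ ≤ 1) {D₀ a s : ℕ} (hD₀ : 8 / θ ^ 2 ≤ D₀)
    (hs : 0 < s) {P : ℝ} (hP0 : 0 ≤ P) (hP : (a : ℝ) * P ≤ 3 * (s : ℝ)) :
    2 ^ s * ((a.choose ⌈θ * (s : ℝ)⌉₊ : ℝ) *
      (2 * P * Real.exp (-(θ * D₀))) ^ ⌈θ * (s : ℝ)⌉₊) ≤ Real.exp (-(4 * (s : ℝ))) := by
  have hs' : (0 : ℝ) < s := by exact_mod_cast hs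
  set g : ℕ := ⌈θ * (s : ℝ)⌉₊ with hg
  have hgs : θ * (s : ℝ) ≤ g := Nat.le_ceil _
  have hgpos : (0 : ℝ) < g := lt_of_lt_of_le (by positivity) hgs
  have hg1 : 1 ≤ g := by
    have : 0 < g := by exact_mod_cast hgpos
    omega
  have h1 := os_choose_pow a g hg1 (y := 2 * P * Real.exp (-(θ * D₀))) (by positivity)
  have hr : 3 * ((a : ℝ) * (2 * P * Real.exp (-(θ * D₀)))) / g ≤ Real.exp (-(5 / θ)) := by
    have h2 : 3 * ((a : ℝ) * (2 * P * Real.exp (-(θ * D₀)))) ≤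
        18 * s * Real.exp (-(θ * D₀)) := by
      have : 3 * ((a : ℝ) * (2 * P * Real.exp (-(θ * D₀)))) =
        6 * ((a : ℝ) * P) * Real.exp (-(θ * D₀)) := by ring
      rw [this]
      have h3 : 6 * ((a : ℝ) * P) ≤ 18 * s := by linarith
      exact mul_le_mul_of_nonneg_right h3 (Real.exp_pos _).le
    have h4 : Real.exp (-(θ * D₀)) ≤ Real.exp (-(8 / θ)) := by
      apply Real.exp_le_exp.2
      rw [neg_le_neg_iff]
      have : 8 / θ = θ * (8 / θ ^ 2) := by field_simp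
      rw [this]
      exact mul_le_mul_of_nonneg_left hD₀ hθ.le
    have h5 : 18 * (1 / θ) ≤ Real.exp (3 / θ) := by
      have hu : 1 ≤ 1 / θ := by
        rw [le_div_iff₀ hθ]
        linarith
      have h6 : Real.exp (3 / θ) = Real.exp 3 * Real.exp (3 * (1 / θ) - 3) := by
        rw [← Real.exp_add]
        congr 1
        ring
      have h7 : 3 * (1 / θ) - 3 + 1 ≤ Real.exp (3 * (1 / θ) - 3) := Real.add_one_le_exp _
      have h8 : (18 : ℝ) ≤ Real.exp 3 := by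
        have h9 : Real.exp 3 = Real.exp 1 ^ 3 := by
          rw [← Real.exp_nat_mul]
          norm_num
        rw [h9]
        have h10 : (2.7 : ℝ) ≤ Real.exp 1 := by linarith [Real.exp_one_gt_d9]
        calc (18 : ℝ) ≤ 2.7 ^ 3 := by norm_num
          _ ≤ _ := pow_le_pow_left₀ (by norm_num) h10 3
      rw [h6]
      calc 18 * (1 / θ) ≤ 18 * (3 * (1 / θ) - 3 + 1) := by linarith
        _ ≤ Real.exp 3 * Real.exp (3 * (1 / θ) - 3) :=
          mul_le_mul h8 h7 (by linarith) (Real.exp_pos _).le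
    rw [div_le_iff₀ hgpos]
    calc 3 * ((a : ℝ) * (2 * P * Real.exp (-(θ * D₀)))) ≤ 18 * s * Real.exp (-(θ * D₀)) := h2
      _ ≤ 18 * s * Real.exp (-(8 / θ)) := by gcongr
      _ = 18 * (1 / θ) * Real.exp (-(8 / θ)) * (θ * s) := by field_simp
      _ ≤ Real.exp (3 / θ) * Real.exp (-(8 / θ)) * (θ * s) := by gcongr
      _ = Real.exp (-(5 / θ)) * (θ * s) := by
        rw [← Real.exp_add]
        congr 2
        ring
      _ ≤ Real.exp (-(5 / θ)) * g := by gcongr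
  have h11 : (3 * ((a : ℝ) * (2 * P * Real.exp (-(θ * D₀)))) / g) ^ g ≤
      Real.exp (-(5 * (s : ℝ))) := by
    calc (3 * ((a : ℝ) * (2 * P * Real.exp (-(θ * D₀)))) / g) ^ g ≤
        Real.exp (-(5 / θ)) ^ g := pow_le_pow_left₀ (by positivity) hr g
      _ = Real.exp (g * (-(5 / θ))) := by rw [← Real.exp_nat_mul]
      _ ≤ Real.exp (-(5 * (s : ℝ))) := by
        apply Real.exp_le_exp.2
        have : (5 * (s : ℝ)) = (θ * s) * (5 / θ) := by field_simp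
        rw [this, mul_neg, neg_le_neg_iff]
        exact mul_le_mul_of_nonneg_right hgs (by positivity)
  have h12 : (2 : ℝ) ^ s ≤ Real.exp (s : ℝ) := by
    have : Real.exp (s : ℝ) = Real.exp 1 ^ s := by
      rw [← Real.exp_nat_mul]
      simp
    rw [this]
    exact pow_le_pow_left₀ (by norm_num) (by linarith [Real.exp_one_gt_d9]) s
  calc 2 ^ s * ((a.choose g : ℝ) * (2 * P * Real.exp (-(θ * D₀))) ^ g)
      ≤ Real.exp (s : ℝ) * Real.exp (-(5 * (s : ℝ))) :=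
        mul_le_mul h12 (h1.trans h11) (by positivity) (Real.exp_pos _).le
    _ = Real.exp (-(4 * (s : ℝ))) := by
      rw [← Real.exp_add]
      congr 1
      ring

private lemma os_e3 {p y : ℝ} (h0 : 0 ≤ p) {D₀ b : ℕ} (K : ℕ) (hy : p * b ≤ y) :
    (((D₀ * b).choose K : ℝ) * p ^ K) ≤ (D₀ * y) ^ K := by
  have h1 : ((D₀ * b).choose K : ℝ) ≤ ((D₀ * b : ℕ) : ℝ) ^ K := by
    exact_mod_cast Nat.choose_le_pow (D₀ * b) K
  calc (((D₀ * b).choose K : ℝ) * p ^ K) ≤ ((D₀ * b : ℕ) : ℝ) ^ K * p ^ K := by gcongr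
    _ = (D₀ * (p * b)) ^ K := by
      rw [← mul_pow]
      congr 1
      push_cast
      ring
    _ ≤ (D₀ * y) ^ K := by gcongr

private lemma os_e4 {D₀ a b t : ℕ} (hb0 : 0 < b) {P : ℝ} (hP0 : 0 ≤ P)
    (hP : (a : ℝ) * P ≤ 3 * ((D₀ * b : ℕ) : ℝ)) (ht : 36 * (D₀ : ℝ) ≤ t) (ht1 : 1 ≤ t) :
    (a.choose t : ℝ) * (2 * P / b) ^ t ≤ (1 / 2) ^ t := by
  have hb0' : (0 : ℝ) < b := by exact_mod_cast hb0
  have ht0 : (0 : ℝ) < t := by exact_mod_cast ht1
  refine (os_choose_pow a t ht1 (y := 2 * P / b) (by positivity)).trans ?_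
  refine pow_le_pow_left₀ (by positivity) ?_ t
  rw [div_le_iff₀ ht0]
  push_cast at hP
  calc 3 * ((a : ℝ) * (2 * P / b)) = 6 * ((a : ℝ) * P) / b := by ring
    _ ≤ 6 * (3 * (D₀ * b)) / b := by gcongr
    _ = 18 * D₀ := by field_simp; ring
    _ ≤ 1 / 2 * t := by linarith

private lemma os_tend_pow {δ : ℝ} (hδ : 0 < δ) :
    Filter.Tendsto (fun n : ℕ => (n : ℝ) ^ δ) Filter.atTop Filter.atTop :=
  (tendsto_rpow_atTop hδ).comp tendsto_natCast_atTop_atTop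

private lemma os_ev1 {δ c B e : ℝ} (hδ : 0 < δ) (hc : 0 < c) (he : 0 < e) :
    ∀ᶠ n : ℕ in Filter.atTop, B * Real.exp (-(c * (n : ℝ) ^ δ)) ≤ e := by
  have h1 : Filter.Tendsto (fun n : ℕ => B * Real.exp (-(c * (n : ℝ) ^ δ))) Filter.atTop
      (nhds (B * 0)) := by
    refine Filter.Tendsto.const_mul B ?_
    refine Real.tendsto_exp_neg_atTop_nhds_zero.comp ?_
    exact Filter.Tendsto.const_mul_atTop hc (os_tend_pow hδ)
  rw [mul_zero] at h1
  exact (h1.eventually (gt_mem_nhds he)).mono fun n hn => hn.le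

private lemma os_ev4 {δ B e : ℝ} (hδ : 0 < δ) (he : 0 < e) :
    ∀ᶠ n : ℕ in Filter.atTop, (n : ℝ) * (B * (1 / 2) ^ (⌊(n : ℝ) ^ δ⌋₊ + 1)) ≤ e := by
  have h1 : Filter.Tendsto (fun y : ℝ => y ^ (1 / δ) * Real.exp (-(Real.log 2) * y))
      Filter.atTop (nhds 0) :=
    tendsto_rpow_mul_exp_neg_mul_atTop_nhds_zero _ _ (Real.log_pos (by norm_num))
  have h2 := (h1.comp (os_tend_pow hδ)).const_mul |B|
  rw [mul_zero] at h2
  refine (h2.eventually (gt_mem_nhds he)).mono fun n hn => ?_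
  refine le_trans ?_ hn.le
  have hn0 : (0 : ℝ) ≤ n := Nat.cast_nonneg n
  have h3 : ((n : ℝ) ^ δ) ^ (1 / δ) = n := by
    rw [← Real.rpow_mul hn0, mul_one_div_cancel hδ.ne', Real.rpow_one]
  have h4 : (1 / 2 : ℝ) ^ (⌊(n : ℝ) ^ δ⌋₊ + 1) ≤ Real.exp (-(Real.log 2) * (n : ℝ) ^ δ) := by
    have h5 : (1 / 2 : ℝ) = Real.exp (-(Real.log 2)) := by
      rw [Real.exp_neg, Real.exp_log (by norm_num)]
      norm_num
    rw [h5, ← Real.exp_nat_mul]
    apply Real.exp_le_exp.2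
    have h6 : (n : ℝ) ^ δ ≤ ((⌊(n : ℝ) ^ δ⌋₊ + 1 : ℕ) : ℝ) := by
      push_cast
      exact (Nat.lt_floor_add_one _).le
    have h7 : 0 < Real.log 2 := Real.log_pos (by norm_num)
    nlinarith
  show (n : ℝ) * (B * (1 / 2) ^ (⌊(n : ℝ) ^ δ⌋₊ + 1)) ≤
    |B| * (((n : ℝ) ^ δ) ^ (1 / δ) * Real.exp (-(Real.log 2) * (n : ℝ) ^ δ))
  rw [h3]
  have h8 : (0 : ℝ) ≤ (1 / 2) ^ (⌊(n : ℝ) ^ δ⌋₊ + 1) := by positivity
  calc (n : ℝ) * (B * (1 / 2) ^ (⌊(n : ℝ) ^ δ⌋₊ + 1))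
      ≤ n * (|B| * (1 / 2) ^ (⌊(n : ℝ) ^ δ⌋₊ + 1)) := by
        gcongr
        exact le_abs_self B
    _ = |B| * (n * (1 / 2) ^ (⌊(n : ℝ) ^ δ⌋₊ + 1)) := by ring
    _ ≤ _ := by gcongr

private lemma os_ev3 {ε B D e : ℝ} (hε : 0 < ε) (hD : 0 ≤ D) (he : 0 < e) :
    ∀ᶠ n : ℕ in Filter.atTop, (n : ℝ) * (B * (D * (n : ℝ) ^ (-ε)) ^ ⌈2 / ε⌉₊) ≤ e := by
  have h1 : Filter.Tendsto (fun n : ℕ => (|B| * D ^ ⌈2 / ε⌉₊) * (1 / (n : ℝ))) Filter.atTop
      (nhds ((|B| * D ^ ⌈2 / ε⌉₊) * 0)) :=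
    tendsto_one_div_atTop_nhds_zero_nat.const_mul _
  rw [mul_zero] at h1
  filter_upwards [h1.eventually (gt_mem_nhds he), Filter.eventually_ge_atTop 1] with n hn hn1
  refine le_trans ?_ hn.le
  have hn1' : (1 : ℝ) ≤ n := by exact_mod_cast hn1
  have hn0 : (0 : ℝ) < n := by linarith
  have h2 : ((n : ℝ) ^ (-ε)) ^ ⌈2 / ε⌉₊ ≤ 1 / (n : ℝ) ^ 2 := by
    rw [← Real.rpow_natCast, ← Real.rpow_mul hn0.le]
    have h3 : -ε * ((⌈2 / ε⌉₊ : ℕ) : ℝ) ≤ -2 := by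
      have h4 : 2 / ε ≤ ((⌈2 / ε⌉₊ : ℕ) : ℝ) := Nat.le_ceil _
      rw [div_le_iff₀ hε] at h4
      linarith
    calc (n : ℝ) ^ (-ε * ((⌈2 / ε⌉₊ : ℕ) : ℝ)) ≤ (n : ℝ) ^ (-2 : ℝ) :=
          Real.rpow_le_rpow_of_exponent_le hn1' h3
      _ = 1 / (n : ℝ) ^ 2 := by
        rw [Real.rpow_neg hn0.le]
        norm_num
  have h5 : (0 : ℝ) ≤ (D * (n : ℝ) ^ (-ε)) ^ ⌈2 / ε⌉₊ := by positivity
  calc (n : ℝ) * (B * (D * (n : ℝ) ^ (-ε)) ^ ⌈2 / ε⌉₊)
      ≤ n * (|B| * (D * (n : ℝ) ^ (-ε)) ^ ⌈2 / ε⌉₊) := by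
        gcongr
        exact le_abs_self B
    _ = |B| * D ^ ⌈2 / ε⌉₊ * (n * ((n : ℝ) ^ (-ε)) ^ ⌈2 / ε⌉₊) := by
      rw [mul_pow]
      ring
    _ ≤ |B| * D ^ ⌈2 / ε⌉₊ * (n * (1 / (n : ℝ) ^ 2)) := by gcongr
    _ = |B| * D ^ ⌈2 / ε⌉₊ * (1 / (n : ℝ)) := by
      field_simp

end OneStepAux

theorem one_step (θ ε α err : ℝ) (j D₀ : ℕ) (hθ : 0 < θ) (hθ1 : θ ≤ 1) (hε : 0 < ε)
    (hα : 0 < α) (herr : 0 < err) (hD₀ : 8 / θ ^ 2 ≤ D₀) :
    ∃ n₀ : ℕ, ∀ n ≥ n₀, ∀ p : ℝ, 0 ≤ p → p ≤ 1 → ∀ b : ℕ, (n : ℝ) ^ α ≤ b →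
      p * b ≤ (n : ℝ) ^ (-ε) → (n : ℝ) ^ (-(2 * ε)) ≤ p * b →
      ∀ (β : Fin j → Fin D₀ → Finset (Fin n)) (A : Finset (Fin n)),
      (∀ i d, (β i d).card = b) →
      (∀ i d i' d', (i, d) ≠ (i', d') → Disjoint (β i d) (β i' d')) →
      (∀ i d, Disjoint A (β i d)) →
      2 * ((D₀ * b : ℕ) : ℝ) ≤ A.card * (1 - (1 - p) ^ b) ^ (j * D₀) →
      A.card * (1 - (1 - p) ^ b) ^ (j * D₀) ≤ 3 * ((D₀ * b : ℕ) : ℝ) →
      1 - err ≤ Pr p (fun ω : Sym2 (Fin n) → Bool => ∃ W' ⊆ A, W'.card = D₀ * b ∧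
        (∀ i, ∀ I ⊆ univ.biUnion (β i), ∀ J ⊆ W',
          θ * ((D₀ * b : ℕ) : ℝ) ≤ I.card → θ * ((D₀ * b : ℕ) : ℝ) ≤ J.card →
          ∃ x ∈ I, ∃ y ∈ J, (Gr ω).Adj x y) ∧
        (∀ i, ∀ y ∈ W', (dg (Gr ω) y (univ.biUnion (β i)) : ℝ) ≤ (n : ℝ) ^ (ε / 20)) ∧
        (∀ i, ∀ x ∈ univ.biUnion (β i), (dg (Gr ω) x W' : ℝ) ≤ (n : ℝ) ^ (ε / 20))) := by
  have hε20 : 0 < ε / 20 := by positivity
  have he4 : 0 < err / 4 := by positivity
  have hD1 : 1 ≤ D₀ := by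
    have h1 : (0 : ℝ) < 8 / θ ^ 2 := by positivity
    have h2 : (0 : ℝ) < D₀ := lt_of_lt_of_le h1 hD₀
    have h3 : 0 < D₀ := by exact_mod_cast h2
    omega
  have hev := (os_ev1 (B := 1) (c := 1 / 8) hα (by norm_num) he4).and
    ((os_ev1 (B := (j : ℝ)) (c := 4) hα (by norm_num) he4).and
    ((os_ev3 (B := (j : ℝ)) (D := (D₀ : ℝ)) hε (Nat.cast_nonneg _) he4).and
    ((os_ev4 (B := (j : ℝ)) hε20 he4).and
    (((os_tend_pow hε20).eventually (Filter.eventually_ge_atTop ((⌈2 / ε⌉₊ : ℕ) : ℝ))).and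
    (((os_tend_pow hε20).eventually (Filter.eventually_ge_atTop (36 * (D₀ : ℝ)))).and
    (((os_tend_pow hε).eventually (Filter.eventually_ge_atTop (2 * (D₀ : ℝ)))).and
    (Filter.eventually_ge_atTop 1)))))))
  obtain ⟨n₀, hn₀⟩ := Filter.eventually_atTop.1 hev
  refine ⟨n₀, ?_⟩
  intro n hn p h0 h1 b hb hpb hpb' β A hβ hd hA hlow hup
  obtain ⟨e1, e2, e3, e4, e5, e6, e7, e8⟩ := hn₀ n hn
  have hn1 : (1 : ℝ) ≤ n := by exact_mod_cast e8
  have hn0 : (0 : ℝ) < n := by linarith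
  have hb0 : 0 < b := by
    have : (0 : ℝ) < b := lt_of_lt_of_le (Real.rpow_pos_of_pos hn0 α) hb
    exact_mod_cast this
  have hb0' : (0 : ℝ) < b := by exact_mod_cast hb0
  have hD' : (1 : ℝ) ≤ D₀ := by exact_mod_cast hD1
  have hs0 : 0 < D₀ * b := Nat.mul_pos (by omega) hb0
  have hsn : (n : ℝ) ^ α ≤ ((D₀ * b : ℕ) : ℝ) := by
    push_cast
    nlinarith
  have hDpb : (D₀ : ℝ) * (p * b) ≤ 1 / 2 := by
    have h2 : (n : ℝ) ^ (-ε) * (2 * D₀) ≤ 1 := by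
      calc (n : ℝ) ^ (-ε) * (2 * D₀) ≤ (n : ℝ) ^ (-ε) * (n : ℝ) ^ ε := by gcongr
        _ = 1 := by
          rw [← Real.rpow_add hn0]
          simp
    have h3 : (D₀ : ℝ) * (p * b) ≤ D₀ * (n : ℝ) ^ (-ε) := by gcongr
    linarith
  have hq0 : 0 ≤ 1 - (1 - p) ^ b := os_q0_nonneg h0 h1 b
  have hπ0 : 0 ≤ (1 - (1 - p) ^ b) ^ (j * D₀) := by positivity
  have hbad := os_union (θ := θ) h0 h1 hb0 hβ hd hA hDpb hD1 hlow ⌈2 / ε⌉₊
    (⌊(n : ℝ) ^ (ε / 20)⌋₊ + 1) ((n : ℝ) ^ (ε / 20)) e5 (by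
      intro m hm
      exact Nat.succ_le_of_lt ((Nat.floor_lt (by positivity)).2 hm))
  rw [Pr_not] at hbad
  have b1 : Real.exp (-(((D₀ * b : ℕ) : ℝ) / 8)) ≤ err / 4 := by
    refine le_trans ?_ e1
    rw [one_mul]
    apply Real.exp_le_exp.2
    linarith
  have b2 : (j * (2 ^ (D₀ * b) * (((A.card).choose ⌈θ * ((D₀ * b : ℕ) : ℝ)⌉₊ : ℝ) *
        (2 * (1 - (1 - p) ^ b) ^ (j * D₀) * Real.exp (-(θ * D₀))) ^
          ⌈θ * ((D₀ * b : ℕ) : ℝ)⌉₊)) : ℝ) ≤ err / 4 := by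
    refine le_trans ?_ e2
    refine mul_le_mul_of_nonneg_left ?_ (Nat.cast_nonneg j)
    refine (os_e2 hθ hθ1 hD₀ hs0 hπ0 hup).trans ?_
    apply Real.exp_le_exp.2
    linarith
  have b3 : (n * (j * (((D₀ * b).choose ⌈2 / ε⌉₊ : ℝ) * p ^ ⌈2 / ε⌉₊)) : ℝ) ≤ err / 4 := by
    refine le_trans ?_ e3
    refine mul_le_mul_of_nonneg_left ?_ (Nat.cast_nonneg n)
    refine mul_le_mul_of_nonneg_left ?_ (Nat.cast_nonneg j)
    exact os_e3 h0 _ hpb
  have b4 : (n * (j * (((A.card).choose (⌊(n : ℝ) ^ (ε / 20)⌋₊ + 1) : ℝ) *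
      (2 * (1 - (1 - p) ^ b) ^ (j * D₀) / b) ^ (⌊(n : ℝ) ^ (ε / 20)⌋₊ + 1))) : ℝ) ≤ err / 4 := by
    refine le_trans ?_ e4
    refine mul_le_mul_of_nonneg_left ?_ (Nat.cast_nonneg n)
    refine mul_le_mul_of_nonneg_left ?_ (Nat.cast_nonneg j)
    refine os_e4 hb0 hπ0 hup ?_ (by omega)
    push_cast
    have := (Nat.lt_floor_add_one ((n : ℝ) ^ (ε / 20))).le
    linarith
  linarith

end Pool.MP_1bacea_co
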