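import Mathlib

/-!
# J3 `Template` : a graph of large chromatic number and large odd girth

Shift graph: vertices are the strictly increasing `(k+1)`-tuples, a tuple is adjacent to its shifts.
-/

namespace Pool.MP_1bacea_co

open Finset

/-- A colouring of the shift graph: the two halves of a longer increasing tuple get different
colours. -/
private def tpCol (N j : ℕ) {α : Type} (c : (Fin (j + 1) → Fin N) → α) : Prop :=
  ∀ a : Fin (j + 2) → Fin N, StrictMono a → c (fun i => a i.castSucc) ≠ c (fun i => a i.succ)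

private lemma tpCol_step (N j : ℕ) {α : Type} (c : (Fin (j + 2) → Fin N) → α)
    (h : tpCol N (j + 1) c) :
    tpCol N j (fun b : Fin (j + 1) → Fin N =>
      ({x | ∃ a : Fin (j + 2) → Fin N, StrictMono a ∧ (fun i => a (Fin.succ i)) = b ∧ c a = x} :
        Set α)) := by
  intro d hd heq
  have h1 : c d ∈ ({x | ∃ a : Fin (j + 2) → Fin N, StrictMono a ∧
      (fun i => a (Fin.succ i)) = (fun i : Fin (j + 1) => d i.succ) ∧ c a = x} : Set α) :=
    ⟨d, hd, rfl, rfl⟩
  have h2 : c d ∈ ({x | ∃ a : Fin (j + 2) → Fin N, StrictMono a ∧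
      (fun i => a (Fin.succ i)) = (fun i : Fin (j + 1) => d i.castSucc) ∧ c a = x} : Set α) := by
    have heq' : ({x | ∃ a : Fin (j + 2) → Fin N, StrictMono a ∧
      (fun i => a (Fin.succ i)) = (fun i : Fin (j + 1) => d i.castSucc) ∧ c a = x} : Set α)
      = ({x | ∃ a : Fin (j + 2) → Fin N, StrictMono a ∧
      (fun i => a (Fin.succ i)) = (fun i : Fin (j + 1) => d i.succ) ∧ c a = x} : Set α) := heq
    rw [heq']; exact h1
  obtain ⟨a, ha, hab, hac⟩ := h2
  have hab' : ∀ i : Fin (j + 1), a i.succ = d i.castSucc := fun i => congrFun hab i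
  obtain ⟨e, e0, e1⟩ : ∃ e : Fin (j + 3) → Fin N, e 0 = a 0 ∧ ∀ i : Fin (j + 2), e i.succ = d i :=
    ⟨Fin.cons (α := fun _ => Fin N) (a 0) d, by rw [Fin.cons_zero],
      fun i => by rw [Fin.cons_succ]⟩
  have he : StrictMono e := by
    rw [Fin.strictMono_iff_lt_succ]
    intro i
    refine Fin.cases ?_ (fun i => ?_) i
    · rw [Fin.castSucc_zero, e0, e1]
      have h3 := hab' 0
      rw [Fin.castSucc_zero] at h3
      rw [← h3]
      exact ha (by simp)
    · rw [Fin.castSucc_succ, e1, e1]
      exact hd (Fin.castSucc_lt_succ)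
  have h4 := h e he
  apply h4
  have h5 : (fun i : Fin (j + 2) => e i.castSucc) = a := by
    funext i
    refine Fin.cases ?_ (fun i => ?_) i
    · rw [Fin.castSucc_zero, e0]
    · rw [Fin.castSucc_succ, e1, hab']
  have h6 : (fun i : Fin (j + 2) => e i.succ) = d := by
    funext i
    rw [e1]
  rw [h5, h6, hac]

private lemma tp_exists (j : ℕ) : ∀ (α : Type) [Finite α], ∃ N : ℕ,
    ∀ c : (Fin (j + 1) → Fin N) → α, ¬ tpCol N j c := by
  induction j with
  | zero =>
    intro α _
    have := Fintype.ofFinite α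
    refine ⟨Fintype.card α + 1, fun c hc => ?_⟩
    have hinj : Function.Injective (fun x : Fin (Fintype.card α + 1) => c (fun _ => x)) := by
      have key : ∀ x y : Fin (Fintype.card α + 1), x < y → c (fun _ => x) ≠ c (fun _ => y) := by
        intro x y hxy
        have h1 := hc (fun i => if (i : ℕ) = 0 then x else y) (by
          rw [Fin.strictMono_iff_lt_succ]
          intro i
          have : i = 0 := by apply Fin.ext; omega
          subst this
          simpa using hxy)
        have e1 : (fun i : Fin (0 + 1) => (if ((i.castSucc : Fin (0 + 2)) : ℕ) = 0 then x else y))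
            = (fun _ => x) := by
          funext i
          have : i = 0 := by apply Fin.ext; omega
          subst this
          simp
        have e2 : (fun i : Fin (0 + 1) => (if ((i.succ : Fin (0 + 2)) : ℕ) = 0 then x else y))
            = (fun _ => y) := by
          funext i
          simp
        rw [e1, e2] at h1
        exact h1
      intro x y hxy
      rcases lt_trichotomy x y with h | h | h
      · exact absurd hxy (key x y h)
      · exact h
      · exact absurd hxy.symm (key y x h)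
    have h2 := Fintype.card_le_of_injective _ hinj
    simp at h2
  | succ j ih =>
    intro α _
    obtain ⟨N, hN⟩ := ih (Set α)
    exact ⟨N, fun c hc => hN _ (tpCol_step N j c hc)⟩

/-- Shift graph. -/
private def tpG (N k : ℕ) (hk : 1 ≤ k) :
    SimpleGraph {a : Fin (k + 1) → Fin N // StrictMono a} where
  Adj a b := (∀ i : Fin k, b.1 i.castSucc = a.1 i.succ) ∨ (∀ i : Fin k, a.1 i.castSucc = b.1 i.succ)
  symm := ⟨fun _ _ h => h.symm⟩
  loopless := ⟨fun a h => by
    have h1 : ∀ i : Fin k, a.1 i.castSucc = a.1 i.succ := by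
      rcases h with h | h <;> exact h
    have h2 := h1 ⟨0, hk⟩
    have h3 := a.2 (Fin.castSucc_lt_succ (i := (⟨0, hk⟩ : Fin k)))
    rw [h2] at h3
    exact lt_irrefl _ h3⟩

private lemma tpG_not_colorable (C k : ℕ) (hk : 1 ≤ k) : ∃ N, ¬ (tpG N k hk).Colorable C := by
  obtain ⟨N, hN⟩ := tp_exists k (Option (Fin C))
  refine ⟨N, fun ⟨col⟩ => ?_⟩
  classical
  apply hN (fun a => if h : StrictMono a then some (col ⟨a, h⟩) else none)
  intro a ha
  have h1 : StrictMono (fun i : Fin (k + 1) => a i.castSucc) := fun x y hxy =>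
    ha (by simpa using hxy)
  have h2 : StrictMono (fun i : Fin (k + 1) => a i.succ) := fun x y hxy =>
    ha (by simpa using hxy)
  simp only [h1, h2, dif_pos]
  intro h3
  have h4 := Option.some.inj h3
  refine col.valid ?_ h4
  left
  intro i
  rfl

private lemma tp_walk (N k : ℕ) (hk : 1 ≤ k) (m : Fin N)
    (z : ℕ → {a : Fin (k + 1) → Fin N // StrictMono a})
    (hz : ∀ i, (tpG N k hk).Adj (z i) (z (i + 1))) (hm : ∀ i, (z i).1 0 ≤ m)
    (h0 : (z 0).1 0 = m) (i : ℕ) (hi : i ≤ k) :
    ∃ j : Fin (k + 1), (j : ℕ) ≤ i ∧ Even (i + j) ∧ (z i).1 j = m := by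
  induction i with
  | zero => exact ⟨0, by simp, by simp, h0⟩
  | succ i ih =>
    obtain ⟨j, hj1, hj2, hj3⟩ := ih (by omega)
    rcases hz i with h | h
    · -- forward
      refine Fin.cases (motive := fun j => (j : ℕ) ≤ i → Even (i + (j : ℕ)) → (z i).1 j = m → _)
        ?_ (fun j' => ?_) j hj1 hj2 hj3
      · intro _ _ h3
        exfalso
        have h4 := h ⟨0, hk⟩
        have h5 := (z i).2 (Fin.castSucc_lt_succ (i := (⟨0, hk⟩ : Fin k)))
        have h6 : (Fin.castSucc (⟨0, hk⟩ : Fin k)) = 0 := rfl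
        rw [h6] at h4 h5
        have h7 := hm (i + 1)
        rw [h4] at h7
        rw [h3] at h5
        exact absurd h5 (not_lt.mpr h7)
      · intro h1 h2 h3
        refine ⟨j'.castSucc, ?_, ?_, ?_⟩
        · rw [Fin.val_castSucc]; rw [Fin.val_succ] at h1; omega
        · rw [Fin.val_castSucc]; rw [Fin.val_succ] at h2
          have : i + (↑j' + 1) = i + 1 + ↑j' := by ring
          rw [← this]; exact h2
        · rw [h j', h3]
    · -- backward
      have hjk : (j : ℕ) < k := by omega
      refine ⟨(⟨j, hjk⟩ : Fin k).succ, ?_, ?_, ?_⟩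
      · rw [Fin.val_succ]; simp; omega
      · rw [Fin.val_succ]
        have : i + 1 + (j + 1) = i + j + 2 := by ring
        show Even (i + 1 + ((j : ℕ) + 1))
        rw [this]
        exact hj2.add (by norm_num)
      · rw [← h ⟨j, hjk⟩]
        exact hj3

private lemma tp_end (N k : ℕ) (hk : 1 ≤ k) (m : Fin N)
    (a b : {a : Fin (k + 1) → Fin N // StrictMono a})
    (hab : ∀ i : Fin k, b.1 i.castSucc = a.1 i.succ) (hb : b.1 0 ≤ m)
    (i j : Fin (k + 1)) (hi : a.1 i = m) (hj : b.1 j = m)
    (hij : Even ((i : ℕ) + j)) : False := by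
  revert hi hij
  refine Fin.cases (motive := fun i => a.1 i = m → Even ((i : ℕ) + j) → False) ?_
    (fun i' => ?_) i
  · intro h3 _
    have h4 := hab ⟨0, hk⟩
    have h5 := a.2 (Fin.castSucc_lt_succ (i := (⟨0, hk⟩ : Fin k)))
    have h6 : (Fin.castSucc (⟨0, hk⟩ : Fin k)) = 0 := rfl
    rw [h6] at h4 h5
    rw [h4] at hb
    rw [h3] at h5
    exact absurd h5 (not_lt.mpr hb)
  · intro h3 h4
    have h5 : b.1 i'.castSucc = b.1 j := by rw [hab i', h3, hj]
    have h6 := b.2.injective h5
    rw [← h6, Fin.val_succ, Fin.val_castSucc] at h4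
    rw [Nat.even_iff] at h4
    omega

open Fin.CommRing in
private lemma tp_noHom (N k : ℕ) (hk : 1 ≤ k) : IsEmpty (SimpleGraph.cycleGraph (2 * k + 1) →g tpG N k hk) := by
  refine ⟨fun f => ?_⟩
  obtain ⟨k', rfl⟩ : ∃ k', k = k' + 1 := ⟨k - 1, by omega⟩
  have hadj : ∀ u v : Fin (2 * (k' + 1) + 1), (u - v = 1 ∨ v - u = 1) →
      (tpG N (k' + 1) hk).Adj (f u) (f v) := by
    intro u v h
    apply f.map_adj
    exact (SimpleGraph.cycleGraph_adj (n := 2 * k' + 1)).mpr h
  obtain ⟨t, ht⟩ := Finite.exists_max (fun t => (f t).1 0)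
  have hw1 := tp_walk N (k' + 1) hk ((f t).1 0) (fun i => f (t + (i : Fin (2 * (k' + 1) + 1))))
    (fun i => hadj _ _ (Or.inr (by push_cast; ring))) (fun i => ht _) (by simp) (k' + 1) le_rfl
  have hw2 := tp_walk N (k' + 1) hk ((f t).1 0) (fun i => f (t - (i : Fin (2 * (k' + 1) + 1))))
    (fun i => hadj _ _ (Or.inl (by push_cast; ring))) (fun i => ht _) (by simp) (k' + 1) le_rfl
  obtain ⟨i, _, hi2, hi3⟩ := hw1
  obtain ⟨j, _, hj2, hj3⟩ := hw2
  have hij : Even ((i : ℕ) + j) := by
    rw [Nat.even_iff] at *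
    omega
  have hlast : (tpG N (k' + 1) hk).Adj (f (t + ((k' + 1 : ℕ) : Fin (2 * (k' + 1) + 1))))
      (f (t - ((k' + 1 : ℕ) : Fin (2 * (k' + 1) + 1)))) := by
    apply hadj
    right
    have h0 : ((2 * (k' + 1) + 1 : ℕ) : Fin (2 * (k' + 1) + 1)) = 0 := by
      exact Fin.natCast_self _
    push_cast at h0 ⊢
    have h1 : (t - (↑k' + 1) - (t + (↑k' + 1)) : Fin (2 * (k' + 1) + 1))
        = - (2 * (↑k' + 1) + 1) + 1 := by ring
    rw [h1, h0]
    ring
  rcases hlast with h | h
  · exact tp_end N (k' + 1) hk _ _ _ h (ht _) i j hi3 hj3 hij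
  · exact tp_end N (k' + 1) hk _ _ _ h (ht _) j i hj3 hi3 (by rw [add_comm]; exact hij)

/-- Template graph: large chromatic number, no homomorphic image of `C_{2k+1}`. -/
theorem template (k C : ℕ) (hk : 1 ≤ k) :
    ∃ (N : ℕ) (F : SimpleGraph (Fin N)), ¬ F.Colorable C ∧
      IsEmpty (SimpleGraph.cycleGraph (2 * k + 1) →g F) := by
  obtain ⟨N, hN⟩ := tpG_not_colorable C k hk
  classical
  let e := Fintype.equivFin {a : Fin (k + 1) → Fin N // StrictMono a}
  refine ⟨_, (tpG N k hk).comap e.symm, ?_, ⟨fun f => ?_⟩⟩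
  · intro h
    apply hN
    have f1 : tpG N k hk →g (tpG N k hk).comap e.symm :=
      ⟨fun a => e a, fun {a b} hab => by simpa using hab⟩
    exact h.of_hom f1
  · have f1 : (tpG N k hk).comap e.symm →g tpG N k hk :=
      ⟨fun a => e.symm a, fun {a b} hab => hab⟩
    exact (tp_noHom N k hk).false (f1.comp f)

end Pool.MP_1bacea_co
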