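import Pool.Agent.Lib.MP_1bacea_co.Low.LDefs
import Pool.Agent.Lib.MP_1bacea_co.Low.LProb
import Pool.Agent.Lib.MP_1bacea_co.Low.Template
import Pool.Agent.Lib.MP_1bacea_co.Low.OneStep
import Pool.Agent.Lib.MP_1bacea_co.Low.Cycle

/-!
# Low/Wexist : a subgraph of large chromatic number and odd girth on few vertices of `G(n,p)`

`(N, F)` from `template k (C+1)`; `θ = 1/(C+1)`, `D₀ = ⌈8/θ²⌉`; `ε₀ = α/(8 N D₀)` (and `≤ α/4`).
`D = p n`, `b = ⌊n^{1-ε}/(D N D₀)⌋`, `s = D₀ b` (so `N s D ≤ n^{1-ε}`, `p b` is between `n^{-2ε}` and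
`n^{-ε}`, `b ≥ n^{1/4}` as `D ≤ n^{1/2}`, `ε ≤ 1/8`).
Disjoint `A_0, ..., A_{N-1} ⊆ Y` with `|A_j| = ⌈2 s/π_j⌉`, `π_j = (1-(1-p)^b)^{j D₀} ≥ (n^{-2ε}/2)^{N D₀}`:
total size `≤ N (1 + 2 s (2 n^{2ε})^{N D₀}) ≤ n/4` for large `n` (`s ≤ n^{1-ε-α}`).
Claim by induction on `j ≤ N`: with probability `≥ 1 - j/(4N)` (err `= 1/(4N)`) there are disjoint blocks
`β i d ⊆ A_i`, `i < j`, `d < D₀`, of size `b` such that, `S i = ⋃_d β i d`:
for `i' < i`: any `I ⊆ S i'`, `J ⊆ S i` of size `≥ θ s` are joined by an edge; every vertex of `S i`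
(`S i'`) has at most `n^{ε/20}` neighbours in `S i'` (`S i`).
Step: `Pr_mix_ge` with `S` = the pairs inside `A_0 ∪ ... ∪ A_{j-1}`; for a good `ω₁` apply `one_step` to
`ω₂`; the edges inside the old part are those of `ω₁`, the edges between `A_j` and the old part
are those of `ω₂`.
Then `W = ⋃ S i`, `W₀` = edges of `Gr ω` between `S i` and `S i'` with `F.Adj i i'`.  It maps
homomorphically to `F`, so it has no `C_{2k+1}`; maximum degree `≤ N n^{ε/20} ≤ n^{ε/10}`.  If `W₀` is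
`(C+1)`-coloured, choose for every `i` a colour with at least `s/(C+1) = θ s` vertices in `S i`;
for `F.Adj i i'` the colours differ, so `F` is `(C+1)`-colourable, contradiction.
-/

set_option autoImplicit false

open Finset

namespace Pool.MP_1bacea_co

private lemma w_exists_disj {V : Type*} [DecidableEq V] (Y : Finset V) (a : ℕ → ℕ) :
    ∀ N : ℕ, (∑ i ∈ range N, a i) ≤ Y.card →
    ∃ A : ℕ → Finset V, (∀ i < N, A i ⊆ Y ∧ (A i).card = a i) ∧
      (∀ i < N, ∀ i' < N, i ≠ i' → Disjoint (A i) (A i')) := by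
  intro N
  induction N with
  | zero => intro _; exact ⟨fun _ => ∅, by simp, by simp⟩
  | succ N ih =>
    intro h
    rw [sum_range_succ] at h
    obtain ⟨A, hA, hd⟩ := ih (by omega)
    have hU : ((range N).biUnion A).card ≤ ∑ i ∈ range N, a i := by
      refine card_biUnion_le.trans ?_
      exact le_of_eq (sum_congr rfl fun i hi => (hA i (mem_range.mp hi)).2)
    have hsub : (range N).biUnion A ⊆ Y := by
      intro x hx
      rw [mem_biUnion] at hx
      obtain ⟨i, hi, hx⟩ := hx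
      exact (hA i (mem_range.mp hi)).1 hx
    have hc : a N ≤ (Y \ (range N).biUnion A).card := by
      rw [card_sdiff_of_subset hsub]
      omega
    obtain ⟨B, hB, hBc⟩ := exists_subset_card_eq hc
    have hBd : ∀ i < N, Disjoint (A i) B := by
      intro i hi
      rw [Finset.disjoint_left]
      intro x hx hxB
      have := hB hxB
      rw [mem_sdiff, mem_biUnion] at this
      exact this.2 ⟨i, mem_range.mpr hi, hx⟩
    refine ⟨Function.update A N B, ?_, ?_⟩
    · intro i hi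
      by_cases hiN : i = N
      · subst hiN
        rw [Function.update_self]
        exact ⟨hB.trans sdiff_subset, hBc⟩
      · rw [Function.update_of_ne hiN]
        exact hA i (by omega)
    · intro i hi i' hi' hne
      by_cases hiN : i = N
      · subst hiN
        rw [Function.update_self, Function.update_of_ne (Ne.symm hne)]
        exact (hBd i' (by omega)).symm
      · by_cases hiN' : i' = N
        · subst hiN'
          rw [Function.update_self, Function.update_of_ne hne]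
          exact hBd i (by omega)
        · rw [Function.update_of_ne hiN, Function.update_of_ne hiN']
          exact hd i (by omega) i' (by omega) hne

private lemma w_blocks {V : Type*} [DecidableEq V] (W : Finset V) (D b : ℕ)
    (h : W.card = D * b) :
    ∃ β : Fin D → Finset V, (∀ d, (β d).card = b) ∧
      (∀ d d', d ≠ d' → Disjoint (β d) (β d')) ∧ univ.biUnion β = W := by
  classical
  let e : Fin D × Fin b ≃ W := finProdFinEquiv.trans ((finCongr h.symm).trans W.equivFin.symm)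
  refine ⟨fun d => univ.image (fun j : Fin b => (e (d, j) : V)), ?_, ?_, ?_⟩
  · intro d
    rw [card_image_of_injective, card_univ, Fintype.card_fin]
    intro j j' hj
    have := e.injective (Subtype.ext hj)
    simpa using this
  · intro d d' hne
    rw [Finset.disjoint_left]
    intro x hx hx'
    rw [mem_image] at hx hx'
    obtain ⟨j, _, hj⟩ := hx
    obtain ⟨j', _, hj'⟩ := hx'
    have := e.injective (Subtype.ext (hj.trans hj'.symm))
    exact hne (by simpa using (Prod.ext_iff.mp this).1)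
  · ext x
    simp only [mem_biUnion, mem_univ, true_and, mem_image]
    constructor
    · rintro ⟨d, j, rfl⟩
      exact (e (d, j)).2
    · intro hx
      refine ⟨(e.symm ⟨x, hx⟩).1, (e.symm ⟨x, hx⟩).2, ?_⟩
      simp

/-- the relation between two classes -/
private def WG {n : ℕ} (t m : ℝ) (ω : Sym2 (Fin n) → Bool) (S T : Finset (Fin n)) : Prop :=
  (∀ I ⊆ S, ∀ J ⊆ T, t ≤ (I.card : ℝ) → t ≤ (J.card : ℝ) → ∃ x ∈ I, ∃ y ∈ J, (Gr ω).Adj x y) ∧
  (∀ y ∈ T, (dg (Gr ω) y S : ℝ) ≤ m) ∧ (∀ x ∈ S, (dg (Gr ω) x T : ℝ) ≤ m)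

private lemma WG_congr {n : ℕ} {t m : ℝ} {ω ω' : Sym2 (Fin n) → Bool} {S T : Finset (Fin n)}
    (h : ∀ x ∈ S, ∀ y ∈ T, ω s(x, y) = ω' s(x, y)) (hG : WG t m ω S T) : WG t m ω' S T := by
  classical
  obtain ⟨h1, h2, h3⟩ := hG
  refine ⟨?_, ?_, ?_⟩
  · intro I hI J hJ hI' hJ'
    obtain ⟨x, hx, y, hy, hxy⟩ := h1 I hI J hJ hI' hJ'
    exact ⟨x, hx, y, hy, hxy.1, by rw [← h x (hI hx) y (hJ hy)]; exact hxy.2⟩
  · intro y hy
    have : dg (Gr ω') y S = dg (Gr ω) y S := by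
      unfold dg
      congr 1
      apply filter_congr
      intro x hx
      show (y ≠ x ∧ ω' s(y, x) = true) ↔ (y ≠ x ∧ ω s(y, x) = true)
      rw [Sym2.eq_swap, h x hx y hy]
    rw [this]
    exact h2 y hy
  · intro x hx
    have : dg (Gr ω') x T = dg (Gr ω) x T := by
      unfold dg
      congr 1
      apply filter_congr
      intro y hy
      show (x ≠ y ∧ ω' s(x, y) = true) ↔ (x ≠ y ∧ ω s(x, y) = true)
      rw [h x hx y hy]
    rw [this]
    exact h3 x hx

/-- stage `j` of the embedding -/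
private def WSt {n : ℕ} (D₀ b : ℕ) (t m : ℝ) (A : ℕ → Finset (Fin n)) (j : ℕ)
    (ω : Sym2 (Fin n) → Bool) : Prop :=
  ∃ β : ℕ → Fin D₀ → Finset (Fin n), (∀ i < j, ∀ d, β i d ⊆ A i ∧ (β i d).card = b) ∧
    (∀ i < j, ∀ d d', d ≠ d' → Disjoint (β i d) (β i d')) ∧
    (∀ i < j, ∀ i' < i, WG t m ω (univ.biUnion (β i')) (univ.biUnion (β i)))

private lemma w_step {n D₀ b j : ℕ} {t m p err : ℝ} (h0 : 0 ≤ p) (h1 : p ≤ 1)
    (A : ℕ → Finset (Fin n)) (hAd : ∀ i ≤ j, ∀ i' ≤ j, i ≠ i' → Disjoint (A i) (A i'))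
    (hone : ∀ β : Fin j → Fin D₀ → Finset (Fin n), (∀ i d, (β i d).card = b) →
      (∀ i d i' d', (i, d) ≠ (i', d') → Disjoint (β i d) (β i' d')) →
      (∀ i d, Disjoint (A j) (β i d)) →
      1 - err ≤ Pr p (fun ω : Sym2 (Fin n) → Bool => ∃ W' ⊆ A j, W'.card = D₀ * b ∧
        (∀ i, ∀ I ⊆ univ.biUnion (β i), ∀ J ⊆ W',
          t ≤ (I.card : ℝ) → t ≤ (J.card : ℝ) → ∃ x ∈ I, ∃ y ∈ J, (Gr ω).Adj x y) ∧
        (∀ i, ∀ y ∈ W', (dg (Gr ω) y (univ.biUnion (β i)) : ℝ) ≤ m) ∧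
        (∀ i, ∀ x ∈ univ.biUnion (β i), (dg (Gr ω) x W' : ℝ) ≤ m)))
    {c : ℝ} (hc : c ≤ Pr p (WSt D₀ b t m A j)) (herr : err ≤ 1) :
    c * (1 - err) ≤ Pr p (WSt D₀ b t m A (j + 1)) := by
  classical
  set U : Finset (Fin n) := (range j).biUnion A with hU
  refine Pr_mix_ge h0 h1 U.sym2 (G := WSt D₀ b t m A j) (by linarith) hc ?_
  rintro ω₁ ⟨β, hβ1, hβ2, hβ3⟩
  have hone' := hone (fun i d => β i d) (fun i d => (hβ1 i i.2 d).2) ?_ ?_
  · refine hone'.trans (Pr_mono h0 h1 ?_)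
    rintro ω₂ ⟨W', hW'A, hW'c, hE, hd1, hd2⟩
    obtain ⟨γ, hγ1, hγ2, hγ3⟩ := w_blocks W' D₀ b hW'c
    refine ⟨Function.update β j γ, ?_, ?_, ?_⟩
    · intro i hi d
      by_cases hij : i = j
      · subst hij
        rw [Function.update_self]
        refine ⟨?_, hγ1 d⟩
        refine subset_trans ?_ hW'A
        rw [← hγ3]
        exact subset_biUnion_of_mem γ (mem_univ d)
      · rw [Function.update_of_ne hij]
        exact hβ1 i (by omega) d
    · intro i hi d d' hne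
      by_cases hij : i = j
      · subst hij
        rw [Function.update_self]
        exact hγ2 d d' hne
      · rw [Function.update_of_ne hij]
        exact hβ2 i (by omega) d d' hne
    · intro i hi i' hi'
      have hi'j : i' ≠ j := by omega
      have hsub : ∀ l < j, univ.biUnion (β l) ⊆ A l := by
        intro l hl x hx
        rw [mem_biUnion] at hx
        obtain ⟨d, _, hx⟩ := hx
        exact (hβ1 l hl d).1 hx
      have hinU : ∀ l < j, ∀ x ∈ univ.biUnion (β l), x ∈ U := by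
        intro l hl x hx
        rw [hU, mem_biUnion]
        exact ⟨l, mem_range.mpr hl, hsub l hl hx⟩
      rw [Function.update_of_ne hi'j]
      by_cases hij : i = j
      · subst hij
        rw [Function.update_self, hγ3]
        refine WG_congr (ω := ω₂) ?_ ⟨hE ⟨i', hi'⟩, hd1 ⟨i', hi'⟩, hd2 ⟨i', hi'⟩⟩
        intro x hx y hy
        unfold mix
        rw [if_neg]
        rw [mem_sym2_iff]
        intro hcon
        have hyU : y ∈ U := hcon y (Sym2.mem_mk_right x y)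
        rw [hU, mem_biUnion] at hyU
        obtain ⟨l, hl, hyl⟩ := hyU
        rw [mem_range] at hl
        exact Finset.disjoint_left.mp (hAd l (by omega) i le_rfl (by omega)) hyl (hW'A hy)
      · rw [Function.update_of_ne hij]
        refine WG_congr (ω := ω₁) ?_ (hβ3 i (by omega) i' hi')
        intro x hx y hy
        unfold mix
        rw [if_pos]
        rw [mem_sym2_iff]
        intro a ha
        rw [Sym2.mem_iff] at ha
        rcases ha with rfl | rfl
        · exact hinU i' (by omega) _ hx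
        · exact hinU i (by omega) _ hy
  · rintro ⟨i, hi⟩ d ⟨i', hi'⟩ d' hne
    by_cases hii : i = i'
    · subst hii
      exact hβ2 i hi d d' (fun h => hne (by rw [h]))
    · exact (hAd i (by omega) i' (by omega) hii).mono (hβ1 i hi d).1 (hβ1 i' hi' d').1
  · rintro ⟨i, hi⟩ d
    exact (hAd j le_rfl i (by omega) (by omega)).mono_right (hβ1 i hi d).1

private lemma w_majority {V : Type*} [DecidableEq V] (S : Finset V) (C : ℕ)
    (c : V → Fin (C + 1)) (s : ℝ) (hs : s ≤ S.card) :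
    ∃ q : Fin (C + 1), 1 / ((C : ℝ) + 1) * s ≤ ((S.filter fun x => c x = q).card : ℝ) := by
  by_contra hcon
  push Not at hcon
  have h1 : (S.card : ℝ) = ∑ q : Fin (C + 1), ((S.filter fun x => c x = q).card : ℝ) := by
    rw [← Nat.cast_sum, ← card_eq_sum_card_fiberwise (fun x _ => mem_univ (c x))]
  have h2 : ∑ q : Fin (C + 1), ((S.filter fun x => c x = q).card : ℝ) <
      ∑ q : Fin (C + 1), 1 / ((C : ℝ) + 1) * s :=
    sum_lt_sum_of_nonempty univ_nonempty fun q _ => hcon q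
  rw [sum_const, card_univ, Fintype.card_fin, nsmul_eq_mul] at h2
  push_cast at h2
  have h3 : ((C : ℝ) + 1) * (1 / ((C : ℝ) + 1) * s) = s := by
    field_simp
  linarith

private lemma w_final {n N k C D₀ b : ℕ} {m t : ℝ} (F : SimpleGraph (Fin N))
    (hF : ¬ F.Colorable (C + 1)) (hcyc : IsEmpty (SimpleGraph.cycleGraph (2 * k + 1) →g F))
    (A : ℕ → Finset (Fin n)) (hAd : ∀ i < N, ∀ i' < N, i ≠ i' → Disjoint (A i) (A i'))
    (Y : Finset (Fin n)) (hAY : ∀ i < N, A i ⊆ Y) (ht : t = 1 / ((C : ℝ) + 1) * ((D₀ * b : ℕ) : ℝ))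
    (hm : 0 ≤ m) (ω : Sym2 (Fin n) → Bool) (hω : WSt D₀ b t m A N ω) :
    ∃ (W : Finset (Fin n)) (W₀ : SimpleGraph (Fin n)), W ⊆ Y ∧ W₀ ≤ Gr ω ∧ SuppOn W₀ W ∧
      W.card ≤ N * (D₀ * b) ∧ (∀ v, (dg W₀ v univ : ℝ) ≤ N * m) ∧
      (SimpleGraph.cycleGraph (2 * k + 1)).Free W₀ ∧ ¬ W₀.Colorable C := by
  classical
  obtain ⟨β, hβ1, hβ2, hβ3⟩ := hω
  have hN : 0 < N := by
    rcases Nat.eq_zero_or_pos N with h | h
    · subst h
      exact absurd ⟨SimpleGraph.Coloring.mk (fun x => Fin.elim0 x) (fun {x} => Fin.elim0 x)⟩ hF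
    · exact h
  set S : Fin N → Finset (Fin n) := fun i => univ.biUnion (β i) with hS
  have hSA : ∀ i : Fin N, S i ⊆ A i := by
    intro i x hx
    rw [hS, mem_biUnion] at hx
    obtain ⟨d, _, hx⟩ := hx
    exact (hβ1 i i.2 d).1 hx
  have hSd : ∀ i i' : Fin N, ∀ x, x ∈ S i → x ∈ S i' → i = i' := by
    intro i i' x hx hx'
    by_contra hne
    exact Finset.disjoint_left.mp (hAd i i.2 i' i'.2 (fun h => hne (Fin.ext h))) (hSA i hx)
      (hSA i' hx')
  have hSc : ∀ i : Fin N, (S i).card = D₀ * b := by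
    intro i
    rw [hS]
    show (univ.biUnion (β i)).card = _
    rw [card_biUnion (fun d _ d' _ hne => hβ2 i i.2 d d' hne)]
    rw [sum_congr rfl (fun d _ => (hβ1 i i.2 d).2), sum_const, card_univ, Fintype.card_fin,
      smul_eq_mul]
  obtain ⟨W₀, hW₀⟩ : ∃ W₀ : SimpleGraph (Fin n), ∀ u v, W₀.Adj u v ↔
      ((Gr ω).Adj u v ∧ ∃ i i' : Fin N, F.Adj i i' ∧ u ∈ S i ∧ v ∈ S i') :=
    ⟨{ Adj := fun u v => (Gr ω).Adj u v ∧ ∃ i i' : Fin N, F.Adj i i' ∧ u ∈ S i ∧ v ∈ S i'
       symm := ⟨by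
        rintro u v ⟨h, i, i', hii, hu, hv⟩
        exact ⟨h.symm, i', i, hii.symm, hv, hu⟩⟩
       loopless := ⟨fun u h => (Gr ω).loopless.irrefl u h.1⟩ }, fun u v => Iff.rfl⟩
  let W : Finset (Fin n) := univ.biUnion S
  refine ⟨W, W₀, ?_, ?_, ?_, ?_, ?_, ?_, ?_⟩
  · intro x hx
    rw [mem_biUnion] at hx
    obtain ⟨i, _, hx⟩ := hx
    exact hAY i i.2 (hSA i hx)
  · intro u v h
    exact ((hW₀ u v).mp h).1
  · intro u v h
    obtain ⟨_, i, i', _, hu, hv⟩ := (hW₀ u v).mp h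
    exact ⟨mem_biUnion.mpr ⟨i, mem_univ _, hu⟩, mem_biUnion.mpr ⟨i', mem_univ _, hv⟩⟩
  · refine card_biUnion_le.trans ?_
    rw [sum_congr rfl (fun i _ => hSc i), sum_const, card_univ, Fintype.card_fin, smul_eq_mul]
  · intro v
    by_cases hv : ∃ i, v ∈ S i
    · obtain ⟨i, hi⟩ := hv
      have hcard : dg W₀ v univ ≤ ∑ i' : Fin N,
          (if i' = i then ∅ else (S i').filter fun u => (Gr ω).Adj v u).card := by
        unfold dg
        refine le_trans (card_le_card ?_) card_biUnion_le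
        intro u hu
        rw [mem_filter] at hu
        obtain ⟨hG, j, j', hjj, hvj, huj⟩ := (hW₀ _ _).mp hu.2
        rw [mem_biUnion]
        refine ⟨j', mem_univ _, ?_⟩
        have hji : j = i := hSd j i v hvj hi
        subst hji
        rw [if_neg (fun h => hjj.ne h.symm), mem_filter]
        exact ⟨huj, hG⟩
      have hcard' : (dg W₀ v univ : ℝ) ≤ ∑ i' : Fin N,
          ((if i' = i then ∅ else (S i').filter fun u => (Gr ω).Adj v u).card : ℝ) := by
        exact_mod_cast hcard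
      refine hcard'.trans ?_
      have : ∑ i' : Fin N,
          ((if i' = i then ∅ else (S i').filter fun u => (Gr ω).Adj v u).card : ℝ) ≤
          ∑ i' : Fin N, m := by
        refine sum_le_sum fun i' _ => ?_
        split_ifs with h
        · simpa using hm
        · rcases lt_or_gt_of_ne (fun hh => h (Fin.ext hh) : (i' : ℕ) ≠ i) with hlt | hlt
          · have := (hβ3 i i.2 i' hlt).2.1 v hi
            unfold dg at this
            convert this
          · have := (hβ3 i' i'.2 i hlt).2.2 v hi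
            unfold dg at this
            convert this
      refine this.trans ?_
      rw [sum_const, card_univ, Fintype.card_fin, nsmul_eq_mul]
    · have : dg W₀ v univ = 0 := by
        unfold dg
        rw [card_eq_zero, filter_eq_empty_iff]
        intro u _ h
        obtain ⟨_, i, _, _, hvi, _⟩ := (hW₀ _ _).mp h
        exact hv ⟨i, hvi⟩
      rw [this]
      push_cast
      positivity
  · rintro ⟨f⟩
    let idx : Fin n → Fin N := fun v => if h : ∃ i, v ∈ S i then h.choose else ⟨0, hN⟩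
    have hidx : ∀ i v, v ∈ S i → idx v = i := by
      intro i v hv
      have h : ∃ i, v ∈ S i := ⟨i, hv⟩
      show (if h : ∃ i, v ∈ S i then h.choose else ⟨0, hN⟩) = i
      rw [dif_pos h]
      exact hSd _ _ v h.choose_spec hv
    let g : W₀ →g F :=
      { toFun := idx
        map_rel' := by
          intro u v h
          obtain ⟨_, i, i', hii, hu, hv⟩ := (hW₀ _ _).mp h
          show F.Adj (idx u) (idx v)
          rw [hidx i u hu, hidx i' v hv]
          exact hii }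
    exact hcyc.false (g.comp f.toHom)
  · intro hcol
    have hcol' : W₀.Colorable (C + 1) := hcol.mono (Nat.le_succ C)
    obtain ⟨c⟩ := hcol'
    have hmaj : ∀ i : Fin N, ∃ q : Fin (C + 1),
        t ≤ (((S i).filter fun x => c x = q).card : ℝ) := by
      intro i
      obtain ⟨q, hq⟩ := w_majority (S i) C (fun x => c x) ((D₀ * b : ℕ) : ℝ)
        (by rw [hSc i])
      exact ⟨q, by rw [ht]; exact hq⟩
    choose q hq using hmaj
    apply hF
    refine ⟨SimpleGraph.Coloring.mk q ?_⟩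
    have key : ∀ i i' : Fin N, F.Adj i i' → (i' : ℕ) < i → q i ≠ q i' := by
      intro i i' hii hlt heq
      obtain ⟨x, hx, y, hy, hxy⟩ := (hβ3 i i.2 i' hlt).1 ((S i').filter fun x => c x = q i')
        (filter_subset _ _) ((S i).filter fun x => c x = q i) (filter_subset _ _) (hq i') (hq i)
      rw [mem_filter] at hx hy
      have hadj : W₀.Adj x y := (hW₀ _ _).mpr ⟨hxy, i', i, hii.symm, hx.1, hy.1⟩
      exact c.valid hadj (by rw [hx.2, hy.2, heq])
    intro i i' hii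
    rcases lt_or_gt_of_ne (fun hh => hii.ne (Fin.ext hh) : (i : ℕ) ≠ i') with hlt | hlt
    · exact (key i' i hii.symm hlt).symm
    · exact key i i' hii hlt

private lemma w_ev (c δ : ℝ) (hδ : 0 < δ) : ∀ᶠ n : ℕ in Filter.atTop, c ≤ (n : ℝ) ^ δ :=
  ((tendsto_rpow_atTop hδ).comp tendsto_natCast_atTop_atTop).eventually_ge_atTop c

private lemma w_q {p : ℝ} (h0 : 0 ≤ p) (h1 : p ≤ 1) (b : ℕ) (hb : p * b ≤ 1) :
    p * b / 2 ≤ 1 - (1 - p) ^ b := by
  have e1 : (1 - p) ^ b ≤ Real.exp (-(p * b)) := by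
    have h := Real.one_sub_le_exp_neg p
    calc (1 - p) ^ b ≤ (Real.exp (-p)) ^ b := pow_le_pow_left₀ (by linarith) h b
      _ = Real.exp (-(p * b)) := by
        rw [← Real.exp_nat_mul]
        congr 1
        ring
  set y : ℝ := p * b with hy
  have hy0 : 0 ≤ y := by positivity
  have e2 : Real.exp (-y) ≤ 1 - y / 2 := by
    have h3 : 1 + y ≤ Real.exp y := by
      have := Real.add_one_le_exp y
      linarith
    rw [Real.exp_neg]
    have h4 : (Real.exp y)⁻¹ ≤ (1 + y)⁻¹ := inv_anti₀ (by linarith) h3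
    refine h4.trans ?_
    rw [inv_le_comm₀ (by linarith) (by linarith), ← one_div, div_le_iff₀ (by linarith)]
    nlinarith
  linarith

theorem wexist (k C : ℕ) (hk : 1 ≤ k) (α : ℝ) (hα : 0 < α) (hα1 : α ≤ 1 / 2) :
    ∃ ε₀ : ℝ, 0 < ε₀ ∧ ∀ ε : ℝ, 0 < ε → ε ≤ ε₀ → ∃ n₀ : ℕ, ∀ n ≥ n₀, ∀ p : ℝ, 0 ≤ p → p ≤ 1 →
      (n : ℝ) ^ α ≤ p * n → p * n ≤ (n : ℝ) ^ ((1 : ℝ) / 2) →
      ∀ Y : Finset (Fin n), (n : ℝ) / 4 ≤ Y.card →
      3 / 4 ≤ Pr p (fun ω : Sym2 (Fin n) → Bool => ∃ (W : Finset (Fin n))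
        (W₀ : SimpleGraph (Fin n)), W ⊆ Y ∧ W₀ ≤ Gr ω ∧ SuppOn W₀ W ∧
        (W.card : ℝ) * (p * n) ≤ (n : ℝ) ^ (1 - ε) ∧
        (∀ v, (dg W₀ v univ : ℝ) ≤ (n : ℝ) ^ (ε / 10)) ∧
        (SimpleGraph.cycleGraph (2 * k + 1)).Free W₀ ∧ ¬ W₀.Colorable C) := by
  classical
  obtain ⟨N, F, hF, hcyc⟩ := template k (C + 1) hk
  have hN : 0 < N := by
    rcases Nat.eq_zero_or_pos N with h | h
    · subst h
      exact absurd ⟨SimpleGraph.Coloring.mk (fun x => Fin.elim0 x) (fun {x} => Fin.elim0 x)⟩ hF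
    · exact h
  set θ : ℝ := 1 / ((C : ℝ) + 1) with hθ
  have hθ0 : 0 < θ := by positivity
  have hθ1 : θ ≤ 1 := by
    rw [hθ, div_le_one (by positivity)]
    linarith [Nat.cast_nonneg (α := ℝ) C]
  obtain ⟨D₀, hD₀⟩ := exists_nat_ge (8 / θ ^ 2)
  have hD₀pos : 0 < D₀ := by
    have : (0 : ℝ) < D₀ := lt_of_lt_of_le (by positivity) hD₀
    exact_mod_cast this
  have hNr : (1 : ℝ) ≤ N := by exact_mod_cast hN
  have hDr : (1 : ℝ) ≤ D₀ := by exact_mod_cast hD₀pos
  obtain ⟨M, hM⟩ : ∃ M : ℝ, M = N * D₀ := ⟨_, rfl⟩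
  have hM1 : 1 ≤ M := by
    rw [hM]
    nlinarith
  have hM0 : 0 < M := by linarith
  refine ⟨min (1 / 8) (α / (8 * M)), by positivity, ?_⟩
  intro ε hε hεle
  have hε8 : ε ≤ 1 / 8 := hεle.trans (min_le_left _ _)
  have hεM : ε * (8 * M) ≤ α := by
    have := hεle.trans (min_le_right _ _)
    rwa [le_div_iff₀ (by positivity)] at this
  obtain ⟨err, herr⟩ : ∃ err : ℝ, err = 1 / (4 * N) := ⟨_, rfl⟩
  have herr0 : 0 < err := by
    rw [herr]
    positivity
  have herr1 : err ≤ 1 := by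
    rw [herr, div_le_one (by positivity)]
    linarith
  have hos := fun j : ℕ => one_step θ ε (1 / 4) err j D₀ hθ0 hθ1 hε (by norm_num) herr0 hD₀
  choose nos hnos using hos
  have E1 := w_ev (N : ℝ) (ε / 20) (by positivity)
  have E2 := w_ev (2 * M) (1 / 4 - ε) (by linarith)
  have E3 := w_ev (2 * M) ε hε
  have E3' := w_ev (2 * M) (1 / 2 - ε) (by linarith)
  have E4 := w_ev (8 * 2 ^ (1 + N * D₀)) (α + ε - 2 * ε * M) (by nlinarith)
  have E5 : ∀ᶠ n : ℕ in Filter.atTop, 8 * N ≤ n := Filter.eventually_ge_atTop _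
  have E6 : ∀ᶠ n : ℕ in Filter.atTop, ∀ j ∈ range N, nos j ≤ n := by
    rw [Filter.eventually_all_finset]
    intro j _
    exact Filter.eventually_ge_atTop _
  obtain ⟨n₀, hn₀⟩ := Filter.eventually_atTop.mp
    (E1.and (E2.and (E3.and (E3'.and (E4.and (E5.and E6))))))
  refine ⟨n₀, fun n hn p hp0 hp1 hD1 hD2 Y hY => ?_⟩
  obtain ⟨e1, e2, e3, e3', e4, e5, e6⟩ := hn₀ n hn
  clear E1 E2 E3 E3' E4 E5 E6 hn₀
  obtain ⟨x, hx⟩ : ∃ x : ℝ, x = (n : ℝ) := ⟨_, rfl⟩
  rw [← hx] at e1 e2 e3 e3' e4 hD1 hD2 hY ⊢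
  have hx8 : 8 * (N : ℝ) ≤ x := by
    rw [hx]
    exact_mod_cast e5
  have hx1 : 1 ≤ x := by linarith
  have hx0 : 0 < x := by linarith
  have hpx : 0 < p * x := lt_of_lt_of_le (Real.rpow_pos_of_pos hx0 α) hD1
  have hp : 0 < p := pos_of_mul_pos_left hpx hx0.le
  obtain ⟨b, hb⟩ : ∃ b : ℕ, b = ⌊x ^ (1 - ε) / (p * x * M)⌋₊ := ⟨_, rfl⟩
  have hb1 : (b : ℝ) ≤ x ^ (1 - ε) / (p * x * M) := by
    rw [hb]
    exact Nat.floor_le (by positivity)
  have hb2 : x ^ (1 - ε) / (p * x * M) < b + 1 := by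
    rw [hb]
    exact Nat.lt_floor_add_one _
  have hb3 : M * b * (p * x) ≤ x ^ (1 - ε) := by
    rw [le_div_iff₀ (by positivity)] at hb1
    linarith
  have hx14 : 1 ≤ x ^ ((1 : ℝ) / 4) := Real.one_le_rpow hx1 (by norm_num)
  have hb4 : x ^ ((1 : ℝ) / 4) ≤ b := by
    have h1 : x ^ ((1 : ℝ) / 2 - ε) / M ≤ x ^ (1 - ε) / (p * x * M) := by
      rw [div_le_div_iff₀ hM0 (by positivity)]
      have : x ^ ((1 : ℝ) / 2 - ε) * (p * x) ≤ x ^ (1 - ε) := by
        calc x ^ ((1 : ℝ) / 2 - ε) * (p * x) ≤ x ^ ((1 : ℝ) / 2 - ε) * x ^ ((1 : ℝ) / 2) :=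
              mul_le_mul_of_nonneg_left hD2 (by positivity)
          _ = x ^ (1 - ε) := by
              rw [← Real.rpow_add hx0]
              congr 1
              ring
      calc x ^ ((1 : ℝ) / 2 - ε) * (p * x * M) = (x ^ ((1 : ℝ) / 2 - ε) * (p * x)) * M := by ring
        _ ≤ x ^ (1 - ε) * M := mul_le_mul_of_nonneg_right this hM0.le
    have h2 : 2 * x ^ ((1 : ℝ) / 4) ≤ x ^ ((1 : ℝ) / 2 - ε) / M := by
      rw [le_div_iff₀ hM0]
      have : x ^ ((1 : ℝ) / 2 - ε) = x ^ ((1 : ℝ) / 4) * x ^ ((1 : ℝ) / 4 - ε) := by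
        rw [← Real.rpow_add hx0]
        congr 1
        ring
      rw [this]
      calc 2 * x ^ ((1 : ℝ) / 4) * M = x ^ ((1 : ℝ) / 4) * (2 * M) := by ring
        _ ≤ _ := mul_le_mul_of_nonneg_left e2 (by positivity)
    linarith
  have hbpos : (1 : ℝ) ≤ b := hx14.trans hb4
  have hpb : p * b ≤ x ^ (-ε) / M := by
    rw [le_div_iff₀ hM0]
    have h1 : x ^ (1 - ε) = x ^ (-ε) * x := by
      rw [← Real.rpow_add_one hx0.ne']
      congr 1
      ring
    rw [h1] at hb3
    have h2 : (p * b * M) * x ≤ x ^ (-ε) * x := by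
      calc (p * b * M) * x = M * b * (p * x) := by ring
        _ ≤ _ := hb3
    exact le_of_mul_le_mul_right h2 hx0
  have hb5 : p * b ≤ x ^ (-ε) := by
    refine hpb.trans ?_
    rw [div_le_iff₀ hM0]
    have : 0 < x ^ (-ε) := by positivity
    nlinarith
  have hxe : x ^ (-ε) ≤ 1 := Real.rpow_le_one_of_one_le_of_nonpos hx1 (by linarith)
  have hb6 : x ^ (-(2 * ε)) ≤ p * b := by
    have h1 : x ^ (1 - ε) / (p * x * M) = x ^ (-ε) / (p * M) := by
      have : x ^ (1 - ε) = x ^ (-ε) * x := by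
        rw [← Real.rpow_add_one hx0.ne']
        congr 1
        ring
      rw [this]
      field_simp
    have h2 : x ^ (-ε) / M - p ≤ p * b := by
      have h3 : x ^ (-ε) / (p * M) - 1 ≤ b := by
        rw [← h1]
        linarith
      have h4 := mul_le_mul_of_nonneg_left h3 hp.le
      have h5 : p * (x ^ (-ε) / (p * M) - 1) = x ^ (-ε) / M - p := by
        field_simp
      linarith
    have h6 : p ≤ x ^ (-ε) / (2 * M) := by
      rw [le_div_iff₀ (by positivity)]
      have h7 : p * x ≤ x ^ (-ε) * x ^ (-((1 : ℝ) / 2 - ε)) * x := by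
        refine hD2.trans (le_of_eq ?_)
        rw [← Real.rpow_add hx0, ← Real.rpow_add_one hx0.ne']
        congr 1
        ring
      have h8 : p ≤ x ^ (-ε) * x ^ (-((1 : ℝ) / 2 - ε)) := le_of_mul_le_mul_right h7 hx0
      have h9 : x ^ (-((1 : ℝ) / 2 - ε)) * (2 * M) ≤ 1 := by
        rw [Real.rpow_neg hx0.le, inv_mul_le_iff₀ (by positivity), mul_one]
        exact e3'
      calc p * (2 * M) ≤ (x ^ (-ε) * x ^ (-((1 : ℝ) / 2 - ε))) * (2 * M) :=
            mul_le_mul_of_nonneg_right h8 (by positivity)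
        _ = x ^ (-ε) * (x ^ (-((1 : ℝ) / 2 - ε)) * (2 * M)) := by ring
        _ ≤ x ^ (-ε) * 1 := mul_le_mul_of_nonneg_left h9 (by positivity)
        _ = _ := mul_one _
    have h10 : x ^ (-(2 * ε)) ≤ x ^ (-ε) / (2 * M) := by
      rw [le_div_iff₀ (by positivity)]
      have h11 : x ^ (-(2 * ε)) = x ^ (-ε) * x ^ (-ε) := by
        rw [← Real.rpow_add hx0]
        congr 1
        ring
      have h12 : x ^ (-ε) * (2 * M) ≤ 1 := by
        rw [Real.rpow_neg hx0.le, inv_mul_le_iff₀ (by positivity), mul_one]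
        exact e3
      rw [h11, mul_assoc]
      calc x ^ (-ε) * (x ^ (-ε) * (2 * M)) ≤ x ^ (-ε) * 1 :=
            mul_le_mul_of_nonneg_left h12 (by positivity)
        _ = _ := mul_one _
    have h13 : x ^ (-ε) / (2 * M) + x ^ (-ε) / (2 * M) = x ^ (-ε) / M := by
      field_simp
      norm_num
    linarith
  obtain ⟨q, hq⟩ : ∃ q : ℝ, q = 1 - (1 - p) ^ b := ⟨_, rfl⟩
  have hq1 : q ≤ 1 := by
    rw [hq]
    have : 0 ≤ (1 - p) ^ b := pow_nonneg (by linarith) b
    linarith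
  have hqlow : x ^ (-(2 * ε)) / 2 ≤ q := by
    rw [hq]
    refine le_trans ?_ (w_q hp0 hp1 b (hb5.trans hxe))
    linarith
  have hq0 : 0 < q := lt_of_lt_of_le (by positivity) hqlow
  -- the sizes
  obtain ⟨a, ha⟩ : ∃ a : ℕ → ℕ, ∀ j, a j = ⌈2 * ((D₀ * b : ℕ) : ℝ) / q ^ (j * D₀)⌉₊ :=
    ⟨_, fun j => rfl⟩
  have hs1 : (1 : ℝ) ≤ ((D₀ * b : ℕ) : ℝ) := by
    push_cast
    nlinarith
  have ha1 : ∀ j, 2 * ((D₀ * b : ℕ) : ℝ) ≤ a j * q ^ (j * D₀) := by
    intro j
    have h1 := Nat.le_ceil (2 * ((D₀ * b : ℕ) : ℝ) / q ^ (j * D₀))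
    rw [← ha j, div_le_iff₀ (by positivity)] at h1
    exact h1
  have ha2 : ∀ j, (a j : ℝ) ≤ 2 * ((D₀ * b : ℕ) : ℝ) / q ^ (j * D₀) + 1 := by
    intro j
    rw [ha j]
    exact (Nat.ceil_lt_add_one (by positivity)).le
  have ha3 : ∀ j, a j * q ^ (j * D₀) ≤ 3 * ((D₀ * b : ℕ) : ℝ) := by
    intro j
    have h1 := mul_le_mul_of_nonneg_right (ha2 j) (pow_nonneg hq0.le (j * D₀))
    have h2 : (2 * ((D₀ * b : ℕ) : ℝ) / q ^ (j * D₀) + 1) * q ^ (j * D₀) =
        2 * ((D₀ * b : ℕ) : ℝ) + q ^ (j * D₀) := by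
      have : q ^ (j * D₀) ≠ 0 := by positivity
      field_simp
    have h3 : q ^ (j * D₀) ≤ 1 := pow_le_one₀ hq0.le hq1
    linarith
  have hsum : ∑ j ∈ range N, a j ≤ Y.card := by
    have h1 : ∀ j ∈ range N, (a j : ℝ) ≤ 2 * ((D₀ * b : ℕ) : ℝ) / q ^ (N * D₀) + 1 := by
      intro j hj
      refine (ha2 j).trans ?_
      have h2 : q ^ (N * D₀) ≤ q ^ (j * D₀) :=
        pow_le_pow_of_le_one hq0.le hq1 (Nat.mul_le_mul_right _ (mem_range.mp hj).le)
      have h3 : 2 * ((D₀ * b : ℕ) : ℝ) / q ^ (j * D₀) ≤ 2 * ((D₀ * b : ℕ) : ℝ) / q ^ (N * D₀) :=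
        div_le_div_of_nonneg_left (by positivity) (by positivity) h2
      linarith
    have h4 : ((∑ j ∈ range N, a j : ℕ) : ℝ) ≤
        N * (2 * ((D₀ * b : ℕ) : ℝ) / q ^ (N * D₀) + 1) := by
      push_cast
      refine (sum_le_sum h1).trans ?_
      rw [sum_const, card_range, nsmul_eq_mul]
      push_cast
      exact le_rfl
    have h5 : 1 / q ^ (N * D₀) ≤ 2 ^ (N * D₀) * x ^ (2 * ε * M) := by
      have h6 : 1 / q ≤ 2 * x ^ (2 * ε) := by
        rw [div_le_iff₀ hq0]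
        have h7 : x ^ (2 * ε) * x ^ (-(2 * ε)) = 1 := by
          rw [← Real.rpow_add hx0]
          simp
        have h8 : 0 < x ^ (2 * ε) := by positivity
        nlinarith
      have h9 : (1 / q) ^ (N * D₀) ≤ (2 * x ^ (2 * ε)) ^ (N * D₀) :=
        pow_le_pow_left₀ (by positivity) h6 _
      rw [one_div_pow] at h9
      refine h9.trans (le_of_eq ?_)
      rw [mul_pow, ← Real.rpow_natCast (x ^ (2 * ε)), ← Real.rpow_mul hx0.le]
      congr 2
      rw [hM]
      push_cast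
      ring
    have h10 : (N : ℝ) * ((D₀ * b : ℕ) : ℝ) ≤ x ^ (1 - ε - α) := by
      have h11 : x ^ (1 - ε) = x ^ (1 - ε - α) * x ^ α := by
        rw [← Real.rpow_add hx0]
        congr 1
        ring
      have h12 : (N : ℝ) * ((D₀ * b : ℕ) : ℝ) * x ^ α ≤ x ^ (1 - ε - α) * x ^ α := by
        rw [← h11]
        refine le_trans ?_ hb3
        have h13 : (N : ℝ) * ((D₀ * b : ℕ) : ℝ) = M * b := by
          rw [hM]
          push_cast
          ring
        rw [h13]
        exact mul_le_mul_of_nonneg_left hD1 (by positivity)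
      exact le_of_mul_le_mul_right h12 (by positivity)
    have h14 : (N : ℝ) * (2 * ((D₀ * b : ℕ) : ℝ) / q ^ (N * D₀)) ≤ x / 8 := by
      calc (N : ℝ) * (2 * ((D₀ * b : ℕ) : ℝ) / q ^ (N * D₀))
          = 2 * ((N : ℝ) * ((D₀ * b : ℕ) : ℝ)) * (1 / q ^ (N * D₀)) := by ring
        _ ≤ 2 * x ^ (1 - ε - α) * (2 ^ (N * D₀) * x ^ (2 * ε * M)) := by
            refine mul_le_mul (by linarith) h5 (by positivity) (by positivity)
        _ = 2 ^ (1 + N * D₀) * (x ^ (1 - ε - α) * x ^ (2 * ε * M)) := by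
            rw [pow_add]
            ring
        _ = 2 ^ (1 + N * D₀) * x ^ (1 - (α + ε - 2 * ε * M)) := by
            rw [← Real.rpow_add hx0]
            congr 2
            ring
        _ = 2 ^ (1 + N * D₀) * (x / x ^ (α + ε - 2 * ε * M)) := by
            rw [Real.rpow_sub hx0, Real.rpow_one]
        _ ≤ x / 8 := by
            rw [mul_div_assoc', div_le_iff₀ (by positivity)]
            have := mul_le_mul_of_nonneg_right e4 hx0.le
            nlinarith
    have h15 : ((∑ j ∈ range N, a j : ℕ) : ℝ) ≤ x / 4 := by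
      refine h4.trans ?_
      rw [mul_add, mul_one]
      have h16 : (N : ℝ) ≤ x / 8 := by
        clear h4 h1 h5 h10 h14
        linarith
      calc (N : ℝ) * (2 * ((D₀ * b : ℕ) : ℝ) / q ^ (N * D₀)) + N ≤ x / 8 + x / 8 :=
            add_le_add h14 h16
        _ = x / 4 := by ring
    exact_mod_cast h15.trans hY
  obtain ⟨A, hA1, hA2⟩ := w_exists_disj Y a N hsum
  obtain ⟨t, ht⟩ : ∃ t : ℝ, t = θ * ((D₀ * b : ℕ) : ℝ) := ⟨_, rfl⟩
  obtain ⟨m, hm⟩ : ∃ m : ℝ, m = x ^ (ε / 20) := ⟨_, rfl⟩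
  have hmain : ∀ j ≤ N, 1 - (j : ℝ) * err ≤ Pr p (WSt D₀ b t m A j) := by
    intro j
    induction j with
    | zero =>
      intro _
      have h1 : Pr (ι := Sym2 (Fin n)) p (fun _ => True) = 1 := by
        unfold Pr
        simp only [ind_true trivial]
        exact Ex_const p 1
      have h2 : Pr (ι := Sym2 (Fin n)) p (fun _ => True) ≤ Pr p (WSt D₀ b t m A 0) := by
        refine Pr_mono hp0 hp1 ?_
        intro ω _
        exact ⟨fun _ _ => ∅, by simp, by simp, by simp⟩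
      rw [h1] at h2
      simpa using h2
    | succ j ih =>
      intro hj
      have hjN : j < N := by omega
      have h1 := w_step (b := b) (t := t) (m := m) (err := err) hp0 hp1 A
        (fun i hi i' hi' => hA2 i (by omega) i' (by omega)) ?_ (ih (by omega)) herr1
      · refine le_trans ?_ h1
        push_cast
        have : 0 ≤ (j : ℝ) * err * err := by positivity
        nlinarith
      · intro β hβ1 hβ2 hβ3
        have h2 := hnos j n (e6 j (mem_range.mpr hjN)) p hp0 hp1 b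
          (by rw [← hx]; exact hb4) (by rw [← hx]; exact hb5) (by rw [← hx]; exact hb6)
          β (A j) hβ1 hβ2 hβ3
          (by rw [(hA1 j hjN).2, ← hq]; exact ha1 j) (by rw [(hA1 j hjN).2, ← hq]; exact ha3 j)
        rw [ht, hm, hx]
        exact h2
  have hfin := hmain N le_rfl
  have h34 : 1 - (N : ℝ) * err = 3 / 4 := by
    rw [herr]
    field_simp
    norm_num
  rw [h34] at hfin
  refine hfin.trans (Pr_mono hp0 hp1 ?_)
  intro ω hω
  obtain ⟨W, W₀, g1, g2, g3, g4, g5, g6, g7⟩ := w_final (k := k) F hF hcyc A hA2 Y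
    (fun i hi => (hA1 i hi).1) (by rw [ht, hθ]) (by rw [hm]; positivity) ω hω
  refine ⟨W, W₀, g1, g2, g3, ?_, ?_, g6, g7⟩
  · refine le_trans ?_ hb3
    refine mul_le_mul_of_nonneg_right ?_ hpx.le
    rw [hM]
    have : (W.card : ℝ) ≤ ((N * (D₀ * b) : ℕ) : ℝ) := by exact_mod_cast g4
    push_cast at this
    linarith
  · intro v
    refine (g5 v).trans ?_
    rw [hm]
    have h1 : x ^ (ε / 10) = x ^ (ε / 20) * x ^ (ε / 20) := by
      rw [← Real.rpow_add hx0]
      congr 1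
      ring
    rw [h1]
    exact mul_le_mul_of_nonneg_right e1 (by positivity)

end Pool.MP_1bacea_co
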