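import Pool.Agent.Lib.MP_1bacea_co.Low.LDefs
import Pool.Agent.Lib.MP_1bacea_co.Low.LProb
import Pool.Agent.Lib.MP_1bacea_co.Low.Wexist
import Pool.Agent.Lib.MP_1bacea_co.Low.CleanProb
import Pool.Agent.Lib.MP_1bacea_co.Low.CleanAsm

/-!
# Low/ThmB : the lower bound 1/2

`α = 1/(2k-2)`, `η = (1/2 - d)/2` (if `d ≤ 0` replace `d` by `1/4`), `ε = min(ε₀, α/4)` with `ε₀` from
`wexist k C α`, `δ = ε/(4(2k-2))` (then `α + δ ≤ 1/2`).  `X` = first `⌊n/2⌋` vertices, `Y = Xᶜ`.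
`Pr_mix_ge` with `S` = pairs inside `Xᶜ`: for `ω₁` good in the sense of `wexist` (with `W, W₀`), over
`ω₂`: `clean_prob` + `clean_asm` give `G'`, and `W₀ ⊔ G' ≤ Gr (mix S ω₁ ω₂)` because `W₀` has its edges inside
`Xᶜ` and `bip (Gr ω₂) X` has its edges between `X` and `Xᶜ`.  `W₀ ≤ G` is not `C`-colourable.
`(3/4)² ≥ 1/2`.
-/

set_option autoImplicit false

open Finset

namespace Pool.MP_1bacea_co

/-- The first half of the vertices. -/
private def hX (n : ℕ) : Finset (Fin n) := univ.filter (fun v => v.val < n / 2)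

private theorem hX_card (n : ℕ) : (hX n).card = n / 2 := by
  unfold hX
  have : (univ.filter (fun v : Fin n => v.val < n / 2)) =
      (univ : Finset (Fin (n / 2))).map (Fin.castLEEmb (Nat.div_le_self n 2)) := by
    ext v
    simp only [mem_filter, mem_univ, true_and, mem_map, Fin.castLEEmb_apply]
    constructor
    · intro h
      exact ⟨⟨v.val, h⟩, by ext; rfl⟩
    · rintro ⟨a, rfl⟩
      exact a.2
  rw [this]
  simp

private theorem hX_compl_card (n : ℕ) : ((hX n)ᶜ).card = n - n / 2 := by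
  rw [card_compl, Fintype.card_fin, hX_card]

theorem thmB (k : ℕ) (hk : 3 ≤ k) (C : ℕ) (d : ℝ) (hd : d < 1 / 2) :
    ∃ (δ : ℝ) (n₀ : ℕ), 0 < δ ∧ ∀ n ≥ n₀, ∀ p : ℝ, 0 ≤ p → p ≤ 1 →
      (n : ℝ) ^ (1 / (2 * (k : ℝ) - 2)) ≤ p * n → p * n ≤ (n : ℝ) ^ (1 / (2 * (k : ℝ) - 2) + δ) →
      1 / 2 ≤ Pr p (fun ω : Sym2 (Fin n) → Bool => ∃ G ≤ Gr ω,
        (SimpleGraph.cycleGraph (2 * k + 1)).Free G ∧
        (∀ v, d * (p * n) ≤ (dg G v univ : ℝ)) ∧ ¬ G.Colorable C) := by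
  have hkR : (3 : ℝ) ≤ k := by exact_mod_cast hk
  set α : ℝ := 1 / (2 * (k : ℝ) - 2) with hαdef
  have hα : 0 < α := by
    apply one_div_pos.mpr; linarith
  have hα4 : α ≤ 1 / 4 := by
    apply one_div_le_one_div_of_le (by norm_num); linarith
  have hαk : α * (2 * k - 2) = 1 := by
    rw [hαdef]
    field_simp
    rw [div_self]
    have : (k : ℝ) - 1 ≠ 0 := by linarith
    linarith
  obtain ⟨ε₀, hε₀, hw⟩ := wexist k C (by omega) α hα (by linarith)
  set ε : ℝ := min ε₀ (α / 4) with hεdef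
  have hε : 0 < ε := lt_min hε₀ (by linarith)
  have hε1 : ε ≤ α / 4 := min_le_right _ _
  set δ : ℝ := ε / (4 * (2 * k - 2)) with hδdef
  have hk2 : (0 : ℝ) < 2 * k - 2 := by linarith
  have hδ : 0 < δ := by positivity
  have hδε : (2 * k - 2) * δ ≤ ε / 4 := by
    have key : ∀ c : ℝ, c ≠ 0 → c * (ε / (4 * c)) = ε / 4 := by
      intro c hc
      field_simp
    exact (key _ hk2.ne').le
  have hδs : δ ≤ 1 / 4 := by
    have h1 : δ ≤ (2 * k - 2) * δ := by nlinarith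
    linarith
  set η : ℝ := (1 / 2 - max d 0) / 2 with hηdef
  have hmax : max d 0 < 1 / 2 := max_lt hd (by norm_num)
  have hη : 0 < η := by rw [hηdef]; linarith
  obtain ⟨n₁, hn₁⟩ := hw ε hε (min_le_left _ _)
  obtain ⟨n₂, hn₂⟩ := clean_prob k hk α ε δ η hα (by linarith) hαk hε hε1 hδ hδε hη
  refine ⟨δ, max (max n₁ n₂) 4, hδ, ?_⟩
  intro n hn p h0 h1 hlo hhi
  have hnn₁ : n₁ ≤ n := le_trans (le_max_left _ _) (le_trans (le_max_left _ _) hn)
  have hnn₂ : n₂ ≤ n := le_trans (le_max_right _ _) (le_trans (le_max_left _ _) hn)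
  have hn4 : 4 ≤ n := le_trans (le_max_right _ _) hn
  have hn1R : (1 : ℝ) ≤ n := by exact_mod_cast (by omega : 1 ≤ n)
  have hD : 0 ≤ p * n := by positivity
  set X := hX n with hXdef
  have hXc1 : (n : ℝ) / 2 - 1 ≤ X.card := by
    rw [hXdef, hX_card]
    have : n ≤ 2 * (n / 2) + 1 := by omega
    have : (n : ℝ) ≤ 2 * ((n / 2 : ℕ) : ℝ) + 1 := by exact_mod_cast this
    linarith
  have hXc2' : (n : ℝ) / 2 ≤ (Xᶜ).card := by
    rw [hXdef, hX_compl_card]
    have : n ≤ 2 * (n - n / 2) := by omega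
    have : (n : ℝ) ≤ 2 * ((n - n / 2 : ℕ) : ℝ) := by exact_mod_cast this
    linarith
  have hhi' : p * n ≤ (n : ℝ) ^ ((1 : ℝ) / 2) :=
    hhi.trans (Real.rpow_le_rpow_of_exponent_le hn1R (by linarith))
  have hW := hn₁ n hnn₁ p h0 h1 hlo hhi' (Xᶜ) (by linarith)
  set S : Finset (Sym2 (Fin n)) := univ.filter (fun e => ∀ v ∈ e, v ∉ X) with hS
  have hmix := Pr_mix_ge (p := p) h0 h1 S (Q := fun ω : Sym2 (Fin n) → Bool => ∃ G ≤ Gr ω,
        (SimpleGraph.cycleGraph (2 * k + 1)).Free G ∧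
        (∀ v, d * (p * n) ≤ (dg G v univ : ℝ)) ∧ ¬ G.Colorable C) (c₂ := 3 / 4) (by norm_num) hW
  refine le_trans (by norm_num) (hmix ?_)
  rintro ω₁ ⟨W, W₀, hWY, hW₀, hsupp, hWc, hWd, hfree, hcol⟩
  have hXW : Disjoint X W := by
    rw [Finset.disjoint_left]
    intro x hx hxW
    exact (mem_compl.mp (hWY hxW)) hx
  refine le_trans (hn₂ n hnn₂ p h0 h1 hlo hhi X W W₀ hXW hXc1 (by linarith) hsupp hWc hWd) ?_
  refine Pr_mono h0 h1 ?_
  intro ω₂ hOK
  obtain ⟨G', hG', hG'free, hdeg⟩ := clean_asm k hk W₀ (Gr ω₂) X W η (p * n) hη.le hD hXW hsupp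
    hfree hOK
  refine ⟨W₀ ⊔ G', ?_, hG'free, ?_, ?_⟩
  · apply sup_le
    · intro u v huv
      have h1 := hW₀ huv
      have h2 := hsupp u v huv
      refine ⟨h1.1, ?_⟩
      have hmem : s(u, v) ∈ S := by
        rw [hS, mem_filter]
        refine ⟨mem_univ _, ?_⟩
        intro w hw
        rcases Sym2.mem_iff.mp hw with rfl | rfl
        · exact mem_compl.mp (hWY h2.1)
        · exact mem_compl.mp (hWY h2.2)
      simp only [mix, if_pos hmem]
      exact h1.2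
    · intro u v huv
      have h1 := hG' huv
      refine ⟨h1.1.1, ?_⟩
      have hmem : s(u, v) ∉ S := by
        rw [hS, mem_filter]
        rintro ⟨-, h⟩
        have hu := h u (Sym2.mem_mk_left u v)
        have hv := h v (Sym2.mem_mk_right u v)
        exact hu (h1.2.mpr hv)
      simp only [mix, if_neg hmem]
      exact h1.1.2
  · intro v
    refine le_trans ?_ (hdeg v)
    apply mul_le_mul_of_nonneg_right _ hD
    rw [hηdef]
    have := le_max_left d 0
    linarith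
  · intro h
    exact hcol (h.mono_left le_sup_left)

end Pool.MP_1bacea_co
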